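import Pool.Agent.H8.PCU.R6

/-! # Zeros that are multiple or off the critical line -/

set_option autoImplicit false

open MeasureTheory Filter Topology Real

namespace Pool.Agent.H8.PCU

open H370 TH803TW Pool.Agent.Y744

/-- the zeros up to height `T` that are not simple or not on the critical line -/
noncomputable def Zd (T : ℝ) : Finset ℂ := (Zt T).filter (fun s => ¬ (s.re = 1 / 2 ∧ mz s = 1))

/-- the simple zeros on the critical line up to height `T` -/
noncomputable def Zg (T : ℝ) : Finset ℂ := (Zt T).filter (fun s => s.re = 1 / 2 ∧ mz s = 1)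

lemma sum_gd (T : ℝ) (f : ℂ → ℝ) : ∑ s ∈ Zt T, f s = ∑ s ∈ Zg T, f s + ∑ s ∈ Zd T, f s := by
  classical
  unfold Zg Zd
  exact (Finset.sum_filter_add_sum_filter_not _ _ _).symm

lemma mz_two {s : ℂ} {T : ℝ} (hs : s ∈ Zt T) (h : mz s ≠ 1) : 2 ≤ mz s := by
  have h1 := mz_one hs
  unfold mz at h h1 ⊢
  have h2 : 1 ≤ H370.mult riemannZeta s := by exact_mod_cast h1
  have h3 : H370.mult riemannZeta s ≠ 1 := by
    intro hc
    rw [hc] at h
    exact h (by norm_num)
  have h4 : 2 ≤ H370.mult riemannZeta s := by omega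
  exact_mod_cast h4

/-- **the pairs with equal ordinates** -/
lemma diag_bad (T : ℝ) : ∑ s ∈ Zt T, mz s + ∑ s ∈ Zd T, mz s - ∑ s ∈ Zt 1, mz s ≤
    PC T {x | |x| ≤ 0} := by
  classical
  -- lower bound for each zero
  have key : ∀ s ∈ Zt T, mz s + (if s ∈ Zd T then mz s else 0) - (if s.im < 1 then mz s else 0) ≤
      ∑ s' ∈ Zt T, mz s * mz s' * Set.indicator {x | |x| ≤ 0} (fun _ => (1 : ℝ)) (dd T s s') := by
    intro s hs
    have hm1 := mz_one hs
    have hterm : ∀ s', 0 ≤ mz s * mz s' *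
        Set.indicator {x | |x| ≤ 0} (fun _ => (1 : ℝ)) (dd T s s') := fun s' =>
      mul_nonneg (mul_nonneg (mz_nonneg _) (mz_nonneg _)) (ind_nonneg _ _)
    have hselfe : mz s * mz s * Set.indicator {x | |x| ≤ 0} (fun _ => (1 : ℝ))
        (dd T s s) = mz s * mz s := by
      have h4 : dd T s s = 0 := by unfold dd; simp
      rw [h4, Set.indicator_of_mem (by simp : (0 : ℝ) ∈ {x : ℝ | |x| ≤ 0}), mul_one]
    have hsingle := Finset.single_le_sum (f := fun s' => mz s * mz s' *
        Set.indicator {x | |x| ≤ 0} (fun _ => (1 : ℝ)) (dd T s s')) (fun s' _ => hterm s') hs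
    simp only [hselfe] at hsingle
    have hif : 0 ≤ (if s.im < 1 then mz s else 0) := by
      split_ifs
      · exact mz_nonneg _
      · exact le_rfl
    by_cases ho : s ∈ Zd T
    · rw [if_pos ho]
      by_cases hm2 : mz s = 1
      · have hre : s.re ≠ 1 / 2 := fun hc => (Finset.mem_filter.1 ho).2 ⟨hc, hm2⟩
        by_cases h1 : s.im < 1
        · rw [if_pos h1]
          nlinarith
        · rw [if_neg h1]
          push Not at h1
          obtain ⟨h2, h3⟩ := mirror hs h1
          have hne : s ≠ 1 - (starRingEnd ℂ) s := by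
            intro hc
            have h4 : s.re = 1 - s.re := by
              have := congrArg Complex.re hc
              simpa using this
            exact hre (by linarith)
          have hpair : ∑ s' ∈ ({s, 1 - (starRingEnd ℂ) s} : Finset ℂ), mz s * mz s' *
              Set.indicator {x | |x| ≤ 0} (fun _ => (1 : ℝ)) (dd T s s') ≤
              ∑ s' ∈ Zt T, mz s * mz s' *
                Set.indicator {x | |x| ≤ 0} (fun _ => (1 : ℝ)) (dd T s s') := by
            refine Finset.sum_le_sum_of_subset_of_nonneg ?_ fun s' _ _ => hterm s'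
            intro z hz
            rw [Finset.mem_insert, Finset.mem_singleton] at hz
            rcases hz with rfl | rfl
            · exact hs
            · exact h2
          rw [Finset.sum_pair hne] at hpair
          have h5 : dd T s (1 - (starRingEnd ℂ) s) = 0 := by
            unfold dd
            simp
          rw [hselfe, h5, h3,
            Set.indicator_of_mem (by simp : (0 : ℝ) ∈ {x : ℝ | |x| ≤ 0}), mul_one] at hpair
          nlinarith
      · have h2 := mz_two hs hm2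
        nlinarith
    · rw [if_neg ho]
      nlinarith
  have h1 := Finset.sum_le_sum key
  rw [Finset.sum_sub_distrib, Finset.sum_add_distrib] at h1
  have e1 : ∑ s ∈ Zt T, (if s ∈ Zd T then mz s else 0) = ∑ s ∈ Zd T, mz s := by
    rw [← Finset.sum_filter]
    congr 1
    ext s
    rw [Finset.mem_filter]
    exact ⟨fun h => h.2, fun h => ⟨(Finset.filter_subset _ _) h, h⟩⟩
  have e2 : ∑ s ∈ Zt T, (if s.im < 1 then mz s else 0) ≤ ∑ s ∈ Zt 1, mz s := by
    rw [← Finset.sum_filter]
    refine Finset.sum_le_sum_of_subset_of_nonneg (fun s hs => ?_) fun s _ _ => mz_nonneg s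
    obtain ⟨h2, h3⟩ := Finset.mem_filter.1 hs
    rw [mem_Zt] at h2 ⊢
    exact ⟨h2.1, h2.2.1, h2.2.2.1, h3.le, h2.2.2.2.2⟩
  rw [e1] at h1
  unfold PC
  linarith

/-- the number of zeros -/
lemma NT_lim : Tendsto (fun T => (∑ s ∈ Zt T, mz s) / Xf T) atTop (𝓝 1) := by
  rw [Metric.tendsto_atTop]
  intro ε hε
  obtain ⟨T0, hT0, hN⟩ := Pool.Agent.W54.TCF.NT_asymp' (ε / 2) (by positivity)
  refine ⟨T0, fun T hT => ?_⟩
  have hX := Xf_pos (V := T) (by linarith)
  obtain ⟨b1, b2⟩ := hN T hT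
  rw [← sum_Zt] at b1 b2
  have e : T / (2 * π) * Real.log T = Xf T := by unfold Xf; ring
  rw [e] at b1 b2
  have e2 : (∑ s ∈ Zt T, mz s) / Xf T - 1 = ((∑ s ∈ Zt T, mz s) - Xf T) / Xf T := by
    field_simp
  rw [Real.dist_eq, e2, abs_div, abs_of_pos hX, div_lt_iff₀ hX, abs_lt]
  have h3 : 0 < ε * Xf T := by positivity
  constructor <;> nlinarith

/-- constants are small -/
lemma const_lim (c : ℝ) : Tendsto (fun T => c / Xf T) atTop (𝓝 0) := by
  have h1 : Tendsto (fun T : ℝ => T * Real.log T) atTop atTop :=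
    tendsto_id.atTop_mul_atTop₀ Real.tendsto_log_atTop
  have h2 : Tendsto Xf atTop atTop := by
    have h3 : Xf = fun T => (2 * π)⁻¹ * (T * Real.log T) := by
      funext T
      unfold Xf
      ring
    rw [h3]
    exact h1.const_mul_atTop (by positivity)
  exact h2.const_div_atTop c

/-- no multiplicities in the limit: almost all zeros are simple and on the critical line -/
lemma bad_of_diag {F : Filter ℝ} (hF : F ≤ atTop)
    (h : ∀ ε : ℝ, 0 < ε → ∀ᶠ T in F, Aa T 0 ≤ 1 + ε) :
    Tendsto (fun T => (∑ s ∈ Zd T, mz s) / Xf T) F (𝓝 0) := by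
  rw [Metric.tendsto_nhds]
  intro ε hε
  have h1 := h (ε / 4) (by positivity)
  have h2 := hF ((Metric.tendsto_nhds.1 NT_lim) (ε / 4) (by positivity))
  have h3 := hF ((Metric.tendsto_nhds.1 (const_lim (∑ s ∈ Zt 1, mz s))) (ε / 4) (by positivity))
  filter_upwards [h1, h2, h3, hF (eventually_ge_atTop 16)] with T a1 a2 a3 a4
  have hX := Xf_pos (V := T) (by linarith)
  have b2 := diag_bad T
  have h0 : 0 ≤ ∑ s ∈ Zd T, mz s := Finset.sum_nonneg fun s _ => mz_nonneg s
  have h00 : 0 ≤ ∑ s ∈ Zt 1, mz s := Finset.sum_nonneg fun s _ => mz_nonneg s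
  unfold Aa at a1
  rw [inv_mul_le_iff₀ hX] at a1
  rw [Real.dist_eq, abs_lt] at a2
  rw [Real.dist_eq, sub_zero, abs_of_nonneg (by positivity), div_lt_iff₀ hX] at a3
  have a5 : (1 - ε / 4) * Xf T < ∑ s ∈ Zt T, mz s := by
    rw [← lt_div_iff₀ hX]
    linarith [a2.1]
  rw [Real.dist_eq, sub_zero, abs_of_nonneg (by positivity), div_lt_iff₀ hX]
  nlinarith

/-- the pairs with a bad zero -/
noncomputable def BP (T R : ℝ) : ℝ :=
  ∑ s ∈ Zd T, ∑ s' ∈ Zt T, mz s * mz s' * (if |dd T s s'| ≤ R then 1 else 0)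

lemma BP_nonneg (T R : ℝ) : 0 ≤ BP T R := by
  unfold BP
  refine Finset.sum_nonneg fun s _ => Finset.sum_nonneg fun s' _ => ?_
  refine mul_nonneg (mul_nonneg (mz_nonneg _) (mz_nonneg _)) ?_
  split_ifs <;> norm_num

/-- **the pairs with a bad zero are few if the bad zeros are few** -/
lemma BP_lim {F : Filter ℝ} (hF : F ≤ atTop)
    (h : Tendsto (fun T => (∑ s ∈ Zd T, mz s) / Xf T) F (𝓝 0)) (R : ℝ) :
    Tendsto (fun T => BP T R / Xf T) F (𝓝 0) := by
  have hpi := Real.pi_pos
  have hc0 := c0_nonneg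
  obtain ⟨T1, hT1, hP⟩ := PP1_Xf
  obtain ⟨C, hC⟩ : ∃ C : ℝ, C = 1 + R ^ 2 := ⟨_, rfl⟩
  have hC0 : 0 < C := by rw [hC]; positivity
  obtain ⟨P, hPd⟩ : ∃ P : ℝ, P = 7 * c0 + 1 := ⟨_, rfl⟩
  have hP1 : 1 ≤ P := by rw [hPd]; linarith
  rw [Metric.tendsto_nhds]
  intro ε hε
  obtain ⟨lam, hlam⟩ : ∃ lam : ℝ, lam = 1600 * C * P * 8 / ε := ⟨_, rfl⟩
  have hlam0 : 0 < lam := by rw [hlam]; positivity
  obtain ⟨η, hη⟩ : ∃ η : ℝ, η = ε / (1600 * C * lam * P * 16) := ⟨_, rfl⟩
  have hη0 : 0 < η := by rw [hη]; positivity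
  have ev1 := (Metric.tendsto_nhds.1 h) (η * ε / (1600 * C * lam * 2)) (by positivity)
  filter_upwards [ev1, hF (eventually_ge_atTop T1), hF (sqrt_small 1 one_pos)] with T e1 hTT1 e4
  have ht0 := t0_ge
  have hTt : t0 ≤ T := hT1.trans hTT1
  have hT16 : 16 ≤ T := ht0.trans hTt
  have hL1 : 1 ≤ Real.log T := log_ge hTt
  have hX := Xf_pos (V := T) (by linarith)
  have hZo : Zd T ⊆ Zt T := Finset.filter_subset _ _
  have hPo : PP1 (Zd T) (W T) (fun s => s.im) (Real.log T) ≤
      1 / (4 * η) * ∑ s ∈ Zd T, mz s + η * (P * Xf T) := by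
    have h1 := PP1_eta hTt (V := T) (by linarith) le_rfl hZo hη0
    have h4 : T ^ (1 / 2 : ℝ) + c0 * (T * Real.log T) ≤ P * Xf T := by
      have h5 : T * Real.log T ≤ 7 * Xf T := by
        unfold Xf
        have hpi2 := Real.pi_lt_d2
        have h4 : 0 ≤ T * Real.log T := mul_nonneg (by linarith) (by linarith)
        rw [← mul_div_assoc, le_div_iff₀ (by positivity)]
        nlinarith
      have h6 := mul_le_mul_of_nonneg_left h5 hc0
      rw [hPd]
      linarith
    exact h1.trans (add_le_add le_rfl (mul_le_mul_of_nonneg_left h4 hη0.le))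
  have hPt := hP T hTT1 (Zt T) (Finset.Subset.refl _)
  rw [← hPd] at hPt
  have hoX : ∑ s ∈ Zd T, mz s ≤ η * ε / (1600 * C * lam * 2) * Xf T := by
    rw [Real.dist_eq, sub_zero, abs_div, abs_of_pos hX, div_lt_iff₀ hX] at e1
    exact (le_abs_self _).trans e1.le
  have n1 := QS_abs_bound (x := fun s : ℂ => s.im) (Zd T) (Zt T) (m := W T) (W_nonneg T)
    (f := fun y => C / (1 + y ^ 2)) (K := C) (fun y => by rw [abs_of_nonneg (by positivity)])
    (Λ := Real.log T) (lam := lam) (by linarith) hlam0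
  have n0 : BP T R ≤ ∑ s ∈ Zd T, ∑ s' ∈ Zt T, W T s * W T s' *
      |(fun y : ℝ => C / (1 + y ^ 2)) ((s.im - s'.im) * Real.log T / (2 * π))| := by
    unfold BP
    refine Finset.sum_le_sum fun s _ => Finset.sum_le_sum fun s' _ => ?_
    show _ ≤ W T s * W T s' * |C / (1 + (dd T s s') ^ 2)|
    have h5 : 0 ≤ C / (1 + (dd T s s') ^ 2) := by positivity
    rw [abs_of_nonneg h5]
    have hW : mz s * mz s' ≤ W T s * W T s' := by
      refine mul_le_mul ?_ ?_ (mz_nonneg _) (W_nonneg _ _)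
      · exact mz_le_wt d0_pos.le (by linarith) s
      · exact mz_le_wt d0_pos.le (by linarith) s'
    refine mul_le_mul hW ?_ (by split_ifs <;> norm_num)
      (mul_nonneg (W_nonneg _ _) (W_nonneg _ _))
    by_cases h6 : |dd T s s'| ≤ R
    · rw [if_pos h6, le_div_iff₀ (by positivity), one_mul, hC]
      have : (dd T s s') ^ 2 ≤ R ^ 2 := by
        rw [← sq_abs]
        exact pow_le_pow_left₀ (abs_nonneg _) h6 2
      linarith
    · rw [if_neg h6]
      exact h5
  have n2 : 1600 * C * (lam * PP1 (Zd T) (W T) (fun s => s.im) (Real.log T) +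
      1 / lam * PP1 (Zt T) (W T) (fun s => s.im) (Real.log T)) ≤ 3 * ε / 8 * Xf T := by
    have q1 : lam * PP1 (Zd T) (W T) (fun s => s.im) (Real.log T) ≤
        lam * (1 / (4 * η) * (η * ε / (1600 * C * lam * 2) * Xf T) + η * (P * Xf T)) := by
      refine mul_le_mul_of_nonneg_left (hPo.trans ?_) hlam0.le
      gcongr
    have q2 : 1 / lam * PP1 (Zt T) (W T) (fun s => s.im) (Real.log T) ≤ 1 / lam * (P * Xf T) :=
      mul_le_mul_of_nonneg_left hPt (by positivity)
    calc 1600 * C * (lam * PP1 (Zd T) (W T) (fun s => s.im) (Real.log T) +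
          1 / lam * PP1 (Zt T) (W T) (fun s => s.im) (Real.log T)) ≤
        1600 * C * (lam * (1 / (4 * η) * (η * ε / (1600 * C * lam * 2) * Xf T) +
          η * (P * Xf T)) + 1 / lam * (P * Xf T)) :=
          mul_le_mul_of_nonneg_left (add_le_add q1 q2) (by positivity)
      _ = ε / 8 * Xf T + 1600 * C * lam * η * P * Xf T + 1600 * C * P / lam * Xf T := by
          field_simp
          ring
      _ = ε / 8 * Xf T + ε / 16 * Xf T + ε / 8 * Xf T := by
          have r1 : 1600 * C * lam * η * P = ε / 16 := by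
            rw [hη]
            field_simp
          have r2 : 1600 * C * P / lam = ε / 8 := by
            rw [hlam]
            field_simp
          rw [r1, r2]
      _ ≤ _ := by nlinarith
  rw [Real.dist_eq, sub_zero, abs_div, abs_of_pos hX, div_lt_iff₀ hX,
    abs_of_nonneg (BP_nonneg T R)]
  have h6 : 0 < ε * Xf T := by positivity
  have h7 := (n0.trans n1).trans n2
  linarith

/-- the pairs of good zeros -/
noncomputable def PG (T : ℝ) (S : Set ℝ) : ℝ :=
  ∑ s ∈ Zg T, ∑ s' ∈ Zg T, mz s * mz s' * S.indicator (fun _ => (1 : ℝ)) (dd T s s')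

lemma PG_le (T : ℝ) (S : Set ℝ) : PG T S ≤ PC T S := by
  unfold PG PC
  have hsub : Zg T ⊆ Zt T := Finset.filter_subset _ _
  have hn : ∀ s s' : ℂ, 0 ≤ mz s * mz s' * S.indicator (fun _ => (1 : ℝ)) (dd T s s') :=
    fun s s' => mul_nonneg (mul_nonneg (mz_nonneg _) (mz_nonneg _)) (ind_nonneg _ _)
  refine (Finset.sum_le_sum fun s _ => Finset.sum_le_sum_of_subset_of_nonneg hsub
    fun s' _ _ => hn s s').trans ?_
  exact Finset.sum_le_sum_of_subset_of_nonneg hsub fun s _ _ =>
    Finset.sum_nonneg fun s' _ => hn s s'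

lemma PC_le_PG (T : ℝ) {S : Set ℝ} {R : ℝ} (hS : ∀ x ∈ S, |x| ≤ R) :
    PC T S ≤ PG T S + 2 * BP T R := by
  set f : ℂ → ℂ → ℝ := fun s s' => mz s * mz s' * S.indicator (fun _ => (1 : ℝ)) (dd T s s')
    with hf
  set f' : ℂ → ℂ → ℝ := fun s s' => mz s * mz s' * (if |dd T s s'| ≤ R then 1 else 0) with hf'
  have hff : ∀ s s', f s s' ≤ f' s s' := by
    intro s s'
    simp only [hf, hf']
    refine mul_le_mul_of_nonneg_left ?_ (mul_nonneg (mz_nonneg _) (mz_nonneg _))
    by_cases hx : dd T s s' ∈ S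
    · rw [Set.indicator_of_mem hx, if_pos (hS _ hx)]
    · rw [Set.indicator_of_notMem hx]
      split_ifs <;> norm_num
  have hf'n : ∀ s s', 0 ≤ f' s s' := by
    intro s s'
    simp only [hf']
    refine mul_nonneg (mul_nonneg (mz_nonneg _) (mz_nonneg _)) ?_
    split_ifs <;> norm_num
  have hf's : ∀ s s', f' s s' = f' s' s := by
    intro s s'
    simp only [hf']
    rw [dd_swap T s' s, abs_neg, mul_comm (mz s)]
  have e1 : PC T S = PG T S + (∑ s ∈ Zg T, ∑ s' ∈ Zd T, f s s') +
      ∑ s ∈ Zd T, ∑ s' ∈ Zt T, f s s' := by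
    unfold PC PG
    rw [sum_gd T]
    congr 1
    rw [← Finset.sum_add_distrib]
    refine Finset.sum_congr rfl fun s _ => ?_
    rw [sum_gd T]
  have h1 : ∑ s ∈ Zd T, ∑ s' ∈ Zt T, f s s' ≤ BP T R :=
    Finset.sum_le_sum fun s _ => Finset.sum_le_sum fun s' _ => hff s s'
  have h2 : ∑ s ∈ Zg T, ∑ s' ∈ Zd T, f s s' ≤ BP T R := by
    have h3 : ∑ s ∈ Zg T, ∑ s' ∈ Zd T, f s s' ≤ ∑ s ∈ Zt T, ∑ s' ∈ Zd T, f' s s' := by
      refine (Finset.sum_le_sum fun s _ => Finset.sum_le_sum fun s' _ => hff s s').trans ?_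
      exact Finset.sum_le_sum_of_subset_of_nonneg (Finset.filter_subset _ _) fun s _ _ =>
        Finset.sum_nonneg fun s' _ => hf'n s s'
    refine h3.trans (le_of_eq ?_)
    rw [Finset.sum_comm]
    exact Finset.sum_congr rfl fun s _ => Finset.sum_congr rfl fun s' _ => hf's s' s
  rw [e1]
  linarith

/-- the diagonal of the good zeros -/
lemma PG_diag {T : ℝ} (hT : 1 < T) : PG T {x | |x| ≤ 0} = ∑ s ∈ Zg T, mz s := by
  unfold PG
  refine Finset.sum_congr rfl fun s hs => ?_
  have hs' := (Finset.mem_filter.1 hs).2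
  rw [Finset.sum_eq_single s]
  · have h4 : dd T s s = 0 := by unfold dd; simp
    rw [h4, Set.indicator_of_mem (by simp : (0 : ℝ) ∈ {x : ℝ | |x| ≤ 0}), hs'.2]
    norm_num
  · intro z hz hne
    have hz' := (Finset.mem_filter.1 hz).2
    have h5 : dd T s z ∉ {x : ℝ | |x| ≤ 0} := by
      intro hc
      have h6 : dd T s z = 0 := abs_nonpos_iff.1 hc
      unfold dd at h6
      have hL := Real.log_pos hT
      have hpi := Real.pi_pos
      rw [div_eq_zero_iff] at h6
      rcases h6 with h6 | h6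
      · rw [mul_eq_zero] at h6
        rcases h6 with h6 | h6
        · exact hne (Complex.ext (by rw [hz'.1, hs'.1]) (by linarith))
        · linarith
      · linarith
    rw [Set.indicator_of_notMem h5, mul_zero]
  · intro hc
    exact absurd hs hc

/-- if almost all zeros are simple and on the critical line there are no multiplicities -/
lemma diag_of_bad {F : Filter ℝ} (hF : F ≤ atTop)
    (h : Tendsto (fun T => (∑ s ∈ Zd T, mz s) / Xf T) F (𝓝 0)) :
    Tendsto (fun T => Aa T 0) F (𝓝 1) := by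
  have hB := BP_lim hF h 0
  have hN := NT_lim.mono_left hF
  have h1 : Tendsto (fun T => (∑ s ∈ Zt T, mz s) / Xf T + 2 * (BP T 0 / Xf T)) F
      (𝓝 (1 + 2 * 0)) := hN.add (hB.const_mul 2)
  rw [mul_zero, add_zero] at h1
  have h2 : Tendsto (fun T => (∑ s ∈ Zt T, mz s) / Xf T - (∑ s ∈ Zt 1, mz s) / Xf T) F
      (𝓝 (1 - 0)) := hN.sub ((const_lim _).mono_left hF)
  rw [sub_zero] at h2
  refine tendsto_of_tendsto_of_tendsto_of_le_of_le' h2 h1 ?_ ?_
  · filter_upwards [hF (eventually_ge_atTop 16)] with T hT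
    have hX := Xf_pos (V := T) (by linarith)
    have b2 := diag_bad T
    have h0 : 0 ≤ ∑ s ∈ Zd T, mz s := Finset.sum_nonneg fun s _ => mz_nonneg s
    unfold Aa
    rw [← sub_div, div_eq_inv_mul]
    exact mul_le_mul_of_nonneg_left (by linarith) (inv_nonneg.2 hX.le)
  · filter_upwards [hF (eventually_ge_atTop 16)] with T hT
    have hX := Xf_pos (V := T) (by linarith)
    have b2 := PC_le_PG T (S := {x | |x| ≤ 0}) (R := 0) (fun x hx => hx)
    rw [PG_diag (by linarith)] at b2
    have b3 := sum_gd T mz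
    have h0 : 0 ≤ ∑ s ∈ Zd T, mz s := Finset.sum_nonneg fun s _ => mz_nonneg s
    unfold Aa
    rw [← mul_div_assoc, ← add_div, div_eq_inv_mul]
    exact mul_le_mul_of_nonneg_left (by linarith) (inv_nonneg.2 hX.le)

end Pool.Agent.H8.PCU
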