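import Pool.Agent.H8.PCU.F1

/-! # The counting functions of the pair correlation problem -/

set_option autoImplicit false

open MeasureTheory Filter Topology Real

namespace Pool.Agent.H8.PCU

open H370 TH803TW Pool.Agent.Y744

/-- the ordinates of the zeros in the upper half plane are bounded below -/
lemma low_zero : ∃ c : ℝ, 0 < c ∧ ∀ s : ℂ, 0 < s.re → s.re < 1 → riemannZeta s = 0 → 0 < s.im →
    c ≤ s.im := by
  classical
  by_cases hne : (Zt 1).Nonempty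
  · obtain ⟨s0, hs0, hmin⟩ := Finset.exists_min_image (Zt 1) (fun s => s.im) hne
    have h0 := hs0
    rw [mem_Zt] at h0
    refine ⟨s0.im, h0.2.2.1, fun s h1 h2 h3 h4 => ?_⟩
    rcases le_or_gt s.im 1 with h5 | h5
    · exact hmin s (mem_Zt.2 ⟨h1, h2, h4, h5, h3⟩)
    · exact h0.2.2.2.1.trans h5.le
  · refine ⟨1, one_pos, fun s h1 h2 h3 h4 => ?_⟩
    by_contra hc
    push Not at hc
    exact hne ⟨s, mem_Zt.2 ⟨h1, h2, h4, hc.le, h3⟩⟩

/-- the set of pairs of zeros that are counted, with a property of the two zeros -/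
def Pset (Q : ℂ → Prop) (T a : ℝ) : Set (ℂ × ℂ) :=
  {p : ℂ × ℂ | (0 < p.1.re ∧ p.1.re < 1 ∧ riemannZeta p.1 = 0) ∧
    (0 < p.2.re ∧ p.2.re < 1 ∧ riemannZeta p.2 = 0) ∧ Q p.1 ∧ Q p.2 ∧
    0 < p.1.im ∧ p.1.im ≤ T ∧ 0 < p.1.im - p.2.im ∧
    p.1.im - p.2.im ≤ 2 * π * a / Real.log T}

/-- for large `T` both zeros of a counted pair are in the upper half plane -/
lemma Pset_mem (Q : ℂ → Prop) {a : ℝ} (_ : 0 ≤ a) : ∃ T0 : ℝ, 3 ≤ T0 ∧ ∀ T : ℝ, T0 ≤ T →
    ∀ b : ℝ, b ≤ a → ∀ p : ℂ × ℂ, p ∈ Pset Q T b ↔ p.1 ∈ Zt T ∧ p.2 ∈ Zt T ∧ Q p.1 ∧ Q p.2 ∧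
      dd T p.1 p.2 ∈ Set.Ioc 0 b := by
  obtain ⟨c, hc, hz⟩ := low_zero
  have hpi := Real.pi_pos
  have ev : ∀ᶠ T : ℝ in atTop, 2 * π * a / c + 1 ≤ Real.log T :=
    Real.tendsto_log_atTop.eventually_ge_atTop _
  obtain ⟨T1, hT1⟩ := ev.exists_forall_of_atTop
  refine ⟨max 3 T1, le_max_left _ _, fun T hT b hb p => ?_⟩
  have hT3 : 3 ≤ T := (le_max_left _ _).trans hT
  have hL := hT1 T ((le_max_right _ _).trans hT)
  have hL0 : 0 < Real.log T := Real.log_pos (by linarith)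
  have hsmall : 2 * π * b / Real.log T < c := by
    have h1 : 2 * π * b / Real.log T ≤ 2 * π * a / Real.log T := by gcongr
    refine h1.trans_lt ?_
    rw [div_lt_iff₀ hL0]
    have h2 : 2 * π * a / c < Real.log T := by linarith
    rw [div_lt_iff₀ hc] at h2
    linarith
  have hdd : dd T p.1 p.2 ∈ Set.Ioc 0 b ↔ 0 < p.1.im - p.2.im ∧
      p.1.im - p.2.im ≤ 2 * π * b / Real.log T := by
    unfold dd
    rw [Set.mem_Ioc, le_div_iff₀ hL0, div_le_iff₀ (by positivity)]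
    constructor
    · rintro ⟨h1, h2⟩
      refine ⟨?_, by linarith⟩
      by_contra hc
      push Not at hc
      have h3 : (p.1.im - p.2.im) * Real.log T / (2 * π) ≤ 0 :=
        div_nonpos_of_nonpos_of_nonneg (mul_nonpos_of_nonpos_of_nonneg hc hL0.le) (by positivity)
      linarith
    · rintro ⟨h1, h2⟩
      exact ⟨by positivity, by linarith⟩
  rw [hdd]
  constructor
  · rintro ⟨⟨a1, a2, a3⟩, ⟨b1, b2, b3⟩, q1, q2, c1, c2, c3, c4⟩
    have h5 : c ≤ p.1.im := hz p.1 a1 a2 a3 c1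
    have h6 : 0 < p.2.im := by linarith
    exact ⟨mem_Zt.2 ⟨a1, a2, c1, c2, a3⟩, mem_Zt.2 ⟨b1, b2, h6, by linarith, b3⟩, q1, q2, c3, c4⟩
  · rintro ⟨h1, h2, q1, q2, c3, c4⟩
    rw [mem_Zt] at h1 h2
    exact ⟨⟨h1.1, h1.2.1, h1.2.2.2.2⟩, ⟨h2.1, h2.2.1, h2.2.2.2.2⟩, q1, q2, h1.2.2.1,
      h1.2.2.2.1, c3, c4⟩

/-- the weighted count of the pairs -/
lemma Pset_sum (Q : ℂ → Prop) {a : ℝ} (ha : 0 ≤ a) : ∃ T0 : ℝ, 3 ≤ T0 ∧ ∀ T : ℝ, T0 ≤ T →
    ∀ b : ℝ, b ≤ a → ∀ S : Finset ℂ, (∀ s, s ∈ S ↔ s ∈ Zt T ∧ Q s) →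
    ((∑ᶠ p ∈ Pset Q T b, analyticOrderNatAt riemannZeta p.1 * analyticOrderNatAt riemannZeta p.2 :
      ℕ) : ℝ) = ∑ s ∈ S, ∑ s' ∈ S, mz s * mz s' *
        (Set.Ioc 0 b).indicator (fun _ => (1 : ℝ)) (dd T s s') := by
  classical
  obtain ⟨T0, hT0, h⟩ := Pset_mem Q ha
  refine ⟨T0, hT0, fun T hT b hb S hS => ?_⟩
  have hm := h T hT b hb
  have e : Pset Q T b = (((S ×ˢ S).filter (fun p => dd T p.1 p.2 ∈ Set.Ioc 0 b) :
      Finset (ℂ × ℂ)) : Set (ℂ × ℂ)) := by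
    ext p
    rw [hm, Finset.mem_coe, Finset.mem_filter, Finset.mem_product, hS, hS]
    tauto
  rw [e, finsum_mem_coe_finset]
  push_cast
  rw [Finset.sum_filter, Finset.sum_product]
  refine Finset.sum_congr rfl fun s _ => Finset.sum_congr rfl fun s' _ => ?_
  by_cases hx : dd T s s' ∈ Set.Ioc 0 b
  · rw [if_pos hx, Set.indicator_of_mem hx, mul_one]
    rfl
  · rw [if_neg hx, Set.indicator_of_notMem hx, mul_zero]

/-- the number of the pairs of the problem -/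
lemma Nst_eq {a : ℝ} (ha : 0 ≤ a) : ∃ T0 : ℝ, 3 ≤ T0 ∧ ∀ T : ℝ, T0 ≤ T → ∀ b : ℝ, b ≤ a →
    ((∑ᶠ p ∈ Pset (fun _ => True) T b, analyticOrderNatAt riemannZeta p.1 *
      analyticOrderNatAt riemannZeta p.2 : ℕ) : ℝ) = PC T (Set.Ioc 0 b) := by
  obtain ⟨T0, hT0, h⟩ := Pset_sum (fun _ => True) ha
  refine ⟨T0, hT0, fun T hT b hb => ?_⟩
  rw [h T hT b hb (Zt T) (fun s => by simp)]
  rfl

lemma Zg_mem {T : ℝ} {s : ℂ} : s ∈ Zg T ↔ s ∈ Zt T ∧
    (s.re = 1 / 2 ∧ analyticOrderNatAt riemannZeta s = 1) := by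
  unfold Zg
  rw [Finset.mem_filter]
  have : mz s = 1 ↔ analyticOrderNatAt riemannZeta s = 1 := by
    unfold mz H370.mult
    exact Nat.cast_eq_one
  rw [this]

/-- the number of the pairs of simple zeros on the critical line -/
lemma Nsc_eq {a : ℝ} (ha : 0 ≤ a) : ∃ T0 : ℝ, 3 ≤ T0 ∧ ∀ T : ℝ, T0 ≤ T → ∀ b : ℝ, b ≤ a →
    ((Pset (fun s => s.re = 1 / 2 ∧ analyticOrderNatAt riemannZeta s = 1) T b).ncard : ℝ) =
      PG T (Set.Ioc 0 b) := by
  classical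
  obtain ⟨T0, hT0, h⟩ := Pset_mem
    (fun s => s.re = 1 / 2 ∧ analyticOrderNatAt riemannZeta s = 1) ha
  refine ⟨T0, hT0, fun T hT b hb => ?_⟩
  have e : Pset (fun s => s.re = 1 / 2 ∧ analyticOrderNatAt riemannZeta s = 1) T b =
      (((Zg T ×ˢ Zg T).filter (fun p => dd T p.1 p.2 ∈ Set.Ioc 0 b) :
      Finset (ℂ × ℂ)) : Set (ℂ × ℂ)) := by
    ext p
    rw [h T hT b hb, Finset.mem_coe, Finset.mem_filter, Finset.mem_product, Zg_mem, Zg_mem]
    tauto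
  rw [e, Set.ncard_coe_finset, Finset.card_filter]
  push_cast
  rw [Finset.sum_product]
  unfold PG
  refine Finset.sum_congr rfl fun s hs => Finset.sum_congr rfl fun s' hs' => ?_
  have h1 := (Finset.mem_filter.1 hs).2.2
  have h2 := (Finset.mem_filter.1 hs').2.2
  rw [h1, h2]
  by_cases hx : dd T s s' ∈ Set.Ioc 0 b
  · rw [if_pos hx, Set.indicator_of_mem hx]
    norm_num
  · rw [if_neg hx, Set.indicator_of_notMem hx]
    norm_num

/-- twice the number of pairs -/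
lemma Aa_eq {T : ℝ} (hT : 1 < T) {y : ℝ} (hy : 0 ≤ y) :
    PC T (Set.Ioc 0 y) / Xf T = (Aa T y - Aa T 0) / 2 := by
  have hX := Xf_pos hT
  have h1 : PC T {x | |x| ≤ y} = PC T {x | |x| ≤ 0} + 2 * PC T (Set.Ioc 0 y) := by
    have e : {x : ℝ | |x| ≤ y} = {x | |x| ≤ 0} ∪ (Set.Ioc 0 y ∪ -Set.Ioc 0 y) := by
      ext x
      simp only [Set.mem_ofPred_eq, Set.mem_union, Set.mem_neg, Set.mem_Ioc, abs_nonpos_iff]
      constructor
      · intro hx
        rcases lt_trichotomy x 0 with h | h | h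
        · right; right
          rw [abs_of_neg h] at hx
          exact ⟨by linarith, hx⟩
        · exact Or.inl h
        · right; left
          rw [abs_of_pos h] at hx
          exact ⟨h, hx⟩
      · rintro (rfl | h | h)
        · rw [abs_zero]; exact hy
        · rw [abs_of_pos h.1]; exact h.2
        · rw [abs_of_neg (by linarith [h.1])]; exact h.2
    rw [e, PC_union T (by
      rw [Set.disjoint_left]
      rintro x (h3 : |x| ≤ 0) h4
      rw [abs_nonpos_iff] at h3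
      rw [h3] at h4
      rcases h4 with h4 | h4
      · exact lt_irrefl _ h4.1
      · rw [Set.mem_neg, neg_zero] at h4
        exact lt_irrefl _ h4.1), PC_union T (by
      rw [Set.disjoint_left]
      rintro x h3 h4
      rw [Set.mem_neg] at h4
      linarith [h3.1, h4.1]), PC_neg]
    ring
  unfold Aa
  rw [h1]
  field_simp
  ring

/-- the constants of the conjecture -/
lemma gp_eq (a : ℝ) : gp a = ∫ u in (0 : ℝ)..a, (1 - (Real.sin (π * u) / (π * u)) ^ 2) := by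
  unfold gp
  refine intervalIntegral.integral_congr_ae ?_
  have h0 : ∀ᵐ x : ℝ, x ≠ 0 := by
    rw [ae_iff]
    simp
  filter_upwards [h0] with x hx _
  unfold gd
  have hpi := Real.pi_pos
  rw [Real.sinc_of_ne_zero (by positivity)]

end Pool.Agent.H8.PCU
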