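import Pool.Agent.H8.PCU.F2

/-! # The criteria along a filter -/

set_option autoImplicit false

open MeasureTheory Filter Topology Real

namespace Pool.Agent.H8.PCU

open H370 TH803TW Pool.Agent.Y744

/-- the lower bound for the far pairs implies the conjecture -/
theorem crit_lower {F : Filter ℝ} (hF : F ≤ atTop) {a r : ℕ → ℝ} {C δ : ℝ} (hls : LS a r)
    (hC : 0 ≤ C) (hδ : 0 < δ)
    (hyp : ∀ k, ∀ x ∈ Set.Icc (a k) (a k + r k), ∀ ε, 0 < ε → ∀ᶠ T in F,
      gp x - C * Real.exp (-(δ * r k)) - ε ≤ (Aa T x - Aa T 0) / 2) (x : ℝ) :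
    Tendsto (fun T => Aa T x) F (𝓝 (AG x)) := by
  rw [tendsto_iff_ultrafilter]
  intro g hg
  have hgt : (g : Filter ℝ) ≤ atTop := hg.trans hF
  obtain ⟨C1, hC1, T1, hT1, -, hex⟩ := exists_Lm
  obtain ⟨A', h⟩ := hex g hgt
  have ha : ∀ k, 0 < a k := fun k => (hls.pos k).trans_le (hls.le k)
  have key := rigid_lower hgt h hC1.le (C := 2 * C) (by positivity) hδ hls (fun k x hx => by
    have hx0 : 0 ≤ x := (ha k).le.trans hx.1
    have h2 : Tendsto (fun T => (Aa T x - Aa T 0) / 2) (g : Filter ℝ)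
        (𝓝 ((A' x - A' 0) / 2)) := ((h.lim x).sub (h.lim 0)).div_const 2
    have h3 : gp x - C * Real.exp (-(δ * r k)) ≤ (A' x - A' 0) / 2 := by
      refine le_of_forall_pos_le_add fun ε hε => ?_
      have h4 := ge_of_tendsto h2 (hg (hyp k x hx ε hε))
      linarith
    unfold Ed
    rw [AG_pos hx0, AG_pos le_rfl, gp_zero]
    linarith) x
  rw [← key]
  exact h.lim x

/-- a one sided bound for the far pairs and the absence of multiplicities imply the conjecture -/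
theorem crit_one {F : Filter ℝ} (hF : F ≤ atTop) {s : ℝ} (hs : s = 1 ∨ s = -1)
    {a r : ℕ → ℝ} {C δ : ℝ} (hls : LS a r) (hC : 0 ≤ C) (hδ : 0 < δ)
    (h0 : Tendsto (fun T => Aa T 0) F (𝓝 1))
    (hyp : ∀ k, ∀ x ∈ Set.Icc (a k) (a k + r k), ∀ ε, 0 < ε → ∀ᶠ T in F,
      -(C * Real.exp (-(δ * r k))) - ε ≤ s * ((Aa T x - Aa T 0) / 2 - gp x)) (x : ℝ) :
    Tendsto (fun T => Aa T x) F (𝓝 (AG x)) := by
  rw [tendsto_iff_ultrafilter]
  intro g hg
  have hgt : (g : Filter ℝ) ≤ atTop := hg.trans hF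
  obtain ⟨C1, hC1, T1, hT1, -, hex⟩ := exists_Lm
  obtain ⟨A', h⟩ := hex g hgt
  have ha : ∀ k, 0 < a k := fun k => (hls.pos k).trans_le (hls.le k)
  have e0 : A' 0 = 1 := tendsto_nhds_unique (h.lim 0) (h0.mono_left hg)
  have key := rigid_one hgt h hC1.le e0.le hs (C := 2 * C) (by positivity) hδ hls
    (fun k x hx => by
    have hx0 : 0 ≤ x := (ha k).le.trans hx.1
    have h2 : Tendsto (fun T => s * ((Aa T x - Aa T 0) / 2 - gp x)) (g : Filter ℝ)
        (𝓝 (s * ((A' x - A' 0) / 2 - gp x))) :=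
      ((((h.lim x).sub (h.lim 0)).div_const 2).sub_const _).const_mul s
    have h3 : -(C * Real.exp (-(δ * r k))) ≤ s * ((A' x - A' 0) / 2 - gp x) := by
      refine le_of_forall_pos_le_add fun ε hε => ?_
      have h4 := ge_of_tendsto h2 (hg (hyp k x hx ε hε))
      linarith
    unfold Ed
    rw [AG_pos hx0]
    rw [e0] at h3
    have e : s * (A' x - (1 + 2 * gp x)) = 2 * (s * ((A' x - 1) / 2 - gp x)) := by ring
    rw [e]
    linarith) x
  rw [← key]
  exact h.lim x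

/-- the converse -/
lemma conj_N {F : Filter ℝ} (hF : F ≤ atTop) (h : ∀ x, Tendsto (fun T => Aa T x) F (𝓝 (AG x)))
    {a : ℝ} (ha : 0 ≤ a) : Tendsto (fun T => PC T (Set.Ioc 0 a) / Xf T) F (𝓝 (gp a)) := by
  have h1 : Tendsto (fun T => (Aa T a - Aa T 0) / 2) F (𝓝 ((AG a - AG 0) / 2)) :=
    ((h a).sub (h 0)).div_const 2
  rw [AG_pos ha, AG_pos le_rfl, gp_zero] at h1
  have e : (1 + 2 * gp a - (1 + 2 * 0)) / 2 = gp a := by ring
  rw [e] at h1
  refine h1.congr' ?_
  filter_upwards [hF (eventually_gt_atTop 1)] with T hT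
  rw [Aa_eq hT ha]

lemma bad_of_lim {F : Filter ℝ} (hF : F ≤ atTop) (h : Tendsto (fun T => Aa T 0) F (𝓝 1)) :
    Tendsto (fun T => (∑ s ∈ Zd T, mz s) / Xf T) F (𝓝 0) :=
  bad_of_diag hF fun ε hε => by
    have h1 : ∀ᶠ T in F, Aa T 0 < 1 + ε := (tendsto_order.1 h).2 _ (by linarith)
    exact h1.mono fun T hT => hT.le

/-- the pairs of good zeros -/
lemma conj_G {F : Filter ℝ} (hF : F ≤ atTop)
    (hb : Tendsto (fun T => (∑ s ∈ Zd T, mz s) / Xf T) F (𝓝 0)) {a L : ℝ} (ha : 0 ≤ a)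
    (h : Tendsto (fun T => PC T (Set.Ioc 0 a) / Xf T) F (𝓝 L)) :
    Tendsto (fun T => PG T (Set.Ioc 0 a) / Xf T) F (𝓝 L) := by
  have h1 := BP_lim hF hb a
  have h2 : Tendsto (fun T => PC T (Set.Ioc 0 a) / Xf T - 2 * (BP T a / Xf T)) F
      (𝓝 (L - 2 * 0)) := h.sub (h1.const_mul 2)
  rw [mul_zero, sub_zero] at h2
  refine tendsto_of_tendsto_of_tendsto_of_le_of_le' h2 h ?_ ?_
  · filter_upwards [hF (eventually_gt_atTop 1)] with T hT
    have hX := Xf_pos hT
    have h3 := PC_le_PG T (S := Set.Ioc 0 a) (R := a) (fun x hx => by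
      rw [abs_of_pos hx.1]; exact hx.2)
    rw [← mul_div_assoc, ← sub_div]
    exact div_le_div_of_nonneg_right (by linarith) hX.le
  · filter_upwards [hF (eventually_gt_atTop 1)] with T hT
    exact div_le_div_of_nonneg_right (PG_le T _) (Xf_pos hT).le

/-- the dyadic system is long -/
lemma LS_dyadic : LS (fun k => (2 : ℝ) ^ k) (fun k => (2 : ℝ) ^ k) where
  pos := fun k => by positivity
  le := fun k => le_rfl
  sep := fun k => by
    rw [pow_succ]
    linarith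
  long := by
    have e : (fun k : ℕ => ((2 : ℝ) ^ k / 2 ^ k) ^ 2) = fun _ => (1 : ℝ) := by
      funext k
      rw [div_self (by positivity), one_pow]
    rw [e]
    intro hs
    have := hs.tendsto_atTop_zero
    have h2 := tendsto_nhds_unique this tendsto_const_nhds
    norm_num at h2

end Pool.Agent.H8.PCU
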