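import Pool.Agent.H8.PCU.S1

/-! # Bounds for the complex kernels of smooth test functions -/

set_option autoImplicit false

open MeasureTheory Filter Topology Real

namespace Pool.Agent.H8.PCU

open Pool.Agent.Y744

variable {κ : ℝ} {K : ℝ → ℝ}

/-- the derivative of the transform decays -/
lemma dCT_decay2 (hκ : 0 < κ) (h : TK κ K) : ∃ C, 0 ≤ C ∧ ∀ w : ℂ, ‖deriv (CT K) w‖ ≤
    C * Real.exp (2 * π * κ * |w.im|) / (1 + w.re ^ 2) ^ 2 := by
  obtain ⟨C, hC, hb⟩ := CT_decay' h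
  have hpi := Real.pi_pos
  refine ⟨C * Real.exp (2 * π * κ) * 9, by positivity, fun w => ?_⟩
  have h1 := Complex.norm_deriv_le_of_forall_mem_sphere_norm_le (c := w) (R := 1)
    (C := C * Real.exp (2 * π * κ) * 9 * Real.exp (2 * π * κ * |w.im|) / (1 + w.re ^ 2) ^ 2)
    (f := CT K) one_pos (CT_diff (TK_CK h)).diffContOnCl (fun z hz => by
      refine (hb z).trans ?_
      rw [Metric.mem_sphere, Complex.dist_eq] at hz
      have a1 : |z.re - w.re| ≤ 1 := by
        have := Complex.abs_re_le_norm (z - w)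
        rwa [hz, Complex.sub_re] at this
      have a2 : |z.im - w.im| ≤ 1 := by
        have := Complex.abs_im_le_norm (z - w)
        rwa [hz, Complex.sub_im] at this
      have a3 : |z.im| ≤ |w.im| + 1 := by
        have := abs_sub_abs_le_abs_sub z.im w.im
        linarith
      have a4 : (1 + w.re ^ 2) ^ 2 ≤ 9 * (1 + z.re ^ 2) ^ 2 := by
        have a5 := abs_le.1 a1
        have a6 : (z.re - w.re) ^ 2 ≤ 1 := by nlinarith [a5.1, a5.2]
        have a7 : w.re ^ 2 ≤ 2 * z.re ^ 2 + 2 := by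
          nlinarith [sq_nonneg (2 * z.re - w.re), sq_nonneg (z.re + (z.re - w.re))]
        have a8 : 1 + w.re ^ 2 ≤ 3 * (1 + z.re ^ 2) := by nlinarith [sq_nonneg z.re]
        have a9 := pow_le_pow_left₀ (by positivity) a8 2
        rw [mul_pow] at a9
        linarith
      have a5 : Real.exp (2 * π * κ * |z.im|) ≤
          Real.exp (2 * π * κ) * Real.exp (2 * π * κ * |w.im|) := by
        rw [← Real.exp_add]
        refine Real.exp_le_exp.2 ?_
        have := mul_le_mul_of_nonneg_left a3 (show 0 ≤ 2 * π * κ by positivity)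
        linarith
      rw [div_le_div_iff₀ (by positivity) (by positivity)]
      calc C * Real.exp (2 * π * κ * |z.im|) * (1 + w.re ^ 2) ^ 2 ≤
          C * (Real.exp (2 * π * κ) * Real.exp (2 * π * κ * |w.im|)) *
            (9 * (1 + z.re ^ 2) ^ 2) := by gcongr
        _ = _ := by ring)
  rw [div_one] at h1
  exact h1

/-- change of scale and removal of the Gaussian factor -/
lemma ct_err (hκ : 0 < κ) (h : TK κ K) {c : ℝ} (hc : 2 * π * κ < c) :
    ∃ C, 0 ≤ C ∧ ∀ (s L : ℝ) (w : ℂ), 1 ≤ s → s ≤ 2 → 0 < L → |w.im| * (2 * π) ≤ L →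
      ‖CT K (w / s) * Complex.exp (-(2 * π * w / L) ^ 2 / 4) - CT K w‖ ≤
        C * (s - 1 + 1 / L ^ 2) * Real.exp (c * |w.im|) / (1 + w.re ^ 2) := by
  obtain ⟨C1, hC1, hb1⟩ := dCT_decay2 hκ h
  obtain ⟨C2, hC2, hb2⟩ := CT_decay' h
  obtain ⟨C3, hC3, hb3⟩ := pow3_le (c := c - 2 * π * κ) (by linarith)
  have hpi := Real.pi_pos
  have hpi2 := Real.pi_lt_d2
  refine ⟨(16 * C1 + 320 * C2) * C3, by positivity, fun s L w hs1 hs2 hL hw => ?_⟩
  have hs0 : 0 < s := by linarith
  have hy := abs_nonneg w.im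
  set E := Real.exp (2 * π * κ * |w.im|) with hE
  have hE0 : 0 < E := Real.exp_pos _
  have hx : 0 < 1 + w.re ^ 2 := by positivity
  -- real dilations
  have hre : ∀ t : ℝ, ((t : ℂ) * w).re = t * w.re := fun t => by simp
  have him : ∀ t : ℝ, ((t : ℂ) * w).im = t * w.im := fun t => by simp
  have hden : ∀ t : ℝ, 1 / 2 ≤ t → 1 / (1 + (t * w.re) ^ 2) ^ 2 ≤ 16 / (1 + w.re ^ 2) ^ 2 := by
    intro t ht
    rw [div_le_div_iff₀ (by positivity) (by positivity), one_mul]
    have h1 : 1 + w.re ^ 2 ≤ 4 * (1 + (t * w.re) ^ 2) := by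
      have h2 : 1 ≤ 4 * t ^ 2 := by nlinarith
      have h3 := mul_le_mul_of_nonneg_right h2 (sq_nonneg w.re)
      rw [mul_pow]
      linarith
    have h2 := pow_le_pow_left₀ hx.le h1 2
    linarith
  have hexp : ∀ t : ℝ, 0 ≤ t → t ≤ 1 → Real.exp (2 * π * κ * |t * w.im|) ≤ E := by
    intro t ht ht1
    rw [hE]
    refine Real.exp_le_exp.2 (mul_le_mul_of_nonneg_left ?_ (by positivity))
    rw [abs_mul, abs_of_nonneg ht]
    nlinarith
  -- first part
  have p1 : ‖CT K (w / s) - CT K w‖ ≤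
      16 * C1 * (s - 1) * ((1 + |w.im|) * E) / (1 + w.re ^ 2) := by
    have hconv : Convex ℝ (segment ℝ (w / s) w) := convex_segment _ _
    have hseg : ∀ v ∈ segment ℝ (w / s) w, ∃ t : ℝ, 1 / 2 ≤ t ∧ t ≤ 1 ∧ v = (t : ℂ) * w := by
      rintro v ⟨p, q, hp, hq, hpq, rfl⟩
      have hsi : 1 / 2 ≤ s⁻¹ := by
        rw [one_div, inv_le_inv₀ (by norm_num) hs0]
        exact hs2
      have hsi2 : s⁻¹ ≤ 1 := inv_le_one_of_one_le₀ hs1
      refine ⟨p * s⁻¹ + q, ?_, ?_, ?_⟩
      · nlinarith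
      · nlinarith
      · rw [Complex.real_smul, Complex.real_smul]
        push_cast
        field_simp
    have h1 := hconv.norm_image_sub_le_of_norm_deriv_le (𝕜 := ℂ) (f := CT K)
      (C := 16 * C1 * E / (1 + w.re ^ 2) ^ 2)
      (x := w) (y := w / s) (fun v _ => CT_diff (TK_CK h) v) (fun v hv => by
        obtain ⟨t, ht1, ht2, rfl⟩ := hseg v hv
        refine (hb1 _).trans ?_
        rw [hre, him]
        have h2 := hexp t (by linarith) ht2
        have h3 := hden t ht1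
        calc C1 * Real.exp (2 * π * κ * |t * w.im|) / (1 + (t * w.re) ^ 2) ^ 2 =
            C1 * Real.exp (2 * π * κ * |t * w.im|) * (1 / (1 + (t * w.re) ^ 2) ^ 2) := by ring
          _ ≤ C1 * E * (16 / (1 + w.re ^ 2) ^ 2) := by gcongr
          _ = _ := by ring) (right_mem_segment _ _ _) (left_mem_segment _ _ _)
    refine h1.trans ?_
    have e1 : ‖w / s - w‖ ≤ (s - 1) * ((1 + w.re ^ 2) * (1 + |w.im|)) := by
      have e2 : w / s - w = ((s⁻¹ - 1 : ℝ) : ℂ) * w := by
        push_cast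
        field_simp
      rw [e2, norm_mul, Complex.norm_real, Real.norm_eq_abs]
      have h4 : |s⁻¹ - 1| ≤ s - 1 := by
        have h5 : s⁻¹ ≤ 1 := inv_le_one_of_one_le₀ hs1
        rw [abs_of_nonpos (by linarith)]
        have h6 : s * s⁻¹ = 1 := mul_inv_cancel₀ hs0.ne'
        nlinarith
      exact mul_le_mul h4 (norm_le w) (norm_nonneg _) (by linarith)
    refine (mul_le_mul_of_nonneg_left e1 (by positivity)).trans (le_of_eq ?_)
    field_simp
  -- second part
  have p2 : ‖CT K (w / s) * (Complex.exp (-(2 * π * w / L) ^ 2 / 4) - 1)‖ ≤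
      320 * C2 * (1 / L ^ 2) * ((1 + |w.im|) ^ 3 * E) / (1 + w.re ^ 2) := by
    rw [norm_mul]
    have e1 : (w / s : ℂ) = ((s⁻¹ : ℝ) : ℂ) * w := by
      push_cast
      field_simp
    have hsi : 1 / 2 ≤ s⁻¹ := by
      rw [one_div, inv_le_inv₀ (by norm_num) hs0]
      exact hs2
    have hsi2 : s⁻¹ ≤ 1 := inv_le_one_of_one_le₀ hs1
    have h1 : ‖CT K (w / s)‖ ≤ 16 * C2 * ((1 + |w.im|) * E) / (1 + w.re ^ 2) ^ 2 := by
      rw [e1]
      refine (hb2 _).trans ?_
      rw [hre, him]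
      have h2 := hexp s⁻¹ (by linarith) hsi2
      have h3 := hden s⁻¹ hsi
      calc C2 * Real.exp (2 * π * κ * |s⁻¹ * w.im|) / (1 + (s⁻¹ * w.re) ^ 2) ^ 2 =
          C2 * Real.exp (2 * π * κ * |s⁻¹ * w.im|) * (1 / (1 + (s⁻¹ * w.re) ^ 2) ^ 2) := by ring
        _ ≤ C2 * E * (16 / (1 + w.re ^ 2) ^ 2) := by gcongr
        _ = 16 * C2 * (1 * E) / (1 + w.re ^ 2) ^ 2 := by ring
        _ ≤ _ := by
          have : (1 : ℝ) ≤ 1 + |w.im| := by linarith
          gcongr
    have h2 : ‖Complex.exp (-(2 * π * w / L) ^ 2 / 4) - 1‖ ≤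
        20 * (1 / L ^ 2) * ((1 + w.re ^ 2) * (1 + |w.im|) ^ 2) := by
      have hz : (2 * π * w / L : ℂ) = ((2 * π / L : ℝ) : ℂ) * w := by push_cast; ring
      have hre2 : (-(2 * π * w / L) ^ 2 / 4 : ℂ).re ≤ 1 / 4 := by
        have h3 : (-(2 * π * w / L) ^ 2 / 4 : ℂ) = ((-(2 * π / L) ^ 2 / 4 : ℝ) : ℂ) * (w * w) := by
          rw [hz]
          push_cast
          ring
        rw [h3, Complex.re_ofReal_mul, Complex.mul_re]
        have h4 : (2 * π / L) ^ 2 * (w.im * w.im) ≤ 1 := by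
          have h5 : 2 * π / L * |w.im| ≤ 1 := by
            rw [div_mul_eq_mul_div, div_le_one hL]
            linarith
          have h6 := pow_le_pow_left₀ (by positivity) h5 2
          rw [mul_pow, sq_abs] at h6
          linarith
        have h7 : 0 ≤ (2 * π / L) ^ 2 * (w.re * w.re) := mul_nonneg (sq_nonneg _) (mul_self_nonneg _)
        nlinarith
      refine (exp_sub_one (by norm_num) hre2).trans ?_
      have h3 : ‖(-(2 * π * w / L) ^ 2 / 4 : ℂ)‖ = (2 * π / L) ^ 2 * ‖w‖ ^ 2 / 4 := by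
        rw [hz, norm_div, norm_neg, norm_pow, norm_mul, Complex.norm_real, Real.norm_eq_abs,
          abs_of_pos (by positivity : 0 < 2 * π / L), Complex.norm_ofNat, mul_pow]
      rw [h3]
      have h4 : Real.exp (1 / 4) ≤ 2 := by
        have h5 : Real.exp (1 / 4) ≤ Real.exp (1 / 2) := Real.exp_le_exp.2 (by norm_num)
        have h6 : Real.exp (1 / 2) ^ 2 = Real.exp 1 := by
          rw [← Real.exp_nat_mul]
          norm_num
        have h7 := Real.exp_one_lt_d9
        have h8 := Real.exp_pos (1 / 2)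
        nlinarith
      have h5 := norm_sq_le w
      have h6 : (2 * π / L) ^ 2 ≤ 40 * (1 / L ^ 2) := by
        rw [div_pow, mul_one_div]
        refine div_le_div_of_nonneg_right ?_ (by positivity)
        nlinarith
      calc Real.exp (1 / 4) * ((2 * π / L) ^ 2 * ‖w‖ ^ 2 / 4) ≤
          2 * ((40 * (1 / L ^ 2)) * ((1 + w.re ^ 2) * (1 + |w.im|) ^ 2) / 4) := by gcongr
        _ = _ := by ring
    refine (mul_le_mul h1 h2 (norm_nonneg _) (by positivity)).trans (le_of_eq ?_)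
    field_simp
    ring
  have e0 : CT K (w / s) * Complex.exp (-(2 * π * w / L) ^ 2 / 4) - CT K w =
      (CT K (w / s) - CT K w) +
      CT K (w / s) * (Complex.exp (-(2 * π * w / L) ^ 2 / 4) - 1) := by ring
  rw [e0]
  refine (norm_add_le _ _).trans ((add_le_add p1 p2).trans ?_)
  rw [← add_div]
  refine div_le_div_of_nonneg_right ?_ hx.le
  have h1 := hb3 |w.im| hy
  have h2 : (1 + |w.im|) ^ 3 * E ≤ C3 * Real.exp (c * |w.im|) := by
    have e1 : Real.exp (c * |w.im|) = Real.exp ((c - 2 * π * κ) * |w.im|) * E := by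
      rw [hE, ← Real.exp_add]
      ring_nf
    rw [e1, ← mul_assoc]
    exact mul_le_mul_of_nonneg_right h1 hE0.le
  have h3 : (1 + |w.im|) * E ≤ (1 + |w.im|) ^ 3 * E := by
    refine mul_le_mul_of_nonneg_right ?_ hE0.le
    nlinarith [mul_nonneg hy hy, mul_nonneg (mul_nonneg hy hy) hy]
  have hs : 0 ≤ s - 1 := by linarith
  have hL2 : 0 ≤ 1 / L ^ 2 := by positivity
  calc 16 * C1 * (s - 1) * ((1 + |w.im|) * E) + 320 * C2 * (1 / L ^ 2) * ((1 + |w.im|) ^ 3 * E) ≤
        16 * C1 * (s - 1) * (C3 * Real.exp (c * |w.im|)) +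
          320 * C2 * (1 / L ^ 2) * (C3 * Real.exp (c * |w.im|)) := by
        have := h3.trans h2
        gcongr
    _ ≤ (16 * C1 + 320 * C2) * C3 * (s - 1 + 1 / L ^ 2) * Real.exp (c * |w.im|) := by
        have hC30 : 0 ≤ C3 * Real.exp (c * |w.im|) := by positivity
        have q1 : 0 ≤ C1 * (1 / L ^ 2) * (C3 * Real.exp (c * |w.im|)) := by positivity
        have q2 : 0 ≤ C2 * (s - 1) * (C3 * Real.exp (c * |w.im|)) := by positivity
        nlinarith

/-- the real part off the real line -/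
lemma off_gen {F : ℂ → ℂ} (hF : Differentiable ℂ F) (hreal : ∀ x : ℝ, (deriv F x).im = 0) {w : ℂ}
    {M : ℝ} (hM : ∀ v ∈ Vs w.re |w.im|, ‖deriv (deriv F) v‖ ≤ M) :
    |(F w).re - (F w.re).re| ≤ M * |w.im| * |w.im| := by
  have hM0 : 0 ≤ M := (norm_nonneg _).trans (hM w ⟨rfl, le_rfl⟩)
  have hy := abs_nonneg w.im
  have hFd : Differentiable ℂ (deriv F) := by
    have : ContDiff ℂ 2 F := hF.contDiff
    exact (this.iterate_deriv' 1 1).differentiable (by simp)
  have hx0 : ((w.re : ℝ) : ℂ) ∈ Vs w.re |w.im| := ⟨by simp, by simp⟩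
  have h1 : ∀ v ∈ Vs w.re |w.im|, ‖deriv F v - deriv F (w.re : ℂ)‖ ≤ M * |w.im| := by
    intro v hv
    have h2 := (Vs_convex w.re |w.im|).norm_image_sub_le_of_norm_deriv_le (𝕜 := ℂ) (f := deriv F)
      (C := M) (x := (w.re : ℂ)) (y := v) (fun v _ => hFd v) hM hx0 hv
    have e1 : ‖v - (w.re : ℂ)‖ = |v.im| := by
      have : v - (w.re : ℂ) = v.im * Complex.I := by
        nth_rewrite 1 [re_im_eta v]
        rw [hv.1]
        ring
      rw [this, norm_mul, Complex.norm_I, mul_one, Complex.norm_real, Real.norm_eq_abs]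
    rw [e1] at h2
    exact h2.trans (mul_le_mul_of_nonneg_left hv.2 hM0)
  set φ : ℝ → ℝ := fun t => (F ((w.re : ℂ) + t * Complex.I)).re with hφ
  have hφd : ∀ t : ℝ, HasDerivAt φ (-(deriv F ((w.re : ℂ) + t * Complex.I)).im) t := by
    intro t
    have d1 := (hF ((w.re : ℂ) + t * Complex.I)).hasDerivAt
    have d2 : HasDerivAt (fun t : ℝ => (w.re : ℂ) + t * Complex.I) Complex.I t := by
      have := ((Complex.ofRealCLM.hasDerivAt (x := t)).mul_const Complex.I).const_add (w.re : ℂ)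
      simpa using this
    have d3 := HasDerivAt.scomp t d1 d2
    have d4 := Complex.reCLM.hasFDerivAt.comp_hasDerivAt t d3
    refine d4.congr_deriv ?_
    show (Complex.I • deriv F ((w.re : ℂ) + t * Complex.I)).re = _
    rw [smul_eq_mul, Complex.I_mul_re]
  have hconv : Convex ℝ {t : ℝ | |t| ≤ |w.im|} := by
    have : {t : ℝ | |t| ≤ |w.im|} = Set.Icc (-|w.im|) |w.im| := by
      ext t
      show |t| ≤ |w.im| ↔ -|w.im| ≤ t ∧ t ≤ |w.im|
      exact abs_le
    rw [this]
    exact convex_Icc _ _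
  have h2 := hconv.norm_image_sub_le_of_norm_deriv_le (𝕜 := ℝ) (f := φ)
    (C := M * |w.im|) (x := 0) (y := w.im) (fun t _ => (hφd t).differentiableAt) (fun t ht => by
      rw [(hφd t).deriv, norm_neg, Real.norm_eq_abs]
      have h3 := h1 ((w.re : ℂ) + t * Complex.I) ⟨by simp, by simpa using ht⟩
      have h4 := Complex.abs_im_le_norm (deriv F ((w.re : ℂ) + t * Complex.I) -
        deriv F (w.re : ℂ))
      rw [Complex.sub_im, hreal, sub_zero] at h4
      exact h4.trans h3) (by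
        show |(0 : ℝ)| ≤ |w.im|
        rw [abs_zero]
        exact hy) (by
        show |w.im| ≤ |w.im|
        exact le_rfl)
  have e1 : φ w.im = (F w).re := by
    rw [hφ]
    show (F ((w.re : ℂ) + w.im * Complex.I)).re = _
    rw [← re_im_eta w]
  have e2 : φ 0 = (F w.re).re := by
    rw [hφ]
    show (F ((w.re : ℂ) + (0 : ℝ) * Complex.I)).re = _
    rw [Complex.ofReal_zero, zero_mul, add_zero]
  rw [e1, e2, Real.norm_eq_abs, Real.norm_eq_abs, sub_zero] at h2
  exact h2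

lemma deriv_CT_real (h : CK κ K) (x : ℝ) : (deriv (CT K) x).im = 0 := by
  rw [deriv_CT h]
  unfold ST
  have e : ∀ α : ℝ, ((K α * (2 * π * α) : ℝ) : ℂ) * Complex.sin (2 * π * x * α) =
      ((K α * (2 * π * α) * Real.sin (2 * π * x * α) : ℝ) : ℂ) := by
    intro α
    push_cast
    ring
  simp_rw [e]
  rw [integral_complex_ofReal, Complex.neg_im, Complex.ofReal_im, neg_zero]

/-- **the contribution of the distance to the critical line**, uniformly in the length -/
lemma lav_cmp (hκ : 0 < κ) (h : TK κ K) {c : ℝ} (hc : 2 * π * κ < c) : ∃ C, 0 ≤ C ∧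
    ∀ (A : ℝ) (w : ℂ), |(CT (Lav K A) w).re - ct (Lav K A) w.re| ≤
      C * (Real.exp (c * |w.im|) * (1 / (1 + (w.re - -A) ^ 2)) +
        Real.exp (c * |w.im|) * (1 / (1 + (w.re - A) ^ 2)) +
        2 * (Real.exp (c * |w.im|) * (1 / (1 + (w.re - 0) ^ 2)))) := by
  obtain ⟨C1, hC1, hb⟩ := CT_decay' h
  obtain ⟨C3, hC3, hb3⟩ := pow3_le (c := c - 2 * π * κ) (by linarith)
  have hpi := Real.pi_pos
  refine ⟨C1 * C3, by positivity, fun A w => ?_⟩
  have hy := abs_nonneg w.im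
  have hL := TK_CK (Lav_TK h A)
  have hk : ∀ (b : ℝ) (v : ℂ), v ∈ Vs w.re |w.im| → ‖CT K (v + b)‖ ≤
      C1 * Real.exp (2 * π * κ * |w.im|) * (1 / (1 + (w.re + b) ^ 2)) := by
    intro b v hv
    refine (hb _).trans ?_
    have e1 : (v + b).im = v.im := by simp
    have e2 : (v + b).re = w.re + b := by simp [hv.1]
    rw [e1, e2, mul_one_div]
    have h1 : Real.exp (2 * π * κ * |v.im|) ≤ Real.exp (2 * π * κ * |w.im|) :=
      Real.exp_le_exp.2 (mul_le_mul_of_nonneg_left hv.2 (by positivity))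
    have h2 : 1 + (w.re + b) ^ 2 ≤ (1 + (w.re + b) ^ 2) ^ 2 := by
      nlinarith [sq_nonneg (w.re + b), sq_nonneg ((w.re + b) ^ 2)]
    gcongr
  have h1 := off_gen (F := CT (Lav K A)) (CT_diff hL) (deriv_CT_real hL) (w := w)
    (M := C1 * Real.exp (2 * π * κ * |w.im|) * (1 / (1 + (w.re - -A) ^ 2) +
      1 / (1 + (w.re - A) ^ 2) + 2 * (1 / (1 + (w.re - 0) ^ 2)))) (fun v hv => by
      rw [(Lav_deriv2 h A v).deriv]
      have k1 := hk A v hv
      have k2 := hk (-A) v hv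
      have k3 := hk 0 v hv
      rw [Complex.ofReal_neg, ← sub_eq_add_neg, ← sub_eq_add_neg] at k2
      rw [Complex.ofReal_zero, add_zero] at k3
      rw [sub_neg_eq_add, sub_zero]
      rw [add_zero] at k3
      have k4 : ‖2 * CT K v‖ = 2 * ‖CT K v‖ := by rw [norm_mul, Complex.norm_ofNat]
      refine (norm_sub_le _ _).trans ?_
      rw [k4]
      have k5 := norm_add_le (CT K (v + A)) (CT K (v - A))
      linarith)
  rw [CT_real, Complex.ofReal_re] at h1
  refine h1.trans ?_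
  have h3 := hb3 |w.im| hy
  have h4 : |w.im| * |w.im| ≤ (1 + |w.im|) ^ 3 := by
    nlinarith [mul_nonneg hy hy, mul_nonneg (mul_nonneg hy hy) hy]
  have e3 : Real.exp (c * |w.im|) = Real.exp ((c - 2 * π * κ) * |w.im|) *
      Real.exp (2 * π * κ * |w.im|) := by
    rw [← Real.exp_add]
    ring_nf
  set R := 1 / (1 + (w.re - -A) ^ 2) + 1 / (1 + (w.re - A) ^ 2) +
    2 * (1 / (1 + (w.re - 0) ^ 2)) with hR
  have hR0 : 0 ≤ R := by positivity
  have h5 : C1 * Real.exp (2 * π * κ * |w.im|) * R * (|w.im| * |w.im|) ≤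
      C1 * Real.exp (2 * π * κ * |w.im|) * R *
        (C3 * Real.exp ((c - 2 * π * κ) * |w.im|)) :=
    mul_le_mul_of_nonneg_left (h4.trans h3) (by positivity)
  calc C1 * Real.exp (2 * π * κ * |w.im|) * R * |w.im| * |w.im| =
        C1 * Real.exp (2 * π * κ * |w.im|) * R * (|w.im| * |w.im|) := by ring
    _ ≤ _ := h5
    _ = _ := by
        rw [e3, hR]
        ring

end Pool.Agent.H8.PCU
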