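import Pool.Graph.R_seed8.Y744.PCR.ConnB

/-! # The complex cosine transform -/

set_option autoImplicit false

open MeasureTheory Filter Topology Real

namespace Pool.Agent.H8.PCU

open Pool.Agent.Y744

/-- the complex cosine transform -/
noncomputable def CT (K : ℝ → ℝ) (w : ℂ) : ℂ :=
  ∫ α : ℝ, (K α : ℂ) * Complex.cos (2 * π * w * α)

lemma norm_cos_le (z : ℂ) : ‖Complex.cos z‖ ≤ Real.exp |z.im| := by
  unfold Complex.cos
  rw [norm_div, Complex.norm_ofNat, div_le_iff₀ (by norm_num)]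
  refine (norm_add_le _ _).trans ?_
  rw [Complex.norm_exp, Complex.norm_exp]
  have h1 : (z * Complex.I).re = -z.im := by simp
  have h2 : (-z * Complex.I).re = z.im := by simp
  rw [h1, h2]
  have h3 : Real.exp (-z.im) ≤ Real.exp |z.im| := Real.exp_le_exp.2 (neg_le_abs _)
  have h4 : Real.exp (z.im) ≤ Real.exp |z.im| := Real.exp_le_exp.2 (le_abs_self _)
  linarith

lemma norm_sin_le (z : ℂ) : ‖Complex.sin z‖ ≤ Real.exp |z.im| := by
  unfold Complex.sin
  rw [norm_div, Complex.norm_ofNat, div_le_iff₀ (by norm_num), norm_mul, Complex.norm_I, mul_one]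
  refine (norm_sub_le _ _).trans ?_
  rw [Complex.norm_exp, Complex.norm_exp]
  have h1 : (z * Complex.I).re = -z.im := by simp
  have h2 : (-z * Complex.I).re = z.im := by simp
  rw [h1, h2]
  have h3 : Real.exp (-z.im) ≤ Real.exp |z.im| := Real.exp_le_exp.2 (neg_le_abs _)
  have h4 : Real.exp (z.im) ≤ Real.exp |z.im| := Real.exp_le_exp.2 (le_abs_self _)
  linarith

/-- continuous functions supported in `[-κ, κ]` -/
structure CK (κ : ℝ) (K : ℝ → ℝ) : Prop where
  cont : Continuous K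
  supp : ∀ x, κ < |x| → K x = 0

lemma CK.hcs {κ : ℝ} {K : ℝ → ℝ} (h : CK κ K) : HasCompactSupport K := by
  refine HasCompactSupport.intro (isCompact_Icc (a := -κ) (b := κ)) fun x hx => h.supp x ?_
  by_contra hc
  exact hx (abs_le.1 (not_lt.1 hc))

lemma CK.integrable {κ : ℝ} {K : ℝ → ℝ} (h : CK κ K) : Integrable K :=
  h.cont.integrable_of_hasCompactSupport h.hcs

lemma TK_CK {κ : ℝ} {K : ℝ → ℝ} (h : TK κ K) : CK κ K := ⟨h.cont, h.supp⟩

lemma Kav_CK {κ : ℝ} {K : ℝ → ℝ} (h : TK κ K) (a : ℝ) : CK κ (Kav K a) :=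
  ⟨Kav_cont h, fun x hx => Kav_supp h x hx⟩

variable {κ : ℝ} {K : ℝ → ℝ}

lemma mul_int {F : ℝ → ℂ} (h : CK κ K) (hF : Continuous F) :
    Integrable fun α : ℝ => (K α : ℂ) * F α := by
  have hc : Continuous fun α : ℝ => (K α : ℂ) * F α :=
    (Complex.continuous_ofReal.comp h.cont).mul hF
  refine hc.integrable_of_hasCompactSupport ?_
  refine HasCompactSupport.mul_right ?_
  exact h.hcs.comp_left (g := fun x : ℝ => (x : ℂ)) (by simp)

lemma arg_im (w : ℂ) (α : ℝ) : (2 * π * w * α : ℂ).im = 2 * π * w.im * α := by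
  have : (2 * π * w * α : ℂ) = ((2 * π * α : ℝ) : ℂ) * w := by push_cast; ring
  rw [this, Complex.im_ofReal_mul]
  ring

lemma CT_bound (h : CK κ K) (w : ℂ) :
    ‖CT K w‖ ≤ (∫ α, |K α|) * Real.exp (2 * π * κ * |w.im|) := by
  unfold CT
  refine (norm_integral_le_integral_norm _).trans ?_
  rw [← integral_mul_const]
  refine integral_mono_of_nonneg (Eventually.of_forall fun _ => norm_nonneg _)
    (h.integrable.abs.mul_const _) (Eventually.of_forall fun α => ?_)
  show ‖(K α : ℂ) * Complex.cos (2 * π * w * α)‖ ≤ |K α| * Real.exp (2 * π * κ * |w.im|)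
  rw [norm_mul, Complex.norm_real, Real.norm_eq_abs]
  by_cases hα : κ < |α|
  · rw [h.supp α hα, abs_zero, zero_mul, zero_mul]
  · push Not at hα
    refine mul_le_mul_of_nonneg_left ?_ (abs_nonneg _)
    refine (norm_cos_le _).trans (Real.exp_le_exp.2 ?_)
    rw [arg_im, abs_mul, abs_mul, abs_of_pos (by positivity : 0 < 2 * π)]
    have h1 : |w.im| * |α| ≤ |w.im| * κ := mul_le_mul_of_nonneg_left hα (abs_nonneg _)
    have hpi := Real.pi_pos
    nlinarith

lemma CT_real (K : ℝ → ℝ) (x : ℝ) : CT K x = (ct K x : ℂ) := by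
  unfold CT ct
  rw [← integral_complex_ofReal]
  refine integral_congr_ae (Eventually.of_forall fun α => ?_)
  show (K α : ℂ) * Complex.cos (2 * π * x * α) = ((K α * Real.cos (2 * π * x * α) : ℝ) : ℂ)
  push_cast
  ring

lemma CT_hasDeriv (h : CK κ K) (w : ℂ) : HasDerivAt (CT K)
    (∫ α : ℝ, (K α : ℂ) * (-Complex.sin (2 * π * w * α) * (2 * π * α))) w := by
  have hpi := Real.pi_pos
  have key := hasDerivAt_integral_of_dominated_loc_of_deriv_le (μ := volume) (𝕜 := ℂ)
    (F := fun w (α : ℝ) => (K α : ℂ) * Complex.cos (2 * π * w * α))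
    (F' := fun w (α : ℝ) => (K α : ℂ) * (-Complex.sin (2 * π * w * α) * (2 * π * α)))
    (bound := fun α => |K α| * (Real.exp (2 * π * (|w.im| + 1) * |κ|) * (2 * π * |κ|)))
    (x₀ := w) (s := Metric.ball w 1) (Metric.ball_mem_nhds _ one_pos)
    (Eventually.of_forall fun v => (mul_int h (by fun_prop)).aestronglyMeasurable)
    (mul_int h (by fun_prop)) (mul_int h (by fun_prop)).aestronglyMeasurable
    (Eventually.of_forall fun α v hv => ?_) (h.integrable.abs.mul_const _)
    (Eventually.of_forall fun α v _ => ?_)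
  · exact key.2
  · rw [norm_mul, Complex.norm_real, Real.norm_eq_abs]
    by_cases hα : κ < |α|
    · rw [h.supp α hα, abs_zero, zero_mul, zero_mul]
    · push Not at hα
      have hα2 : |α| ≤ |κ| := hα.trans (le_abs_self _)
      refine mul_le_mul_of_nonneg_left ?_ (abs_nonneg _)
      rw [norm_mul, norm_neg, norm_mul, norm_mul, Complex.norm_real, Complex.norm_real,
        Complex.norm_ofNat, Real.norm_eq_abs, Real.norm_eq_abs, abs_of_pos hpi]
      refine mul_le_mul ((norm_sin_le _).trans (Real.exp_le_exp.2 ?_)) ?_ (by positivity)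
        (Real.exp_pos _).le
      · rw [arg_im, abs_mul, abs_mul, abs_of_pos (by positivity : 0 < 2 * π)]
        have h1 : |v.im| ≤ |w.im| + 1 := by
          have h2 : |(v - w).im| ≤ ‖v - w‖ := Complex.abs_im_le_norm _
          rw [Metric.mem_ball, Complex.dist_eq] at hv
          rw [Complex.sub_im] at h2
          have := abs_sub_abs_le_abs_sub v.im w.im
          linarith
        gcongr
      · gcongr
  · have h1 : HasDerivAt (fun v : ℂ => 2 * π * v * α) (2 * π * α) v := by
      have := ((hasDerivAt_id v).const_mul (2 * π : ℂ)).mul_const (α : ℂ)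
      simpa using this
    exact (h1.ccos).const_mul _

lemma CT_diff (h : CK κ K) : Differentiable ℂ (CT K) := fun w => (CT_hasDeriv h w).differentiableAt

/-- entire functions that agree on the real line are equal -/
lemma entire_ext {f g : ℂ → ℂ} (hf : Differentiable ℂ f) (hg : Differentiable ℂ g)
    (h : ∀ x : ℝ, f x = g x) : f = g := by
  have h1 : AnalyticOnNhd ℂ f Set.univ := (hf.differentiableOn).analyticOnNhd isOpen_univ
  have h2 : AnalyticOnNhd ℂ g Set.univ := (hg.differentiableOn).analyticOnNhd isOpen_univ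
  refine AnalyticOnNhd.eq_of_frequently_eq (z₀ := 0) h1 h2 ?_
  have ht : Tendsto (fun n : ℕ => ((1 / ((n : ℝ) + 1) : ℝ) : ℂ)) atTop (𝓝[≠] (0 : ℂ)) := by
    rw [tendsto_nhdsWithin_iff]
    refine ⟨?_, Eventually.of_forall fun n => ?_⟩
    · have := (Complex.continuous_ofReal.tendsto 0).comp
        (tendsto_one_div_add_atTop_nhds_zero_nat (𝕜 := ℝ))
      rw [Complex.ofReal_zero] at this
      exact this
    · show ((1 / ((n : ℝ) + 1) : ℝ) : ℂ) ≠ 0
      rw [Complex.ofReal_ne_zero]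
      positivity
  exact ht.frequently (Frequently.of_forall fun n => h _)

lemma sq_mul_CT (h : TK κ K) (w : ℂ) : w ^ 2 * CT K w = CT (TK.D K) w := by
  have h1 := entire_ext (f := fun w => w ^ 2 * CT K w) (g := CT (TK.D K))
    ((differentiable_id.pow 2).mul (CT_diff (TK_CK h))) (CT_diff (TK_CK h.D_TK)) (fun x => by
      show (x : ℂ) ^ 2 * CT K x = CT (TK.D K) x
      rw [CT_real, CT_real, ← h.sq_mul_ct]
      push_cast
      rfl)
  exact congrFun h1 w

/-- decay of the transform -/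
lemma CT_decay (h : TK κ K) : ∃ C, 0 ≤ C ∧ ∀ w : ℂ, (1 + ‖w‖ ^ 2) ^ 2 * ‖CT K w‖ ≤
    C * Real.exp (2 * π * κ * |w.im|) := by
  have hD := h.D_TK
  have hDD := hD.D_TK
  refine ⟨(∫ α, |K α|) + 2 * (∫ α, |TK.D K α|) + ∫ α, |TK.D (TK.D K) α|, ?_, fun w => ?_⟩
  · have h1 : 0 ≤ ∫ α, |K α| := integral_nonneg fun _ => abs_nonneg _
    have h2 : 0 ≤ ∫ α, |TK.D K α| := integral_nonneg fun _ => abs_nonneg _
    have h3 : 0 ≤ ∫ α, |TK.D (TK.D K) α| := integral_nonneg fun _ => abs_nonneg _
    positivity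
  · have b1 := CT_bound (TK_CK h) w
    have b2 := CT_bound (TK_CK hD) w
    have b3 := CT_bound (TK_CK hDD) w
    have e2 : ‖w‖ ^ 2 * ‖CT K w‖ = ‖CT (TK.D K) w‖ := by
      rw [← sq_mul_CT h, norm_mul, norm_pow]
    have e3 : ‖w‖ ^ 2 * ‖CT (TK.D K) w‖ = ‖CT (TK.D (TK.D K)) w‖ := by
      rw [← sq_mul_CT hD, norm_mul, norm_pow]
    have e : (1 + ‖w‖ ^ 2) ^ 2 * ‖CT K w‖ = ‖CT K w‖ + 2 * (‖w‖ ^ 2 * ‖CT K w‖) +
        ‖w‖ ^ 2 * (‖w‖ ^ 2 * ‖CT K w‖) := by ring
    rw [e, e2, e3]
    linarith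

/-- the derivative of the average -/
lemma Kav_hasDeriv (h : TK κ K) (a : ℝ) (w : ℂ) :
    HasDerivAt (CT (Kav K a)) (CT K (w + a) - CT K (w - a)) w := by
  have h1 := CT_hasDeriv (Kav_CK h a) w
  refine h1.congr_deriv ?_
  unfold CT
  rw [← integral_sub (mul_int (TK_CK h) (by fun_prop)) (mul_int (TK_CK h) (by fun_prop))]
  refine integral_congr_ae (Eventually.of_forall fun α => ?_)
  show (Kav K a α : ℂ) * (-Complex.sin (2 * π * w * α) * (2 * π * α)) =
    (K α : ℂ) * Complex.cos (2 * π * (w + a) * α) - (K α : ℂ) * Complex.cos (2 * π * (w - a) * α)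
  have e1 : (2 * π * (w + a) * α : ℂ) = 2 * π * w * α + 2 * π * a * α := by ring
  have e2 : (2 * π * (w - a) * α : ℂ) = 2 * π * w * α - 2 * π * a * α := by ring
  rw [e1, e2, Complex.cos_add, Complex.cos_sub]
  have e3 : (Kav K a α : ℂ) * (2 * π * α) = (K α : ℂ) * (2 * Complex.sin (2 * π * a * α)) := by
    have : Kav K a α * (2 * π * α) = K α * (2 * Real.sin (2 * π * a * α)) := by
      unfold Kav
      rcases eq_or_ne α 0 with rfl | hα
      · simp
      · rcases eq_or_ne a 0 with rfl | ha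
        · simp
        · have hpi := Real.pi_pos
          rw [Real.sinc_of_ne_zero (by positivity)]
          field_simp
    have h2 := congrArg (fun x : ℝ => (x : ℂ)) this
    push_cast at h2
    exact h2
  calc (Kav K a α : ℂ) * (-Complex.sin (2 * π * w * α) * (2 * π * α)) =
        -((Kav K a α : ℂ) * (2 * π * α)) * Complex.sin (2 * π * w * α) := by ring
    _ = _ := by
        rw [e3]
        ring

end Pool.Agent.H8.PCU
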