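import Pool.Agent.H8.PCU.K1

/-! # Bounds for the complex kernels -/

set_option autoImplicit false

open MeasureTheory Filter Topology Real

namespace Pool.Agent.H8.PCU

open Pool.Agent.Y744

variable {κ : ℝ} {K : ℝ → ℝ}

/-- powers against exponentials -/
lemma pow3_le {c : ℝ} (hc : 0 < c) : ∃ C, 1 ≤ C ∧ ∀ t : ℝ, 0 ≤ t → (1 + t) ^ 3 ≤ C * Real.exp (c * t) := by
  refine ⟨max 1 (3 / c) ^ 3, one_le_pow₀ (le_max_left _ _), fun t ht => ?_⟩
  have h1 : 1 + t ≤ max 1 (3 / c) * Real.exp (c / 3 * t) := by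
    have h2 := Real.add_one_le_exp (c / 3 * t)
    have h3 : 1 + t ≤ max 1 (3 / c) * (c / 3 * t + 1) := by
      have h4 : 1 ≤ max 1 (3 / c) := le_max_left _ _
      have h5 : 3 / c ≤ max 1 (3 / c) := le_max_right _ _
      have h6 : 1 ≤ max 1 (3 / c) * (c / 3) := by
        calc (1 : ℝ) = 3 / c * (c / 3) := by field_simp
          _ ≤ _ := mul_le_mul_of_nonneg_right h5 (by positivity)
      nlinarith
    exact h3.trans (mul_le_mul_of_nonneg_left h2 (by positivity))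
  calc (1 + t) ^ 3 ≤ (max 1 (3 / c) * Real.exp (c / 3 * t)) ^ 3 :=
        pow_le_pow_left₀ (by positivity) h1 3
    _ = max 1 (3 / c) ^ 3 * Real.exp (c * t) := by
        rw [mul_pow, ← Real.exp_nat_mul]
        congr 2
        push_cast
        ring

lemma re_sq_le (w : ℂ) : w.re ^ 2 ≤ ‖w‖ ^ 2 := by
  rw [← Complex.normSq_eq_norm_sq, Complex.normSq_apply]
  nlinarith [sq_nonneg w.im]

lemma norm_sq_le (w : ℂ) : ‖w‖ ^ 2 ≤ (1 + w.re ^ 2) * (1 + |w.im|) ^ 2 := by
  rw [← Complex.normSq_eq_norm_sq, Complex.normSq_apply]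
  have h1 : w.im * w.im = |w.im| ^ 2 := by rw [sq_abs]; ring
  rw [h1]
  have h2 := abs_nonneg w.im
  have h3 := sq_nonneg w.re
  nlinarith [mul_nonneg h3 h2, mul_nonneg h3 (sq_nonneg |w.im|)]

lemma norm_le (w : ℂ) : ‖w‖ ≤ (1 + w.re ^ 2) * (1 + |w.im|) := by
  refine (Complex.norm_le_abs_re_add_abs_im w).trans ?_
  have h2 := abs_nonneg w.im
  have h3 : |w.re| ≤ 1 + w.re ^ 2 := by
    rw [← sq_abs]
    nlinarith [sq_nonneg (|w.re| - 1), abs_nonneg w.re]
  nlinarith [mul_nonneg (sq_nonneg w.re) h2]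

/-- decay of the transform in terms of the real part -/
lemma CT_decay' (h : TK κ K) : ∃ C, 0 ≤ C ∧ ∀ w : ℂ, ‖CT K w‖ ≤
    C * Real.exp (2 * π * κ * |w.im|) / (1 + w.re ^ 2) ^ 2 := by
  obtain ⟨C, hC, hb⟩ := CT_decay h
  refine ⟨C, hC, fun w => ?_⟩
  rw [le_div_iff₀ (by positivity)]
  refine le_trans ?_ (hb w)
  rw [mul_comm]
  refine mul_le_mul_of_nonneg_right ?_ (norm_nonneg _)
  refine pow_le_pow_left₀ (by positivity) ?_ 2
  linarith [re_sq_le w]

lemma shift_sq (x a : ℝ) : 1 + x ^ 2 ≤ (2 + 2 * a ^ 2) * (1 + (x + a) ^ 2) := by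
  nlinarith [sq_nonneg (x + 2 * a), sq_nonneg (a * (x + a)), sq_nonneg (x + a)]

/-- the derivative of the average decays -/
lemma dav_decay (h : TK κ K) (a : ℝ) : ∃ C, 0 ≤ C ∧ ∀ w : ℂ, ‖CT K (w + a) - CT K (w - a)‖ ≤
    C * Real.exp (2 * π * κ * |w.im|) / (1 + w.re ^ 2) ^ 2 := by
  obtain ⟨C, hC, hb⟩ := CT_decay' h
  refine ⟨2 * ((2 + 2 * a ^ 2) ^ 2 * C), by positivity, fun w => ?_⟩
  have key : ∀ b : ℝ, b ^ 2 = a ^ 2 → ‖CT K (w + b)‖ ≤
      (2 + 2 * a ^ 2) ^ 2 * C * Real.exp (2 * π * κ * |w.im|) / (1 + w.re ^ 2) ^ 2 := by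
    intro b hb2
    have h1 := hb (w + b)
    have e1 : (w + b).im = w.im := by simp
    have e2 : (w + b).re = w.re + b := by simp
    rw [e1, e2] at h1
    refine h1.trans ?_
    rw [div_le_div_iff₀ (by positivity) (by positivity)]
    have h2 := shift_sq w.re b
    rw [hb2] at h2
    have h3 := pow_le_pow_left₀ (by positivity) h2 2
    rw [mul_pow] at h3
    have h4 : 0 ≤ C * Real.exp (2 * π * κ * |w.im|) := by positivity
    have h5 := mul_le_mul_of_nonneg_left h3 h4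
    linarith
  have k1 := key a rfl
  have k2 := key (-a) (by ring)
  rw [Complex.ofReal_neg, ← sub_eq_add_neg] at k2
  refine (norm_sub_le _ _).trans ?_
  refine (add_le_add k1 k2).trans (le_of_eq ?_)
  ring

lemma CT_Kav_real (h : TK κ K) {a : ℝ} (ha : 0 < a) (x : ℝ) : CT (Kav K a) x = (fav K a x : ℂ) := by
  rw [CT_real, ← fav_eq h ha]

lemma re_im_eta (w : ℂ) : w = (w.re : ℂ) + w.im * Complex.I := (Complex.re_add_im w).symm

/-- the vertical strip -/
def Vs (x y : ℝ) : Set ℂ := {w : ℂ | w.re = x ∧ |w.im| ≤ y}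

lemma Vs_convex (x y : ℝ) : Convex ℝ (Vs x y) := by
  intro u hu v hv p q hp hq hpq
  obtain ⟨u1, u2⟩ := hu
  obtain ⟨v1, v2⟩ := hv
  constructor
  · rw [Complex.add_re, Complex.smul_re, Complex.smul_re, u1, v1, smul_eq_mul, smul_eq_mul,
      ← add_mul, hpq, one_mul]
  · rw [Complex.add_im, Complex.smul_im, Complex.smul_im, smul_eq_mul, smul_eq_mul]
    refine (abs_add_le _ _).trans ?_
    rw [abs_mul, abs_mul, abs_of_nonneg hp, abs_of_nonneg hq]
    have h1 := mul_le_mul_of_nonneg_left u2 hp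
    have h2 := mul_le_mul_of_nonneg_left v2 hq
    have h3 : p * y + q * y = y := by rw [← add_mul, hpq, one_mul]
    linarith

/-- decay of the average -/
lemma av_decay (hκ : 0 < κ) (h : TK κ K) {a : ℝ} (ha : 0 < a) : ∃ C, 0 ≤ C ∧ ∀ w : ℂ,
    ‖CT (Kav K a) w‖ ≤ C * (1 + |w.im|) * Real.exp (2 * π * κ * |w.im|) / (1 + w.re ^ 2) ^ 2 := by
  obtain ⟨C, hC, hb⟩ := dav_decay h a
  obtain ⟨D, hD, hf⟩ := fav_decay h ha
  have hpi := Real.pi_pos
  refine ⟨C + D, by positivity, fun w => ?_⟩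
  have h1 := (Vs_convex w.re |w.im|).norm_image_sub_le_of_norm_deriv_le (𝕜 := ℂ) (f := CT (Kav K a))
    (C := C * Real.exp (2 * π * κ * |w.im|) / (1 + w.re ^ 2) ^ 2)
    (x := (w.re : ℂ)) (y := w) (fun v _ => (Kav_hasDeriv h a v).differentiableAt) (fun v hv => by
      rw [(Kav_hasDeriv h a v).deriv]
      refine (hb v).trans ?_
      rw [hv.1]
      have : Real.exp (2 * π * κ * |v.im|) ≤ Real.exp (2 * π * κ * |w.im|) :=
        Real.exp_le_exp.2 (mul_le_mul_of_nonneg_left hv.2 (by positivity))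
      gcongr) ⟨by simp, by simp⟩ ⟨rfl, le_rfl⟩
  have e1 : ‖w - (w.re : ℂ)‖ = |w.im| := by
    have : w - (w.re : ℂ) = w.im * Complex.I := by
      nth_rewrite 1 [re_im_eta w]
      ring
    rw [this, norm_mul, Complex.norm_I, mul_one, Complex.norm_real, Real.norm_eq_abs]
  rw [e1] at h1
  have h2 := hf w.re
  have h3 : ‖CT (Kav K a) w‖ ≤ ‖CT (Kav K a) w - CT (Kav K a) (w.re : ℂ)‖ + |fav K a w.re| := by
    have e2 : CT (Kav K a) w = (CT (Kav K a) w - CT (Kav K a) (w.re : ℂ)) +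
      CT (Kav K a) (w.re : ℂ) := by ring
    have e3 : ‖CT (Kav K a) (w.re : ℂ)‖ = |fav K a w.re| := by
      rw [CT_Kav_real h ha, Complex.norm_real, Real.norm_eq_abs]
    calc ‖CT (Kav K a) w‖ = ‖(CT (Kav K a) w - CT (Kav K a) (w.re : ℂ)) +
          CT (Kav K a) (w.re : ℂ)‖ := by rw [← e2]
      _ ≤ _ := (norm_add_le _ _).trans (by rw [e3])
  refine h3.trans ((add_le_add h1 h2).trans ?_)
  rw [div_mul_eq_mul_div, ← add_div]
  refine div_le_div_of_nonneg_right ?_ (by positivity)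
  have h4 : 1 ≤ Real.exp (2 * π * κ * |w.im|) := Real.one_le_exp (by positivity)
  have h5 := abs_nonneg w.im
  have h6 : D * 1 ≤ D * ((1 + |w.im|) * Real.exp (2 * π * κ * |w.im|)) := by
    refine mul_le_mul_of_nonneg_left ?_ hD
    nlinarith
  have h7 : C * Real.exp (2 * π * κ * |w.im|) * |w.im| ≤
      C * ((1 + |w.im|) * Real.exp (2 * π * κ * |w.im|)) := by
    have : 0 ≤ C * Real.exp (2 * π * κ * |w.im|) := by positivity
    nlinarith
  linarith

lemma exp_sub_one {a : ℂ} {M : ℝ} (hM : 0 ≤ M) (h : a.re ≤ M) :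
    ‖Complex.exp a - 1‖ ≤ Real.exp M * ‖a‖ := by
  have hc : Convex ℝ {z : ℂ | z.re ≤ M} := convex_halfSpace_re_le M
  have h1 := hc.norm_image_sub_le_of_norm_deriv_le (𝕜 := ℂ) (f := Complex.exp)
    (C := Real.exp M) (x := 0) (y := a) (fun v _ => Complex.differentiable_exp v) (fun v hv => by
      rw [Complex.deriv_exp, Complex.norm_exp]
      exact Real.exp_le_exp.2 hv) (by
        show (0 : ℂ).re ≤ M
        simpa using hM) h
  rw [Complex.exp_zero, sub_zero] at h1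
  exact h1

/-- change of scale and removal of the Gaussian factor -/
lemma av_err (hκ : 0 < κ) (h : TK κ K) {a : ℝ} (ha : 0 < a) {c : ℝ} (hc : 2 * π * κ < c) :
    ∃ C, 0 ≤ C ∧ ∀ (s L : ℝ) (w : ℂ), 1 ≤ s → s ≤ 2 → 0 < L → |w.im| * (2 * π) ≤ L →
      ‖CT (Kav K a) (w / s) * Complex.exp (-(2 * π * w / L) ^ 2 / 4) - CT (Kav K a) w‖ ≤
        C * (s - 1 + 1 / L ^ 2) * Real.exp (c * |w.im|) / (1 + w.re ^ 2) := by
  obtain ⟨C1, hC1, hb1⟩ := dav_decay h a
  obtain ⟨C2, hC2, hb2⟩ := av_decay hκ h ha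
  obtain ⟨C3, hC3, hb3⟩ := pow3_le (c := c - 2 * π * κ) (by linarith)
  have hpi := Real.pi_pos
  have hpi2 := Real.pi_lt_d2
  refine ⟨(16 * C1 + 320 * C2) * C3, by positivity, fun s L w hs1 hs2 hL hw => ?_⟩
  have hs0 : 0 < s := by linarith
  have hy := abs_nonneg w.im
  set E := Real.exp (2 * π * κ * |w.im|) with hE
  have hE0 : 0 < E := Real.exp_pos _
  have hx : 0 < 1 + w.re ^ 2 := by positivity
  -- real dilations
  have hre : ∀ t : ℝ, ((t : ℂ) * w).re = t * w.re := fun t => by simp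
  have him : ∀ t : ℝ, ((t : ℂ) * w).im = t * w.im := fun t => by simp
  have hden : ∀ t : ℝ, 1 / 2 ≤ t → 1 / (1 + (t * w.re) ^ 2) ^ 2 ≤ 16 / (1 + w.re ^ 2) ^ 2 := by
    intro t ht
    rw [div_le_div_iff₀ (by positivity) (by positivity), one_mul]
    have h1 : 1 + w.re ^ 2 ≤ 4 * (1 + (t * w.re) ^ 2) := by
      have h2 : 1 ≤ 4 * t ^ 2 := by nlinarith
      have h3 := mul_le_mul_of_nonneg_right h2 (sq_nonneg w.re)
      rw [mul_pow]
      linarith
    have h2 := pow_le_pow_left₀ hx.le h1 2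
    linarith
  have hexp : ∀ t : ℝ, 0 ≤ t → t ≤ 1 → Real.exp (2 * π * κ * |t * w.im|) ≤ E := by
    intro t ht ht1
    rw [hE]
    refine Real.exp_le_exp.2 (mul_le_mul_of_nonneg_left ?_ (by positivity))
    rw [abs_mul, abs_of_nonneg ht]
    nlinarith
  -- first part
  have p1 : ‖CT (Kav K a) (w / s) - CT (Kav K a) w‖ ≤
      16 * C1 * (s - 1) * ((1 + |w.im|) * E) / (1 + w.re ^ 2) := by
    have hconv : Convex ℝ (segment ℝ (w / s) w) := convex_segment _ _
    have hseg : ∀ v ∈ segment ℝ (w / s) w, ∃ t : ℝ, 1 / 2 ≤ t ∧ t ≤ 1 ∧ v = (t : ℂ) * w := by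
      rintro v ⟨p, q, hp, hq, hpq, rfl⟩
      have hsi : 1 / 2 ≤ s⁻¹ := by
        rw [one_div, inv_le_inv₀ (by norm_num) hs0]
        exact hs2
      have hsi2 : s⁻¹ ≤ 1 := inv_le_one_of_one_le₀ hs1
      refine ⟨p * s⁻¹ + q, ?_, ?_, ?_⟩
      · nlinarith
      · nlinarith
      · rw [Complex.real_smul, Complex.real_smul]
        push_cast
        field_simp
    have h1 := hconv.norm_image_sub_le_of_norm_deriv_le (𝕜 := ℂ) (f := CT (Kav K a))
      (C := 16 * C1 * E / (1 + w.re ^ 2) ^ 2)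
      (x := w) (y := w / s) (fun v _ => (Kav_hasDeriv h a v).differentiableAt) (fun v hv => by
        obtain ⟨t, ht1, ht2, rfl⟩ := hseg v hv
        rw [(Kav_hasDeriv h a _).deriv]
        refine (hb1 _).trans ?_
        rw [hre, him]
        have h2 := hexp t (by linarith) ht2
        have h3 := hden t ht1
        calc C1 * Real.exp (2 * π * κ * |t * w.im|) / (1 + (t * w.re) ^ 2) ^ 2 =
            C1 * Real.exp (2 * π * κ * |t * w.im|) * (1 / (1 + (t * w.re) ^ 2) ^ 2) := by ring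
          _ ≤ C1 * E * (16 / (1 + w.re ^ 2) ^ 2) := by gcongr
          _ = _ := by ring) (right_mem_segment _ _ _) (left_mem_segment _ _ _)
    refine h1.trans ?_
    have e1 : ‖w / s - w‖ ≤ (s - 1) * ((1 + w.re ^ 2) * (1 + |w.im|)) := by
      have e2 : w / s - w = ((s⁻¹ - 1 : ℝ) : ℂ) * w := by
        push_cast
        field_simp
      rw [e2, norm_mul, Complex.norm_real, Real.norm_eq_abs]
      have h4 : |s⁻¹ - 1| ≤ s - 1 := by
        have h5 : s⁻¹ ≤ 1 := inv_le_one_of_one_le₀ hs1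
        rw [abs_of_nonpos (by linarith)]
        have h6 : s * s⁻¹ = 1 := mul_inv_cancel₀ hs0.ne'
        nlinarith
      exact mul_le_mul h4 (norm_le w) (norm_nonneg _) (by linarith)
    refine (mul_le_mul_of_nonneg_left e1 (by positivity)).trans (le_of_eq ?_)
    field_simp
  -- second part
  have p2 : ‖CT (Kav K a) (w / s) * (Complex.exp (-(2 * π * w / L) ^ 2 / 4) - 1)‖ ≤
      320 * C2 * (1 / L ^ 2) * ((1 + |w.im|) ^ 3 * E) / (1 + w.re ^ 2) := by
    rw [norm_mul]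
    have e1 : (w / s : ℂ) = ((s⁻¹ : ℝ) : ℂ) * w := by
      push_cast
      field_simp
    have hsi : 1 / 2 ≤ s⁻¹ := by
      rw [one_div, inv_le_inv₀ (by norm_num) hs0]
      exact hs2
    have hsi2 : s⁻¹ ≤ 1 := inv_le_one_of_one_le₀ hs1
    have h1 : ‖CT (Kav K a) (w / s)‖ ≤ 16 * C2 * ((1 + |w.im|) * E) / (1 + w.re ^ 2) ^ 2 := by
      rw [e1]
      refine (hb2 _).trans ?_
      rw [hre, him]
      have h2 := hexp s⁻¹ (by linarith) hsi2
      have h3 := hden s⁻¹ hsi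
      have h4 : |s⁻¹ * w.im| ≤ |w.im| := by
        rw [abs_mul, abs_of_nonneg (by linarith)]
        nlinarith
      calc C2 * (1 + |s⁻¹ * w.im|) * Real.exp (2 * π * κ * |s⁻¹ * w.im|) /
            (1 + (s⁻¹ * w.re) ^ 2) ^ 2 =
          C2 * (1 + |s⁻¹ * w.im|) * Real.exp (2 * π * κ * |s⁻¹ * w.im|) *
            (1 / (1 + (s⁻¹ * w.re) ^ 2) ^ 2) := by ring
        _ ≤ C2 * (1 + |w.im|) * E * (16 / (1 + w.re ^ 2) ^ 2) := by gcongr
        _ = _ := by ring
    have h2 : ‖Complex.exp (-(2 * π * w / L) ^ 2 / 4) - 1‖ ≤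
        20 * (1 / L ^ 2) * ((1 + w.re ^ 2) * (1 + |w.im|) ^ 2) := by
      have hz : (2 * π * w / L : ℂ) = ((2 * π / L : ℝ) : ℂ) * w := by push_cast; ring
      have hre2 : (-(2 * π * w / L) ^ 2 / 4 : ℂ).re ≤ 1 / 4 := by
        have h3 : (-(2 * π * w / L) ^ 2 / 4 : ℂ) = ((-(2 * π / L) ^ 2 / 4 : ℝ) : ℂ) * (w * w) := by
          rw [hz]
          push_cast
          ring
        rw [h3, Complex.re_ofReal_mul, Complex.mul_re]
        have h4 : (2 * π / L) ^ 2 * (w.im * w.im) ≤ 1 := by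
          have h5 : 2 * π / L * |w.im| ≤ 1 := by
            rw [div_mul_eq_mul_div, div_le_one hL]
            linarith
          have h6 := pow_le_pow_left₀ (by positivity) h5 2
          rw [mul_pow, sq_abs] at h6
          linarith
        have h7 : 0 ≤ (2 * π / L) ^ 2 * (w.re * w.re) := mul_nonneg (sq_nonneg _) (mul_self_nonneg _)
        nlinarith
      refine (exp_sub_one (by norm_num) hre2).trans ?_
      have h3 : ‖(-(2 * π * w / L) ^ 2 / 4 : ℂ)‖ = (2 * π / L) ^ 2 * ‖w‖ ^ 2 / 4 := by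
        rw [hz, norm_div, norm_neg, norm_pow, norm_mul, Complex.norm_real, Real.norm_eq_abs,
          abs_of_pos (by positivity : 0 < 2 * π / L), Complex.norm_ofNat, mul_pow]
      rw [h3]
      have h4 : Real.exp (1 / 4) ≤ 2 := by
        have h5 : Real.exp (1 / 4) ≤ Real.exp (1 / 2) := Real.exp_le_exp.2 (by norm_num)
        have h6 : Real.exp (1 / 2) ^ 2 = Real.exp 1 := by
          rw [← Real.exp_nat_mul]
          norm_num
        have h7 := Real.exp_one_lt_d9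
        have h8 := Real.exp_pos (1 / 2)
        nlinarith
      have h5 := norm_sq_le w
      have h6 : (2 * π / L) ^ 2 ≤ 40 * (1 / L ^ 2) := by
        rw [div_pow, mul_one_div]
        refine div_le_div_of_nonneg_right ?_ (by positivity)
        nlinarith
      calc Real.exp (1 / 4) * ((2 * π / L) ^ 2 * ‖w‖ ^ 2 / 4) ≤
          2 * ((40 * (1 / L ^ 2)) * ((1 + w.re ^ 2) * (1 + |w.im|) ^ 2) / 4) := by gcongr
        _ = _ := by ring
    refine (mul_le_mul h1 h2 (norm_nonneg _) (by positivity)).trans (le_of_eq ?_)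
    field_simp
    ring
  have e0 : CT (Kav K a) (w / s) * Complex.exp (-(2 * π * w / L) ^ 2 / 4) - CT (Kav K a) w =
      (CT (Kav K a) (w / s) - CT (Kav K a) w) +
      CT (Kav K a) (w / s) * (Complex.exp (-(2 * π * w / L) ^ 2 / 4) - 1) := by ring
  rw [e0]
  refine (norm_add_le _ _).trans ((add_le_add p1 p2).trans ?_)
  rw [← add_div]
  refine div_le_div_of_nonneg_right ?_ hx.le
  have h1 := hb3 |w.im| hy
  have h2 : (1 + |w.im|) ^ 3 * E ≤ C3 * Real.exp (c * |w.im|) := by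
    have e1 : Real.exp (c * |w.im|) = Real.exp ((c - 2 * π * κ) * |w.im|) * E := by
      rw [hE, ← Real.exp_add]
      ring_nf
    rw [e1, ← mul_assoc]
    exact mul_le_mul_of_nonneg_right h1 hE0.le
  have h3 : (1 + |w.im|) * E ≤ (1 + |w.im|) ^ 3 * E := by
    refine mul_le_mul_of_nonneg_right ?_ hE0.le
    nlinarith [mul_nonneg hy hy, mul_nonneg (mul_nonneg hy hy) hy]
  have hs : 0 ≤ s - 1 := by linarith
  have hL2 : 0 ≤ 1 / L ^ 2 := by positivity
  calc 16 * C1 * (s - 1) * ((1 + |w.im|) * E) + 320 * C2 * (1 / L ^ 2) * ((1 + |w.im|) ^ 3 * E) ≤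
        16 * C1 * (s - 1) * (C3 * Real.exp (c * |w.im|)) +
          320 * C2 * (1 / L ^ 2) * (C3 * Real.exp (c * |w.im|)) := by
        have := h3.trans h2
        gcongr
    _ ≤ (16 * C1 + 320 * C2) * C3 * (s - 1 + 1 / L ^ 2) * Real.exp (c * |w.im|) := by
        have hC30 : 0 ≤ C3 * Real.exp (c * |w.im|) := by positivity
        have q1 : 0 ≤ C1 * (1 / L ^ 2) * (C3 * Real.exp (c * |w.im|)) := by positivity
        have q2 : 0 ≤ C2 * (s - 1) * (C3 * Real.exp (c * |w.im|)) := by positivity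
        nlinarith

end Pool.Agent.H8.PCU
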