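import Pool.Agent.H8.PCU.K2

/-! # Comparison of the complex kernel with its values on the real line -/

set_option autoImplicit false

open MeasureTheory Filter Topology Real

namespace Pool.Agent.H8.PCU

open Pool.Agent.Y744

variable {κ : ℝ} {K : ℝ → ℝ}

/-- dilation -/
noncomputable def dl (K : ℝ → ℝ) (ε : ℝ) : ℝ → ℝ := fun α => ε⁻¹ * K (ε⁻¹ * α)

lemma dl_TK (h : TK κ K) {ε : ℝ} (hε : 0 < ε) (hε1 : ε ≤ 1) (hκ : 0 < κ) : TK κ (dl K ε) := by
  refine (h.dil hε).mono ?_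
  nlinarith

lemma CT_dl (h : TK κ K) {ε : ℝ} (hε : 0 < ε) (hε1 : ε ≤ 1) (hκ : 0 < κ) (w : ℂ) :
    CT (dl K ε) w = CT K (ε * w) := by
  have h1 := entire_ext (f := CT (dl K ε)) (g := fun w => CT K (ε * w))
    (CT_diff (TK_CK (dl_TK h hε hε1 hκ))) ((CT_diff (TK_CK h)).comp (by fun_prop)) (fun x => by
      show CT (dl K ε) x = CT K (ε * x)
      have e : ((ε : ℂ) * (x : ℂ)) = ((ε * x : ℝ) : ℂ) := by push_cast; ring
      rw [e, CT_real, CT_real]
      congr 1
      exact TK.ct_dil K hε x)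
  exact congrFun h1 w

/-- the derivative of the transform decays -/
lemma dCT_decay (hκ : 0 < κ) (h : TK κ K) : ∃ C, 0 ≤ C ∧ ∀ w : ℂ, ‖deriv (CT K) w‖ ≤
    C * Real.exp (2 * π * κ * |w.im|) / (1 + w.re ^ 2) := by
  obtain ⟨C, hC, hb⟩ := CT_decay' h
  have hpi := Real.pi_pos
  refine ⟨C * Real.exp (2 * π * κ) * 3, by positivity, fun w => ?_⟩
  have h1 := Complex.norm_deriv_le_of_forall_mem_sphere_norm_le (c := w) (R := 1)
    (C := C * Real.exp (2 * π * κ) * 3 * Real.exp (2 * π * κ * |w.im|) / (1 + w.re ^ 2))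
    (f := CT K) one_pos (CT_diff (TK_CK h)).diffContOnCl (fun z hz => by
      refine (hb z).trans ?_
      rw [Metric.mem_sphere, Complex.dist_eq] at hz
      have a1 : |z.re - w.re| ≤ 1 := by
        have := Complex.abs_re_le_norm (z - w)
        rwa [hz, Complex.sub_re] at this
      have a2 : |z.im - w.im| ≤ 1 := by
        have := Complex.abs_im_le_norm (z - w)
        rwa [hz, Complex.sub_im] at this
      have a3 : |z.im| ≤ |w.im| + 1 := by
        have := abs_sub_abs_le_abs_sub z.im w.im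
        linarith
      have a4 : 1 + w.re ^ 2 ≤ 3 * (1 + z.re ^ 2) ^ 2 := by
        have a5 := abs_le.1 a1
        have a6 : (z.re - w.re) ^ 2 ≤ 1 := by nlinarith [a5.1, a5.2]
        have a7 : w.re ^ 2 ≤ 2 * z.re ^ 2 + 2 := by
          nlinarith [sq_nonneg (2 * z.re - w.re), sq_nonneg (z.re + (z.re - w.re))]
        nlinarith [sq_nonneg z.re, sq_nonneg (z.re ^ 2)]
      have a5 : Real.exp (2 * π * κ * |z.im|) ≤
          Real.exp (2 * π * κ) * Real.exp (2 * π * κ * |w.im|) := by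
        rw [← Real.exp_add]
        refine Real.exp_le_exp.2 ?_
        have := mul_le_mul_of_nonneg_left a3 (show 0 ≤ 2 * π * κ by positivity)
        linarith
      rw [div_le_div_iff₀ (by positivity) (by positivity)]
      calc C * Real.exp (2 * π * κ * |z.im|) * (1 + w.re ^ 2) ≤
          C * (Real.exp (2 * π * κ) * Real.exp (2 * π * κ * |w.im|)) *
            (3 * (1 + z.re ^ 2) ^ 2) := by gcongr
        _ = _ := by ring)
  rw [div_one] at h1
  exact h1

/-- the second derivative of the average -/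
lemma d2_bound (hκ : 0 < κ) (h : TK κ K) : ∃ C, 0 ≤ C ∧ ∀ (ε a : ℝ), 0 < ε → ε ≤ 1 → ∀ w : ℂ,
    ‖deriv (fun w => CT (dl K ε) (w + a) - CT (dl K ε) (w - a)) w‖ ≤
      C * ε * Real.exp (2 * π * κ * |w.im|) *
        (1 / (1 + ε ^ 2 * (w.re + a) ^ 2) + 1 / (1 + ε ^ 2 * (w.re - a) ^ 2)) := by
  obtain ⟨C, hC, hb⟩ := dCT_decay hκ h
  have hpi := Real.pi_pos
  refine ⟨C, hC, fun ε a hε hε1 w => ?_⟩
  have hd : ∀ b : ℝ, HasDerivAt (fun w : ℂ => CT (dl K ε) (w + b))
      (ε * deriv (CT K) (ε * (w + b))) w := by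
    intro b
    have e : (fun w : ℂ => CT (dl K ε) (w + b)) = fun w => CT K (ε * (w + b)) :=
      funext fun w => CT_dl h hε hε1 hκ _
    rw [e]
    have h1 : HasDerivAt (fun w : ℂ => (ε : ℂ) * (w + b)) ε w := by
      have := ((hasDerivAt_id w).add_const (b : ℂ)).const_mul (ε : ℂ)
      simpa using this
    have h2 := (CT_diff (TK_CK h) ((ε : ℂ) * (w + b))).hasDerivAt
    have h3 := HasDerivAt.comp w h2 h1
    rw [mul_comm] at h3
    exact h3
  have hn : ∀ b : ℝ, ‖(ε : ℂ) * deriv (CT K) (ε * (w + b))‖ ≤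
      C * ε * Real.exp (2 * π * κ * |w.im|) * (1 / (1 + ε ^ 2 * (w.re + b) ^ 2)) := by
    intro b
    rw [norm_mul, Complex.norm_real, Real.norm_eq_abs, abs_of_pos hε]
    have h1 := hb (ε * (w + b))
    have e1 : ((ε : ℂ) * (w + b)).re = ε * (w.re + b) := by simp
    have e2 : ((ε : ℂ) * (w + b)).im = ε * w.im := by simp
    rw [e1, e2, mul_pow] at h1
    have h2 : Real.exp (2 * π * κ * |ε * w.im|) ≤ Real.exp (2 * π * κ * |w.im|) := by
      refine Real.exp_le_exp.2 (mul_le_mul_of_nonneg_left ?_ (by positivity))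
      rw [abs_mul, abs_of_pos hε]
      nlinarith [abs_nonneg w.im]
    calc ε * ‖deriv (CT K) (ε * (w + b))‖ ≤ ε * (C * Real.exp (2 * π * κ * |w.im|) /
          (1 + ε ^ 2 * (w.re + b) ^ 2)) := by
          refine mul_le_mul_of_nonneg_left (h1.trans ?_) hε.le
          gcongr
      _ = _ := by ring
  have h1 := (hd a).sub (hd (-a))
  simp only [Complex.ofReal_neg, ← sub_eq_add_neg] at h1
  have h2 : deriv (fun w : ℂ => CT (dl K ε) (w + a) - CT (dl K ε) (w - a)) w =
      ε * deriv (CT K) (ε * (w + a)) - ε * deriv (CT K) (ε * (w - a)) := h1.deriv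
  rw [h2]
  have k1 := hn a
  have k2 := hn (-a)
  rw [Complex.ofReal_neg, ← sub_eq_add_neg, ← sub_eq_add_neg] at k2
  refine (norm_sub_le _ _).trans ((add_le_add k1 k2).trans (le_of_eq ?_))
  ring

/-- **the contribution of the distance to the critical line** -/
lemma off_cmp (hκ : 0 < κ) (h : TK κ K) {c : ℝ} (hc : 2 * π * κ < c) : ∃ C, 0 ≤ C ∧
    ∀ (ε a : ℝ), 0 < ε → ε ≤ 1 → 0 < a → ∀ w : ℂ,
    |(CT (Kav (dl K ε) a) w).re - fav (dl K ε) a w.re| ≤
      C * ε * Real.exp (c * |w.im|) *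
        (1 / (1 + ε ^ 2 * (w.re + a) ^ 2) + 1 / (1 + ε ^ 2 * (w.re - a) ^ 2)) := by
  obtain ⟨C1, hC1, hb⟩ := d2_bound hκ h
  obtain ⟨C3, hC3, hb3⟩ := pow3_le (c := c - 2 * π * κ) (by linarith)
  have hpi := Real.pi_pos
  refine ⟨C1 * C3, by positivity, fun ε a hε hε1 ha w => ?_⟩
  have hT := dl_TK h hε hε1 hκ
  have hy := abs_nonneg w.im
  set R := 1 / (1 + ε ^ 2 * (w.re + a) ^ 2) + 1 / (1 + ε ^ 2 * (w.re - a) ^ 2) with hR
  have hR0 : 0 ≤ R := by positivity
  set M := C1 * ε * Real.exp (2 * π * κ * |w.im|) * R with hM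
  have hM0 : 0 ≤ M := by positivity
  set F' : ℂ → ℂ := fun w => CT (dl K ε) (w + a) - CT (dl K ε) (w - a) with hF'
  have hFd : Differentiable ℂ F' := by
    have := CT_diff (TK_CK hT)
    rw [hF']
    exact (this.comp (by fun_prop)).sub (this.comp (by fun_prop))
  have hx0 : ((w.re : ℝ) : ℂ) ∈ Vs w.re |w.im| := ⟨by simp, by simp⟩
  have h1 : ∀ v ∈ Vs w.re |w.im|, ‖F' v - F' (w.re : ℂ)‖ ≤ M * |w.im| := by
    intro v hv
    have h2 := (Vs_convex w.re |w.im|).norm_image_sub_le_of_norm_deriv_le (𝕜 := ℂ) (f := F')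
      (C := M) (x := (w.re : ℂ)) (y := v) (fun v _ => hFd v) (fun v hv => by
        refine (hb ε a hε hε1 v).trans ?_
        rw [hv.1]
        have : Real.exp (2 * π * κ * |v.im|) ≤ Real.exp (2 * π * κ * |w.im|) :=
          Real.exp_le_exp.2 (mul_le_mul_of_nonneg_left hv.2 (by positivity))
        rw [hM, hR]
        gcongr) hx0 hv
    have e1 : ‖v - (w.re : ℂ)‖ = |v.im| := by
      have : v - (w.re : ℂ) = v.im * Complex.I := by
        nth_rewrite 1 [re_im_eta v]
        rw [hv.1]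
        ring
      rw [this, norm_mul, Complex.norm_I, mul_one, Complex.norm_real, Real.norm_eq_abs]
    rw [e1] at h2
    exact h2.trans (mul_le_mul_of_nonneg_left hv.2 hM0)
  have hF0 : (F' (w.re : ℂ)).im = 0 := by
    rw [hF']
    show (CT (dl K ε) ((w.re : ℂ) + a) - CT (dl K ε) ((w.re : ℂ) - a)).im = 0
    rw [← Complex.ofReal_add, ← Complex.ofReal_sub, CT_real, CT_real, Complex.sub_im,
      Complex.ofReal_im, Complex.ofReal_im, sub_zero]
  set φ : ℝ → ℝ := fun t => (CT (Kav (dl K ε) a) ((w.re : ℂ) + t * Complex.I)).re with hφ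
  have hφd : ∀ t : ℝ, HasDerivAt φ (-(F' ((w.re : ℂ) + t * Complex.I)).im) t := by
    intro t
    have d1 := Kav_hasDeriv hT a ((w.re : ℂ) + t * Complex.I)
    have d2 : HasDerivAt (fun t : ℝ => (w.re : ℂ) + t * Complex.I) Complex.I t := by
      have := ((Complex.ofRealCLM.hasDerivAt (x := t)).mul_const Complex.I).const_add (w.re : ℂ)
      simpa using this
    have d3 := HasDerivAt.scomp t d1 d2
    have d4 := Complex.reCLM.hasFDerivAt.comp_hasDerivAt t d3
    refine d4.congr_deriv ?_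
    show (Complex.I • F' ((w.re : ℂ) + t * Complex.I)).re = _
    rw [smul_eq_mul, Complex.I_mul_re]
  have hconv : Convex ℝ {t : ℝ | |t| ≤ |w.im|} := by
    have : {t : ℝ | |t| ≤ |w.im|} = Set.Icc (-|w.im|) |w.im| := by
      ext t
      show |t| ≤ |w.im| ↔ -|w.im| ≤ t ∧ t ≤ |w.im|
      exact abs_le
    rw [this]
    exact convex_Icc _ _
  have h2 := hconv.norm_image_sub_le_of_norm_deriv_le (𝕜 := ℝ) (f := φ)
    (C := M * |w.im|) (x := 0) (y := w.im) (fun t _ => (hφd t).differentiableAt) (fun t ht => by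
      rw [(hφd t).deriv, norm_neg, Real.norm_eq_abs]
      have h3 := h1 ((w.re : ℂ) + t * Complex.I) ⟨by simp, by simpa using ht⟩
      have h4 := Complex.abs_im_le_norm (F' ((w.re : ℂ) + t * Complex.I) - F' (w.re : ℂ))
      rw [Complex.sub_im, hF0, sub_zero] at h4
      exact h4.trans h3) (by
        show |(0 : ℝ)| ≤ |w.im|
        rw [abs_zero]
        exact hy) (by
        show |w.im| ≤ |w.im|
        exact le_rfl)
  have e1 : φ w.im = (CT (Kav (dl K ε) a) w).re := by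
    rw [hφ]
    show (CT (Kav (dl K ε) a) ((w.re : ℂ) + w.im * Complex.I)).re = _
    rw [← re_im_eta w]
  have e2 : φ 0 = fav (dl K ε) a w.re := by
    rw [hφ]
    show (CT (Kav (dl K ε) a) ((w.re : ℂ) + (0 : ℝ) * Complex.I)).re = _
    rw [Complex.ofReal_zero, zero_mul, add_zero, CT_Kav_real hT ha, Complex.ofReal_re]
  rw [e1, e2, Real.norm_eq_abs, Real.norm_eq_abs, sub_zero] at h2
  refine h2.trans ?_
  have h3 := hb3 |w.im| hy
  have h4 : |w.im| * |w.im| ≤ (1 + |w.im|) ^ 3 := by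
    nlinarith [mul_nonneg hy hy, mul_nonneg (mul_nonneg hy hy) hy]
  have e3 : Real.exp (c * |w.im|) = Real.exp ((c - 2 * π * κ) * |w.im|) *
      Real.exp (2 * π * κ * |w.im|) := by
    rw [← Real.exp_add]
    ring_nf
  have h5 : C1 * ε * R * Real.exp (2 * π * κ * |w.im|) * (|w.im| * |w.im|) ≤
      C1 * ε * R * Real.exp (2 * π * κ * |w.im|) *
        (C3 * Real.exp ((c - 2 * π * κ) * |w.im|)) :=
    mul_le_mul_of_nonneg_left (h4.trans h3) (by positivity)
  rw [e3]
  calc M * |w.im| * |w.im| = C1 * ε * R * Real.exp (2 * π * κ * |w.im|) * (|w.im| * |w.im|) := by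
        rw [hM]; ring
    _ ≤ _ := h5
    _ = _ := by ring

end Pool.Agent.H8.PCU
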