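import Pool.Graph.R_pool_sql_team_seeded_3997aac3.Q97.UM.Base7
import Pool.Graph.R_seed8.Y744.PCR.NTb

/-! # Moments of weighted local counts of the zeros up to height `T` -/

set_option autoImplicit false

open MeasureTheory Filter Topology Real

namespace Pool.Agent.H8.PCU

open H370 TH803TW Pool.Agent.Y744

/-- the input: fourth moments at the zeros of the exponentially weighted local counts -/
theorem base_dsc : ∃ δ C T1 : ℝ, 0 < δ ∧ 0 ≤ C ∧ 3 ≤ T1 ∧ ∀ T : ℝ, T1 ≤ T →
    ∑ s ∈ Zb T (2 * T), mz s * Pool.Agent.Q97.UM.SS δ T s.im ^ 4 ≤ C * (Real.log T * T) := by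
  obtain ⟨θ, c, C, hθ, hθ1, hc, hC, hT⟩ := Pool.Agent.Q97.UM.b_TAIL
  obtain ⟨C1, hC1, h1⟩ := Pool.Agent.Q97.UM.b_STM θ c C hθ hθ1 hc hC hT 5 (c / 96) (by positivity)
    (by push_cast; linarith)
  obtain ⟨C2, hC2, h2⟩ := Pool.Agent.Q97.UM.b_DSC (θ / 2) (c / 96) 4 C1 (by positivity)
    (by linarith) (by positivity) hC1 h1
  obtain ⟨T1, hT1⟩ := h2.exists_forall_of_atTop
  refine ⟨c / 96, C2, max 3 T1, by positivity, hC2, le_max_left _ _, fun T hT => ?_⟩
  have hT3 : 3 ≤ T := (le_max_left _ _).trans hT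
  have h3 := hT1 T ((le_max_right _ _).trans hT) 1 (by
    rw [Nat.cast_one]
    exact Real.one_le_rpow (by linarith) (by positivity)) (fun _ => 1)
  have hdp : ∀ t : ℝ, Pool.Agent.Q97.UM.dp 1 (fun _ => 1) t = 1 := by
    intro t
    unfold Pool.Agent.Q97.UM.dp
    simp
  have hN2 : Pool.Agent.Q97.UM.N2 1 (fun _ => 1) = 1 := by
    unfold Pool.Agent.Q97.UM.N2
    simp
  rw [hN2, mul_one] at h3
  refine le_trans (le_of_eq ?_) (h3.trans (le_of_eq (by ring)))
  unfold Zb
  refine Finset.sum_congr rfl fun s _ => ?_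
  rw [hdp, norm_one, one_pow, mul_one]
  rfl

/-- the weighted multiplicity -/
noncomputable def wt (δ T : ℝ) (s : ℂ) : ℝ :=
  mz s * Real.exp (2 * δ * (Real.log T * |s.re - 1 / 2|))

/-- the weighted count of the zeros within `1 / log T` -/
noncomputable def GT (δ T : ℝ) (s : ℂ) : ℝ :=
  ∑ s' ∈ Zt (2 * T), wt δ T s' * (if |s.im - s'.im| ≤ 1 / Real.log T then 1 else 0)

lemma wt_nonneg (δ T : ℝ) (s : ℂ) : 0 ≤ wt δ T s := mul_nonneg (mz_nonneg s) (Real.exp_pos _).le

lemma GT_nonneg (δ T : ℝ) (s : ℂ) : 0 ≤ GT δ T s := by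
  unfold GT
  refine Finset.sum_nonneg fun s' _ => mul_nonneg (wt_nonneg _ _ _) ?_
  split_ifs
  · exact zero_le_one
  · exact le_rfl

lemma mz_one {T : ℝ} {s : ℂ} (hs : s ∈ Zt T) : 1 ≤ mz s := by
  rw [mem_Zt] at hs
  obtain ⟨h1, h2, h3, h4, h5⟩ := hs
  unfold mz
  have := Loc.mult_pos' good_zeta h3 h5
  exact_mod_cast this

lemma mz_le_wt {δ T : ℝ} (hδ : 0 ≤ δ) (hT : 1 ≤ T) (s : ℂ) : mz s ≤ wt δ T s := by
  unfold wt
  refine le_mul_of_one_le_right (mz_nonneg s) (Real.one_le_exp ?_)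
  have := Real.log_nonneg hT
  positivity

lemma exp_le_wt {δ T V : ℝ} {s : ℂ} (hs : s ∈ Zt V) :
    Real.exp (2 * δ * (Real.log T * |s.re - 1 / 2|)) ≤ wt δ T s := by
  unfold wt
  exact le_mul_of_one_le_left (Real.exp_pos _).le (mz_one hs)

lemma wt_le_GT {δ T : ℝ} (hT : 1 ≤ T) {s : ℂ} (hs : s ∈ Zt (2 * T)) : wt δ T s ≤ GT δ T s := by
  unfold GT
  have h0 := Real.log_nonneg hT
  have h1 : wt δ T s = wt δ T s * (if |s.im - s.im| ≤ 1 / Real.log T then 1 else 0) := by
    rw [sub_self, abs_zero, if_pos (by positivity), mul_one]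
  rw [h1]
  refine Finset.single_le_sum (f := fun s' => wt δ T s' *
    (if |s.im - s'.im| ≤ 1 / Real.log T then 1 else 0)) (fun s' _ => ?_) hs
  refine mul_nonneg (wt_nonneg _ _ _) ?_
  split_ifs
  · exact zero_le_one
  · exact le_rfl

lemma wt_le_rpow {δ T : ℝ} (hδ : 0 ≤ δ) (hT : 1 ≤ T) {V : ℝ} {s : ℂ} (hs : s ∈ Zt V) :
    wt δ T s ≤ mz s * T ^ δ := by
  unfold wt
  refine mul_le_mul_of_nonneg_left ?_ (mz_nonneg s)
  rw [mem_Zt] at hs
  obtain ⟨h1, h2, h3, h4, h5⟩ := hs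
  rw [Real.rpow_def_of_pos (by linarith)]
  refine Real.exp_le_exp.2 ?_
  have h6 : |s.re - 1 / 2| ≤ 1 / 2 := by rw [abs_le]; constructor <;> linarith
  have h7 := Real.log_nonneg hT
  have h8 : Real.log T * |s.re - 1 / 2| ≤ Real.log T * (1 / 2) := mul_le_mul_of_nonneg_left h6 h7
  have h9 := mul_le_mul_of_nonneg_left h8 (show 0 ≤ 2 * δ by positivity)
  linarith

/-- comparison with the function of the library -/
lemma GT_le_SS {δ δ' T V : ℝ} (hV : 16 ≤ V) (hVT : V ≤ T)
    (hδ' : δ * Real.log T ≤ δ' * Real.log V) {s : ℂ} (hs : s ∈ Zb V (2 * V)) :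
    GT δ T s ≤ 4 * Pool.Agent.Q97.UM.SS δ' V s.im := by
  classical
  have hLV : 1 ≤ Real.log V := by
    rw [Real.le_log_iff_exp_le (by linarith)]
    linarith [Real.exp_one_lt_d9]
  have hLT : Real.log V ≤ Real.log T := Real.log_le_log (by linarith) hVT
  rw [mem_Zb (by linarith)] at hs
  obtain ⟨a1, a2, a3, a4, a5⟩ := hs
  unfold GT
  have h1 : ∑ s' ∈ Zt (2 * T), wt δ T s' * (if |s.im - s'.im| ≤ 1 / Real.log T then 1 else 0) =
      ∑ s' ∈ (Zt (2 * T)).filter (fun s' => |s.im - s'.im| ≤ 1 / Real.log T), wt δ T s' := by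
    rw [Finset.sum_filter]
    refine Finset.sum_congr rfl fun s' _ => ?_
    split_ifs <;> simp
  have hsub : (Zt (2 * T)).filter (fun s' => |s.im - s'.im| ≤ 1 / Real.log T) ⊆
      Pool.Agent.Q97.UM.ZD V := by
    intro s' hs'
    rw [Finset.mem_filter, mem_Zt] at hs'
    obtain ⟨⟨b1, b2, b3, b4, b5⟩, h6⟩ := hs'
    have h7 : 1 / Real.log T ≤ 1 := by
      rw [div_le_one (by linarith)]
      linarith
    have h8 := abs_le.1 (h6.trans h7)
    unfold Pool.Agent.Q97.UM.ZD
    rw [mem_Zf good_zeta (by linarith)]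
    exact ⟨b1, b2, by linarith, by linarith [h8.1], b5⟩
  rw [h1]
  unfold Pool.Agent.Q97.UM.SS
  rw [Finset.mul_sum]
  calc ∑ s' ∈ (Zt (2 * T)).filter (fun s' => |s.im - s'.im| ≤ 1 / Real.log T), wt δ T s' ≤
        ∑ s' ∈ (Zt (2 * T)).filter (fun s' => |s.im - s'.im| ≤ 1 / Real.log T),
          4 * ((Pool.Agent.Q97.UM.mz s' : ℝ) * (Real.exp (2 * δ' * (Real.log V * |s'.re - 1 / 2|)) /
            (1 + Real.log V * |s'.im - s.im|) ^ 2)) := by
        refine Finset.sum_le_sum fun s' hs' => ?_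
        have h6 := (Finset.mem_filter.1 hs').2
        have h7 : Real.log V * |s'.im - s.im| ≤ 1 := by
          rw [abs_sub_comm]
          rw [le_div_iff₀ (by linarith)] at h6
          have : Real.log V * |s.im - s'.im| ≤ Real.log T * |s.im - s'.im| :=
            mul_le_mul_of_nonneg_right hLT (abs_nonneg _)
          linarith
        have h8 : 0 ≤ Real.log V * |s'.im - s.im| := by positivity
        have h9 : (1 + Real.log V * |s'.im - s.im|) ^ 2 ≤ 4 := by nlinarith
        have h10 : 0 < (1 + Real.log V * |s'.im - s.im|) ^ 2 := by positivity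
        have h11 : 2 * δ * (Real.log T * |s'.re - 1 / 2|) ≤
            2 * δ' * (Real.log V * |s'.re - 1 / 2|) := by
          have := mul_le_mul_of_nonneg_right hδ' (abs_nonneg (s'.re - 1 / 2))
          linarith
        have h12 := Real.exp_le_exp.2 h11
        have h13 : Real.exp (2 * δ * (Real.log T * |s'.re - 1 / 2|)) ≤
            4 * (Real.exp (2 * δ' * (Real.log V * |s'.re - 1 / 2|)) /
              (1 + Real.log V * |s'.im - s.im|) ^ 2) := by
          rw [← mul_div_assoc, le_div_iff₀ h10]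
          have h14 := Real.exp_pos (2 * δ * (Real.log T * |s'.re - 1 / 2|))
          nlinarith
        have h15 := mul_le_mul_of_nonneg_left h13 (mz_nonneg s')
        unfold wt
        refine h15.trans (le_of_eq ?_)
        show mz s' * _ = 4 * (mz s' * _)
        ring
    _ ≤ _ := by
        refine Finset.sum_le_sum_of_subset_of_nonneg hsub fun s' _ _ => ?_
        positivity

/-- crude count -/
lemma NN_crude : ∃ U1 : ℝ, 10 ≤ U1 ∧ ∀ U : ℝ, U1 ≤ U → (NN riemannZeta 0 U : ℝ) ≤ U ^ 2 := by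
  obtain ⟨C, T0, hC, hT0, h⟩ := Pool.Agent.W54.TCF.NT_asymp
  refine ⟨max T0 (2 * C + 2), hT0.trans (le_max_left _ _), fun U hU => ?_⟩
  have hU0 : T0 ≤ U := (le_max_left _ _).trans hU
  have hU1 : 2 * C + 2 ≤ U := (le_max_right _ _).trans hU
  have h1 := (abs_le.1 (h U hU0)).2
  have hpi := Real.pi_gt_three
  have hU2 : 0 < U := by linarith
  have h2 : Real.log U ≤ U := (Real.log_le_sub_one_of_pos hU2).trans (by linarith)
  have h3 : U * Real.log U / (2 * Real.pi) ≤ U * U / 2 := by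
    rw [div_le_div_iff₀ (by positivity) (by norm_num)]
    have h4 : U * Real.log U ≤ U * U := mul_le_mul_of_nonneg_left h2 hU2.le
    have h5 : 0 ≤ U * U := by positivity
    nlinarith
  nlinarith

theorem mom : ∃ δ C T0 : ℝ, 0 < δ ∧ δ ≤ 1 / 64 ∧ 0 ≤ C ∧ 16 ≤ T0 ∧ ∀ T : ℝ, T0 ≤ T → ∀ V : ℝ,
    0 ≤ V → V ≤ T →
    ∑ s ∈ Zt V, mz s * GT δ T s ^ 4 ≤ T ^ (1 / 2 : ℝ) + C * (V * Real.log T) := by
  obtain ⟨δ', C', T1, hδ', hC', hT1, hb⟩ := base_dsc
  obtain ⟨U1, hU1, hcr⟩ := NN_crude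
  set δ : ℝ := min (δ' / 32) (1 / 64) with hδ
  have hδ0 : 0 < δ := lt_min (by positivity) (by norm_num)
  have hδ1 : δ ≤ 1 / 64 := min_le_right _ _
  have hδ2 : 32 * δ ≤ δ' := by
    have := min_le_left (δ' / 32) (1 / 64)
    linarith
  have ev1 : ∀ᶠ T : ℝ in atTop, max (max T1 U1) 16 ≤ T ^ (1 / 32 : ℝ) :=
    (tendsto_rpow_atTop (by norm_num)).eventually_ge_atTop _
  have ev2 : ∀ᶠ T : ℝ in atTop, (3 : ℝ) ^ 10 ≤ T ^ (1 / 8 : ℝ) :=
    (tendsto_rpow_atTop (by norm_num)).eventually_ge_atTop _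
  obtain ⟨T2, hT2⟩ := (ev1.and ev2).exists_forall_of_atTop
  refine ⟨δ, 256 * C', max 16 T2, hδ0, hδ1, by positivity, le_max_left _ _, fun T hT => ?_⟩
  have hT16 : 16 ≤ T := (le_max_left _ _).trans hT
  have hTpos : 0 < T := by linarith
  obtain ⟨e1, e2⟩ := hT2 T ((le_max_right _ _).trans hT)
  set U0 : ℝ := T ^ (1 / 32 : ℝ) with hU0
  have hU0T1 : T1 ≤ U0 := ((le_max_left _ _).trans (le_max_left _ _)).trans e1
  have hU0U1 : U1 ≤ U0 := ((le_max_right _ _).trans (le_max_left _ _)).trans e1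
  have hU016 : 16 ≤ U0 := (le_max_right _ _).trans e1
  have hlT : 0 ≤ Real.log T := Real.log_nonneg (by linarith)
  have hlU0 : Real.log U0 = 1 / 32 * Real.log T := by
    rw [hU0, Real.log_rpow hTpos]
  have hU0T : U0 ≤ T := by
    rw [hU0]
    calc T ^ (1 / 32 : ℝ) ≤ T ^ (1 : ℝ) := Real.rpow_le_rpow_of_exponent_le (by linarith)
          (by norm_num)
      _ = T := Real.rpow_one T
  have hL1 : 1 ≤ Real.log T := by
    rw [Real.le_log_iff_exp_le (by linarith)]
    linarith [Real.exp_one_lt_d9]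
  -- the low part
  have hlow : ∀ V : ℝ, V ≤ 2 * U0 → ∑ s ∈ Zt V, mz s * GT δ T s ^ 4 ≤ T ^ (1 / 2 : ℝ) := by
    intro V hV
    set N : ℝ := (NN riemannZeta 0 (3 * U0) : ℝ) with hN
    have hN0 : 0 ≤ N := Nat.cast_nonneg _
    have hNb : N ≤ (3 * U0) ^ 2 := hcr (3 * U0) (by linarith)
    have hsumN : ∀ W : ℝ, W ≤ 3 * U0 → ∑ s ∈ Zt W, mz s ≤ N := by
      intro W hW
      rw [hN, ← sum_Zt]
      refine Finset.sum_le_sum_of_subset_of_nonneg (fun s hs => ?_) fun s _ _ => mz_nonneg s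
      rw [mem_Zt] at hs ⊢
      exact ⟨hs.1, hs.2.1, hs.2.2.1, hs.2.2.2.1.trans hW, hs.2.2.2.2⟩
    have hG : ∀ s ∈ Zt V, GT δ T s ≤ N * T ^ δ := by
      intro s hs
      rw [mem_Zt] at hs
      unfold GT
      calc ∑ s' ∈ Zt (2 * T), wt δ T s' * (if |s.im - s'.im| ≤ 1 / Real.log T then 1 else 0) ≤
            ∑ s' ∈ Zt (2 * T), (if s' ∈ Zt (3 * U0) then mz s' * T ^ δ else 0) := by
            refine Finset.sum_le_sum fun s' hs' => ?_
            by_cases h : |s.im - s'.im| ≤ 1 / Real.log T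
            · have h1 : 1 / Real.log T ≤ 1 := by
                rw [div_le_one (by linarith)]
                exact hL1
              have h2 := abs_le.1 (h.trans h1)
              have h3 : s' ∈ Zt (3 * U0) := by
                rw [mem_Zt] at hs' ⊢
                exact ⟨hs'.1, hs'.2.1, hs'.2.2.1, by linarith [h2.1, hs.2.2.2.1], hs'.2.2.2.2⟩
              rw [if_pos h, if_pos h3, mul_one]
              exact wt_le_rpow hδ0.le (by linarith) hs'
            · rw [if_neg h, mul_zero]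
              split_ifs
              · exact mul_nonneg (mz_nonneg _) (Real.rpow_nonneg hTpos.le _)
              · exact le_rfl
        _ = ∑ s' ∈ (Zt (2 * T)).filter (fun s' => s' ∈ Zt (3 * U0)), mz s' * T ^ δ := by
            rw [Finset.sum_filter]
        _ ≤ ∑ s' ∈ Zt (3 * U0), mz s' * T ^ δ := by
            refine Finset.sum_le_sum_of_subset_of_nonneg (fun s hs => (Finset.mem_filter.1 hs).2)
              fun s _ _ => mul_nonneg (mz_nonneg _) (Real.rpow_nonneg hTpos.le _)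
        _ = (∑ s' ∈ Zt (3 * U0), mz s') * T ^ δ := by rw [Finset.sum_mul]
        _ ≤ N * T ^ δ := mul_le_mul_of_nonneg_right (hsumN _ le_rfl)
            (Real.rpow_nonneg hTpos.le _)
    calc ∑ s ∈ Zt V, mz s * GT δ T s ^ 4 ≤ ∑ s ∈ Zt V, mz s * (N * T ^ δ) ^ 4 := by
          refine Finset.sum_le_sum fun s hs => mul_le_mul_of_nonneg_left ?_ (mz_nonneg s)
          exact pow_le_pow_left₀ (GT_nonneg _ _ _) (hG s hs) 4
      _ = (∑ s ∈ Zt V, mz s) * (N * T ^ δ) ^ 4 := by rw [Finset.sum_mul]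
      _ ≤ N * (N * T ^ δ) ^ 4 := mul_le_mul_of_nonneg_right (hsumN V (by linarith)) (by positivity)
      _ = N ^ 5 * (T ^ δ) ^ 4 := by ring
      _ ≤ ((3 * U0) ^ 2) ^ 5 * (T ^ (1 / 64 : ℝ)) ^ 4 := by
          refine mul_le_mul (pow_le_pow_left₀ hN0 hNb 5) ?_ (by positivity) (by positivity)
          refine pow_le_pow_left₀ (Real.rpow_nonneg hTpos.le _) ?_ 4
          exact Real.rpow_le_rpow_of_exponent_le (by linarith) hδ1
      _ = 3 ^ 10 * (U0 ^ 10 * (T ^ (1 / 64 : ℝ)) ^ 4) := by ring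
      _ = 3 ^ 10 * T ^ (3 / 8 : ℝ) := by
          have h1 : U0 ^ 10 = T ^ (10 / 32 : ℝ) := by
            rw [hU0, ← Real.rpow_natCast, ← Real.rpow_mul hTpos.le]
            norm_num
          have h2 : (T ^ (1 / 64 : ℝ)) ^ 4 = T ^ (4 / 64 : ℝ) := by
            rw [← Real.rpow_natCast, ← Real.rpow_mul hTpos.le]
            norm_num
          rw [h1, h2, ← Real.rpow_add hTpos]
          norm_num
      _ ≤ T ^ (1 / 8 : ℝ) * T ^ (3 / 8 : ℝ) :=
          mul_le_mul_of_nonneg_right e2 (Real.rpow_nonneg hTpos.le _)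
      _ = T ^ (1 / 2 : ℝ) := by
          rw [← Real.rpow_add hTpos]
          norm_num
  have hblk : ∀ V : ℝ, U0 ≤ V → V ≤ T →
      ∑ s ∈ Zb V (2 * V), mz s * GT δ T s ^ 4 ≤ 256 * C' * (V * Real.log T) := by
    intro V hV hVT
    have hlV : Real.log U0 ≤ Real.log V := Real.log_le_log (by linarith) hV
    have hlVT : Real.log V ≤ Real.log T := Real.log_le_log (by linarith) hVT
    have hd : δ * Real.log T ≤ δ' * Real.log V := by
      rw [hlU0] at hlV
      have h1 : δ * Real.log T ≤ δ * (32 * Real.log V) :=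
        mul_le_mul_of_nonneg_left (by linarith) hδ0.le
      have h2 : 32 * δ * Real.log V ≤ δ' * Real.log V :=
        mul_le_mul_of_nonneg_right hδ2 (by linarith)
      linarith
    calc ∑ s ∈ Zb V (2 * V), mz s * GT δ T s ^ 4 ≤
          ∑ s ∈ Zb V (2 * V), 256 * (mz s * Pool.Agent.Q97.UM.SS δ' V s.im ^ 4) := by
          refine Finset.sum_le_sum fun s hs => ?_
          have h1 := pow_le_pow_left₀ (GT_nonneg _ _ _)
            (GT_le_SS (δ := δ) (δ' := δ') (hU016.trans hV) hVT hd hs) 4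
          have h2 := mul_le_mul_of_nonneg_left h1 (mz_nonneg s)
          refine h2.trans (le_of_eq ?_)
          ring
      _ = 256 * ∑ s ∈ Zb V (2 * V), mz s * Pool.Agent.Q97.UM.SS δ' V s.im ^ 4 := by
          rw [Finset.mul_sum]
      _ ≤ 256 * (C' * (Real.log V * V)) :=
          mul_le_mul_of_nonneg_left (hb V (hU0T1.trans hV)) (by norm_num)
      _ ≤ 256 * (C' * (Real.log T * V)) := by
          have : 0 ≤ V := by linarith
          gcongr
      _ = _ := by ring
  have hmain : ∀ n : ℕ, ∀ V : ℝ, 0 ≤ V → V ≤ T → V ≤ 2 ^ n * (2 * U0) →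
      ∑ s ∈ Zt V, mz s * GT δ T s ^ 4 ≤ T ^ (1 / 2 : ℝ) + 256 * C' * (V * Real.log T) := by
    intro n
    induction n with
    | zero =>
      intro V hV0 hVT hV
      rw [pow_zero, one_mul] at hV
      have h1 := hlow V hV
      have : 0 ≤ 256 * C' * (V * Real.log T) := by positivity
      linarith
    | succ n ih =>
      intro V hV0 hVT hV
      rcases le_or_gt V (2 * U0) with h | h
      · have h1 := hlow V h
        have : 0 ≤ 256 * C' * (V * Real.log T) := by positivity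
        linarith
      · set W := V / 2 with hW
        have hVW : V = 2 * W := by rw [hW]; ring
        have hWU : U0 ≤ W := by linarith
        have h1 := ih W (by linarith) (by linarith) (by
          rw [pow_succ] at hV
          linarith)
        have h2 := hblk W hWU (by linarith)
        rw [hVW, Zt_split (V := W) (T := 2 * W) (by linarith) (by linarith),
          Finset.sum_union (Zt_disj (by linarith))]
        have e : 256 * C' * (2 * W * Real.log T) = 256 * C' * (W * Real.log T) +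
          256 * C' * (W * Real.log T) := by ring
        rw [e]
        linarith
  intro V hV0 hVT
  obtain ⟨n, hn⟩ := pow_unbounded_of_one_lt (V / (2 * U0)) (one_lt_two)
  refine hmain n V hV0 hVT ?_
  rw [div_lt_iff₀ (by linarith)] at hn
  exact hn.le

end Pool.Agent.H8.PCU
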