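import Pool.Graph.R_seed8.Y744.PCR.NTa

/-! # Pair sums with a shifted, dilated kernel -/

set_option autoImplicit false

open MeasureTheory Filter Topology Real

namespace Pool.Agent.H8.PCU

open TH803TW Pool.Agent.Y744

/-- indicator function of the interval of radius `η` -/
noncomputable def Ik (η p t : ℝ) : ℝ := (Set.Icc (p - η) (p + η)).indicator (fun _ => (1 : ℝ)) t

/-- the tent function -/
noncomputable def tn (η u : ℝ) : ℝ := max 0 (2 * η - |u|)

lemma Ik_mul (η p q t : ℝ) : Ik η p t * Ik η q t =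
    (Set.Icc (max (p - η) (q - η)) (min (p + η) (q + η))).indicator (fun _ => (1 : ℝ)) t := by
  unfold Ik
  have h0 : Set.Icc (max (p - η) (q - η)) (min (p + η) (q + η)) =
      Set.Icc (p - η) (p + η) ∩ Set.Icc (q - η) (q + η) := Set.Icc_inter_Icc.symm
  by_cases h1 : t ∈ Set.Icc (p - η) (p + η)
  · by_cases h2 : t ∈ Set.Icc (q - η) (q + η)
    · have h3 : t ∈ Set.Icc (max (p - η) (q - η)) (min (p + η) (q + η)) := by
        rw [h0]
        exact ⟨h1, h2⟩
      rw [Set.indicator_of_mem h1, Set.indicator_of_mem h2, Set.indicator_of_mem h3, mul_one]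
    · have h3 : t ∉ Set.Icc (max (p - η) (q - η)) (min (p + η) (q + η)) := by
        rw [h0]
        exact fun h => h2 h.2
      rw [Set.indicator_of_notMem h2, Set.indicator_of_notMem h3, mul_zero]
  · have h3 : t ∉ Set.Icc (max (p - η) (q - η)) (min (p + η) (q + η)) := by
      rw [h0]
      exact fun h => h1 h.1
    rw [Set.indicator_of_notMem h1, Set.indicator_of_notMem h3, zero_mul]

lemma Ik_mul_int (η p q : ℝ) : Integrable fun t => Ik η p t * Ik η q t := by
  simp_rw [Ik_mul]
  exact (integrable_indicator_iff measurableSet_Icc).2 (by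
    rw [integrableOn_const_iff]
    right
    rw [Real.volume_Icc]
    exact ENNReal.ofReal_lt_top)

lemma int_Ik (η p q : ℝ) : ∫ t, Ik η p t * Ik η q t = tn η (p - q) := by
  simp_rw [Ik_mul]
  rw [integral_indicator measurableSet_Icc, setIntegral_const, smul_eq_mul, mul_one,
    Real.volume_real_Icc]
  unfold tn
  rw [max_comm]
  congr 1
  rcases le_total p q with h | h
  · rw [min_eq_left (by linarith), max_eq_right (by linarith), abs_of_nonpos (by linarith)]
    ring
  · rw [min_eq_right (by linarith), max_eq_left (by linarith), abs_of_nonneg (by linarith)]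
    ring

variable {ι : Type*}

lemma int_UU (S S' : Finset ι) (m x y : ι → ℝ) (η : ℝ) :
    Integrable (fun t => (∑ s ∈ S, m s * Ik η (x s) t) * ∑ s ∈ S', m s * Ik η (y s) t) ∧
    ∫ t, (∑ s ∈ S, m s * Ik η (x s) t) * ∑ s ∈ S', m s * Ik η (y s) t =
      ∑ s ∈ S, ∑ s' ∈ S', m s * m s' * tn η (x s - y s') := by
  have e : ∀ t, (∑ s ∈ S, m s * Ik η (x s) t) * ∑ s ∈ S', m s * Ik η (y s) t =
      ∑ s ∈ S, ∑ s' ∈ S', m s * m s' * (Ik η (x s) t * Ik η (y s') t) := by
    intro t
    rw [Finset.sum_mul_sum]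
    refine Finset.sum_congr rfl fun s _ => Finset.sum_congr rfl fun s' _ => ?_
    ring
  simp_rw [e]
  constructor
  · exact integrable_finsetSum _ fun s _ => integrable_finsetSum _ fun s' _ =>
      (Ik_mul_int _ _ _).const_mul _
  · rw [integral_finsetSum _ fun s _ => integrable_finsetSum _ fun s' _ =>
      (Ik_mul_int _ _ _).const_mul _]
    refine Finset.sum_congr rfl fun s _ => ?_
    rw [integral_finsetSum _ fun s' _ => (Ik_mul_int _ _ _).const_mul _]
    refine Finset.sum_congr rfl fun s' _ => ?_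
    rw [integral_const_mul, int_Ik]

/-- the number of pairs at a given distance is at most the number of close pairs -/
lemma tn_shift (S : Finset ι) (m x : ι → ℝ) (η w : ℝ) :
    ∑ s ∈ S, ∑ s' ∈ S, m s * m s' * tn η (x s - x s' - w) ≤
      ∑ s ∈ S, ∑ s' ∈ S, m s * m s' * tn η (x s - x s') := by
  obtain ⟨i1, e1⟩ := int_UU S S m x (fun s => x s + w) η
  obtain ⟨i2, e2⟩ := int_UU S S m x x η
  obtain ⟨i3, e3⟩ := int_UU S S m (fun s => x s + w) (fun s => x s + w) η
  have h1 : ∑ s ∈ S, ∑ s' ∈ S, m s * m s' * tn η (x s - x s' - w) =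
      ∑ s ∈ S, ∑ s' ∈ S, m s * m s' * tn η (x s - (x s' + w)) := by
    refine Finset.sum_congr rfl fun s _ => Finset.sum_congr rfl fun s' _ => ?_
    congr 2
    ring
  have h3 : ∑ s ∈ S, ∑ s' ∈ S, m s * m s' * tn η (x s + w - (x s' + w)) =
      ∑ s ∈ S, ∑ s' ∈ S, m s * m s' * tn η (x s - x s') := by
    refine Finset.sum_congr rfl fun s _ => Finset.sum_congr rfl fun s' _ => ?_
    congr 2
    ring
  rw [h3] at e3
  rw [h1, ← e1]
  have h4 := integral_mono i1 ((i2.add i3).div_const 2) (fun t => by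
    show (∑ s ∈ S, m s * Ik η (x s) t) * (∑ s ∈ S, m s * Ik η (x s + w) t) ≤
      ((∑ s ∈ S, m s * Ik η (x s) t) * (∑ s ∈ S, m s * Ik η (x s) t) +
        (∑ s ∈ S, m s * Ik η (x s + w) t) * (∑ s ∈ S, m s * Ik η (x s + w) t)) / 2
    nlinarith [sq_nonneg ((∑ s ∈ S, m s * Ik η (x s) t) - ∑ s ∈ S, m s * Ik η (x s + w) t)])
  refine h4.trans (le_of_eq ?_)
  show ∫ t, ((∑ s ∈ S, m s * Ik η (x s) t) * (∑ s ∈ S, m s * Ik η (x s) t) +
        (∑ s ∈ S, m s * Ik η (x s + w) t) * (∑ s ∈ S, m s * Ik η (x s + w) t)) / 2 = _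
  rw [integral_div, integral_add i2 i3, e2, e3]
  ring

lemma tn_le (η u : ℝ) : tn η u ≤ 2 * η * (if |u| ≤ 2 * η then 1 else 0) := by
  unfold tn
  split_ifs with h
  · rw [mul_one]
    exact max_le ((abs_nonneg u).trans h) (by linarith [abs_nonneg u])
  · push Not at h
    rw [mul_zero]
    exact max_le le_rfl (by linarith)

lemma le_tn {η u : ℝ} (h : |u| ≤ η) : η ≤ tn η u := by
  unfold tn
  exact le_max_of_le_right (by linarith)

lemma tn_nonneg (η u : ℝ) : 0 ≤ tn η u := le_max_left _ _

/-- pair sums with the kernel `1 / (1 + ε² (X - h)²)` -/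
theorem pair_kernel (S : Finset ι) {m x : ι → ℝ} (hm : ∀ s, 0 ≤ m s) {L : ℝ} (hL : 0 < L)
    {ε : ℝ} (hε : 0 < ε) (hε1 : ε ≤ 1) (h : ℝ) :
    ∑ s ∈ S, ∑ s' ∈ S, m s * m s' * (1 / (1 + ε ^ 2 * ((x s - x s') * L / (2 * π) - h) ^ 2)) ≤
      32 * π / ε * PP1 S m x L := by
  have hpi := Real.pi_gt_three
  have hpi2 := Real.pi_lt_d2
  obtain ⟨k, hk⟩ : ∃ k : ℝ → ℝ, k = fun u => 1 / (1 + ε ^ 2 * u ^ 2) := ⟨_, rfl⟩
  obtain ⟨X, hX⟩ : ∃ X : ι → ℝ, X = fun s => x s * L / (2 * π) := ⟨_, rfl⟩
  have hk0 : ∀ u, 0 ≤ k u := fun u => by rw [hk]; positivity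
  have hkc : Continuous k := by
    rw [hk]
    exact continuous_const.div (by fun_prop) fun u => by positivity
  have hki : Integrable k ∧ ∫ u, k u = π / ε := by
    have h1 : k = fun u => (1 + (ε * u) ^ 2)⁻¹ := by
      rw [hk]
      funext u
      rw [mul_pow, one_div]
    rw [h1]
    refine ⟨integrable_inv_one_add_sq.comp_mul_left' hε.ne', ?_⟩
    have h2 := Measure.integral_comp_mul_left (fun u : ℝ => (1 + u ^ 2)⁻¹) ε
    rw [h2, integral_univ_inv_one_add_sq, abs_of_pos (inv_pos.2 hε), smul_eq_mul]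
    rw [div_eq_inv_mul]
  obtain ⟨hki, hkI⟩ := hki
  -- pointwise lower bound for the convolution
  have htc : Continuous (tn (1 / 16)) := by
    unfold tn
    fun_prop
  have hti : ∀ u, Integrable fun v => tn (1 / 16) (u - v) * k v := by
    intro u
    refine hki.bdd_mul (c := 1 / 8) (htc.comp (by fun_prop)).aestronglyMeasurable
      (Eventually.of_forall fun v => ?_)
    rw [Real.norm_eq_abs, abs_of_nonneg (tn_nonneg _ _)]
    refine (tn_le _ _).trans ?_
    split_ifs <;> norm_num
  have hlow : ∀ u, 1 / 256 * k u ≤ ∫ v, tn (1 / 16) (u - v) * k v := by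
    intro u
    have h1 : ∫ v in Set.Icc (u - 1 / 16) (u + 1 / 16), (1 / 32 * k u) = 1 / 256 * k u := by
      rw [setIntegral_const, Real.volume_real_Icc_of_le (by linarith), smul_eq_mul]
      ring
    rw [← h1]
    calc ∫ v in Set.Icc (u - 1 / 16) (u + 1 / 16), (1 / 32 * k u) ≤
          ∫ v in Set.Icc (u - 1 / 16) (u + 1 / 16), tn (1 / 16) (u - v) * k v := by
          refine setIntegral_mono_on (by
            rw [integrableOn_const_iff]
            right
            rw [Real.volume_Icc]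
            exact ENNReal.ofReal_lt_top) (hti u).integrableOn measurableSet_Icc fun v hv => ?_
          have h2 : |u - v| ≤ 1 / 16 := by
            rw [abs_le]
            constructor <;> linarith [hv.1, hv.2]
          have h3 := le_tn h2
          have h4 : k u ≤ 2 * k v := by
            rw [hk]
            show 1 / (1 + ε ^ 2 * u ^ 2) ≤ 2 * (1 / (1 + ε ^ 2 * v ^ 2))
            rw [mul_one_div, div_le_div_iff₀ (by positivity) (by positivity), one_mul]
            have h5 : v ^ 2 ≤ 2 * u ^ 2 + 1 / 2 := by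
              have h6 : (u - v) ^ 2 ≤ (1 / 16) ^ 2 := by
                rw [← sq_abs]
                exact pow_le_pow_left₀ (abs_nonneg _) h2 2
              nlinarith [sq_nonneg (2 * u - v), sq_nonneg (u + v)]
            have h6 : ε ^ 2 ≤ 1 := by nlinarith
            have h7 := mul_le_mul_of_nonneg_left h5 (sq_nonneg ε)
            nlinarith
          have h5 := hk0 v
          nlinarith
      _ ≤ ∫ v, tn (1 / 16) (u - v) * k v :=
          setIntegral_le_integral (hti u) (Eventually.of_forall fun v =>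
            mul_nonneg (tn_nonneg _ _) (hk0 v))
  -- summation
  have hA : ∀ s s', m s * m s' * (1 / (1 + ε ^ 2 * ((x s - x s') * L / (2 * π) - h) ^ 2)) ≤
      256 * (m s * m s' * ∫ v, tn (1 / 16) (X s - X s' - h - v) * k v) := by
    intro s s'
    have h1 := hlow (X s - X s' - h)
    have h2 : k (X s - X s' - h) = 1 / (1 + ε ^ 2 * ((x s - x s') * L / (2 * π) - h) ^ 2) := by
      rw [hk, hX]
      show 1 / (1 + ε ^ 2 * (x s * L / (2 * π) - x s' * L / (2 * π) - h) ^ 2) = _
      congr 4
      ring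
    rw [← h2]
    have h3 := mul_nonneg (hm s) (hm s')
    have h4 := mul_le_mul_of_nonneg_left h1 h3
    linarith
  have hB : ∀ v, (∑ s ∈ S, ∑ s' ∈ S, m s * m s' * (tn (1 / 16) (X s - X s' - h - v) * k v)) ≤
      1 / 8 * PP1 S m x L * k v := by
    intro v
    have h1 := tn_shift S m X (1 / 16) (h + v)
    have h2 : ∑ s ∈ S, ∑ s' ∈ S, m s * m s' * (tn (1 / 16) (X s - X s' - h - v) * k v) =
        (∑ s ∈ S, ∑ s' ∈ S, m s * m s' * tn (1 / 16) (X s - X s' - (h + v))) * k v := by
      rw [Finset.sum_mul]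
      refine Finset.sum_congr rfl fun s _ => ?_
      rw [Finset.sum_mul]
      refine Finset.sum_congr rfl fun s' _ => ?_
      rw [← sub_sub]
      ring
    rw [h2]
    refine mul_le_mul_of_nonneg_right (h1.trans ?_) (hk0 v)
    unfold PP1
    rw [Finset.mul_sum]
    refine Finset.sum_le_sum fun s _ => ?_
    rw [Finset.mul_sum]
    refine Finset.sum_le_sum fun s' _ => ?_
    have h3 := mul_nonneg (hm s) (hm s')
    have h4 : tn (1 / 16) (X s - X s') ≤ 1 / 8 * (if |x s - x s'| ≤ 1 / L then 1 else 0) := by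
      refine (tn_le _ _).trans ?_
      by_cases h5 : |X s - X s'| ≤ 2 * (1 / 16)
      · rw [if_pos h5]
        have h6 : |x s - x s'| ≤ 1 / L := by
          have h7 : X s - X s' = (x s - x s') * (L / (2 * π)) := by rw [hX]; ring
          rw [h7, abs_mul, abs_of_pos (by positivity : 0 < L / (2 * π))] at h5
          rw [le_div_iff₀ hL]
          have h8 : |x s - x s'| * L = |x s - x s'| * (L / (2 * π)) * (2 * π) := by
            field_simp
          rw [h8]
          have h9 : |x s - x s'| * (L / (2 * π)) * (2 * π) ≤ 2 * (1 / 16) * (2 * π) :=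
            mul_le_mul_of_nonneg_right h5 (by positivity)
          linarith
        rw [if_pos h6]
        norm_num
      · rw [if_neg h5, mul_zero]
        split_ifs <;> norm_num
    calc m s * m s' * tn (1 / 16) (X s - X s') ≤
          m s * m s' * (1 / 8 * (if |x s - x s'| ≤ 1 / L then 1 else 0)) :=
          mul_le_mul_of_nonneg_left h4 h3
      _ = _ := by ring
  calc ∑ s ∈ S, ∑ s' ∈ S, m s * m s' * (1 / (1 + ε ^ 2 * ((x s - x s') * L / (2 * π) - h) ^ 2)) ≤
        ∑ s ∈ S, ∑ s' ∈ S, 256 * (m s * m s' * ∫ v, tn (1 / 16) (X s - X s' - h - v) * k v) :=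
        Finset.sum_le_sum fun s _ => Finset.sum_le_sum fun s' _ => hA s s'
    _ = 256 * ∫ v, ∑ s ∈ S, ∑ s' ∈ S, m s * m s' * (tn (1 / 16) (X s - X s' - h - v) * k v) := by
        rw [integral_finsetSum _ fun s _ => integrable_finsetSum _ fun s' _ =>
          (hti _).const_mul _, Finset.mul_sum]
        refine Finset.sum_congr rfl fun s _ => ?_
        rw [integral_finsetSum _ fun s' _ => (hti _).const_mul _, Finset.mul_sum]
        refine Finset.sum_congr rfl fun s' _ => ?_
        rw [integral_const_mul]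
    _ ≤ 256 * ∫ v, 1 / 8 * PP1 S m x L * k v := by
        refine mul_le_mul_of_nonneg_left (integral_mono ?_ (hki.const_mul _) hB) (by norm_num)
        exact integrable_finsetSum _ fun s _ => integrable_finsetSum _ fun s' _ =>
          (hti _).const_mul _
    _ = 32 * π / ε * PP1 S m x L := by
        rw [integral_const_mul, hkI]
        ring

end Pool.Agent.H8.PCU
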