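import Pool.Agent.H8.PCU.Mom
import Pool.Agent.H8.PCU.Pk
import Pool.Agent.H8.PCU.K3

/-! # Weighted pair sums over the zeros -/

set_option autoImplicit false

open MeasureTheory Filter Topology Real

namespace Pool.Agent.H8.PCU

open H370 TH803TW Pool.Agent.Y744

/-- the exponent of the weights -/
noncomputable def d0 : ℝ := mom.choose

/-- the constant of the moment bound -/
noncomputable def c0 : ℝ := mom.choose_spec.choose

/-- the starting point of the moment bound -/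
noncomputable def t0 : ℝ := mom.choose_spec.choose_spec.choose

lemma mom0 : 0 < d0 ∧ d0 ≤ 1 / 64 ∧ 0 ≤ c0 ∧ 16 ≤ t0 ∧ ∀ T : ℝ, t0 ≤ T → ∀ V : ℝ,
    0 ≤ V → V ≤ T →
    ∑ s ∈ Zt V, mz s * GT d0 T s ^ 4 ≤ T ^ (1 / 2 : ℝ) + c0 * (V * Real.log T) :=
  mom.choose_spec.choose_spec.choose_spec

lemma d0_pos : 0 < d0 := mom0.1
lemma d0_le : d0 ≤ 1 / 64 := mom0.2.1
lemma c0_nonneg : 0 ≤ c0 := mom0.2.2.1
lemma t0_ge : 16 ≤ t0 := mom0.2.2.2.1

/-- the weights -/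
noncomputable def W (T : ℝ) (s : ℂ) : ℝ := wt d0 T s

lemma W_nonneg (T : ℝ) (s : ℂ) : 0 ≤ W T s := wt_nonneg _ _ _

lemma log_ge {T : ℝ} (hT : t0 ≤ T) : 1 ≤ Real.log T := by
  have := t0_ge
  rw [Real.le_log_iff_exp_le (by linarith)]
  linarith [Real.exp_one_lt_d9]

lemma Zt_mono {V T : ℝ} (h : V ≤ T) : Zt V ⊆ Zt T := by
  intro s hs
  rw [mem_Zt] at hs ⊢
  exact ⟨hs.1, hs.2.1, hs.2.2.1, hs.2.2.2.1.trans h, hs.2.2.2.2⟩

lemma Zb_sub {A B : ℝ} (hA : 1 ≤ A) : Zb A B ⊆ Zt B := by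
  intro s hs
  rw [mem_Zb hA] at hs
  rw [mem_Zt]
  exact ⟨hs.1, hs.2.1, by linarith [hs.2.2.1], hs.2.2.2.1, hs.2.2.2.2⟩

lemma zz_sub_re (s s' : ℂ) : (zz s - zz s').re = s.im - s'.im := by
  unfold zz
  simp [Complex.mul_re, Complex.sub_re]
  ring

lemma zz_sub_im (s s' : ℂ) : (zz s - zz s').im = s'.re - s.re := by
  unfold zz
  simp [Complex.mul_im, Complex.sub_im]

/-- the scaled difference -/
noncomputable def dw (Λ : ℝ) (s s' : ℂ) : ℂ := (zz s - zz s') * Λ / (2 * π)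

lemma dw_re (Λ : ℝ) (s s' : ℂ) : (dw Λ s s').re = (s.im - s'.im) * Λ / (2 * π) := by
  unfold dw
  have e : (zz s - zz s') * Λ / (2 * π) = ((Λ / (2 * π) : ℝ) : ℂ) * (zz s - zz s') := by
    push_cast
    ring
  rw [e, Complex.re_ofReal_mul, zz_sub_re]
  ring

lemma dw_im (Λ : ℝ) (s s' : ℂ) : (dw Λ s s').im = (s'.re - s.re) * Λ / (2 * π) := by
  unfold dw
  have e : (zz s - zz s') * Λ / (2 * π) = ((Λ / (2 * π) : ℝ) : ℂ) * (zz s - zz s') := by
    push_cast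
    ring
  rw [e, Complex.im_ofReal_mul, zz_sub_im]
  ring

/-- pair sum with a function of the complex difference -/
noncomputable def QC (g : ℂ → ℝ) (S1 S2 : Finset ℂ) (Λ : ℝ) : ℝ :=
  ∑ s ∈ S1, ∑ s' ∈ S2, mz s * mz s' * g (dw Λ s s')

lemma exp_W {T c : ℝ} (hT : 1 ≤ T) (hc0 : 0 ≤ c) (hc : c ≤ 4 * π * d0) (s s' : ℂ) :
    mz s * mz s' * Real.exp (c * |(dw (Real.log T) s s').im|) ≤ W T s * W T s' := by
  have hpi := Real.pi_pos
  have hL := Real.log_nonneg hT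
  rw [dw_im]
  have hd : 0 ≤ 4 * π * d0 := hc0.trans hc
  have h1 : c * |(s'.re - s.re) * Real.log T / (2 * π)| ≤
      2 * d0 * (Real.log T * |s.re - 1 / 2|) + 2 * d0 * (Real.log T * |s'.re - 1 / 2|) := by
    rw [abs_div, abs_mul, abs_of_nonneg hL, abs_of_pos (by positivity : 0 < 2 * π)]
    have h2 : |s'.re - s.re| ≤ |s.re - 1 / 2| + |s'.re - 1 / 2| := by
      have e : s'.re - s.re = (s'.re - 1 / 2) - (s.re - 1 / 2) := by ring
      rw [e]
      have := abs_sub (s'.re - 1 / 2) (s.re - 1 / 2)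
      linarith
    calc c * (|s'.re - s.re| * Real.log T / (2 * π)) ≤
          4 * π * d0 * ((|s.re - 1 / 2| + |s'.re - 1 / 2|) * Real.log T / (2 * π)) := by gcongr
      _ = _ := by
          field_simp
          ring
  have h3 := Real.exp_le_exp.2 h1
  rw [Real.exp_add] at h3
  unfold W wt
  have h4 := mul_nonneg (mz_nonneg s) (mz_nonneg s')
  calc _ ≤ mz s * mz s' * (Real.exp (2 * d0 * (Real.log T * |s.re - 1 / 2|)) *
        Real.exp (2 * d0 * (Real.log T * |s'.re - 1 / 2|))) := mul_le_mul_of_nonneg_left h3 h4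
    _ = _ := by ring

/-- the sum of the absolute values -/
lemma QC_abs {T c C : ℝ} (hT : 1 < T) (hc0 : 0 ≤ c) (hc : c ≤ 4 * π * d0) (hC : 0 ≤ C)
    {g : ℂ → ℝ} (S1 S2 : Finset ℂ)
    (hg : ∀ s ∈ S1, ∀ s' ∈ S2, |g (dw (Real.log T) s s')| ≤
      C * Real.exp (c * |(dw (Real.log T) s s').im|) / (1 + (dw (Real.log T) s s').re ^ 2))
    {lam : ℝ} (hlam : 0 < lam) :
    ∑ s ∈ S1, ∑ s' ∈ S2, |mz s * mz s' * g (dw (Real.log T) s s')| ≤
      1600 * C * (lam * PP1 S1 (W T) (fun s => s.im) (Real.log T) +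
        1 / lam * PP1 S2 (W T) (fun s => s.im) (Real.log T)) := by
  have h1 := QS_abs_bound (x := fun s : ℂ => s.im) S1 S2 (m := W T) (W_nonneg T)
    (f := fun y => C / (1 + y ^ 2)) (K := C) (fun y => by rw [abs_of_nonneg (by positivity)])
    (Λ := Real.log T) (lam := lam) (Real.log_pos hT) hlam
  refine le_trans ?_ h1
  refine Finset.sum_le_sum fun s hs => Finset.sum_le_sum fun s' hs' => ?_
  have h2 := hg s hs s' hs'
  have h3 := exp_W hT.le hc0 hc s s'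
  have h4 := mul_nonneg (mz_nonneg s) (mz_nonneg s')
  rw [abs_mul, abs_of_nonneg h4]
  show _ ≤ W T s * W T s' * |C / (1 + ((s.im - s'.im) * Real.log T / (2 * π)) ^ 2)|
  rw [← dw_re]
  have h5 : 0 ≤ C / (1 + (dw (Real.log T) s s').re ^ 2) := by positivity
  rw [abs_of_nonneg h5]
  calc mz s * mz s' * |g (dw (Real.log T) s s')| ≤
        mz s * mz s' * (C * Real.exp (c * |(dw (Real.log T) s s').im|) /
          (1 + (dw (Real.log T) s s').re ^ 2)) := mul_le_mul_of_nonneg_left h2 h4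
    _ = (mz s * mz s' * Real.exp (c * |(dw (Real.log T) s s').im|)) *
          (C / (1 + (dw (Real.log T) s s').re ^ 2)) := by ring
    _ ≤ _ := mul_le_mul_of_nonneg_right h3 (by positivity)

lemma QC_le_abs (g : ℂ → ℝ) (S1 S2 : Finset ℂ) (Λ : ℝ) :
    |QC g S1 S2 Λ| ≤ ∑ s ∈ S1, ∑ s' ∈ S2, |mz s * mz s' * g (dw Λ s s')| := by
  unfold QC
  exact (Finset.abs_sum_le_sum_abs _ _).trans (Finset.sum_le_sum fun s _ =>
    Finset.abs_sum_le_sum_abs _ _)

/-- the sum with the dilated kernel -/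
lemma QC_kernel {T c : ℝ} (hT : 1 < T) (hc0 : 0 ≤ c) (hc : c ≤ 4 * π * d0) (S : Finset ℂ)
    {ε : ℝ} (hε : 0 < ε) (hε1 : ε ≤ 1) (a : ℝ) :
    ∑ s ∈ S, ∑ s' ∈ S, mz s * mz s' * (Real.exp (c * |(dw (Real.log T) s s').im|) *
      (1 / (1 + ε ^ 2 * ((dw (Real.log T) s s').re - a) ^ 2))) ≤
      32 * π / ε * PP1 S (W T) (fun s => s.im) (Real.log T) := by
  have h1 := pair_kernel (x := fun s : ℂ => s.im) S (m := W T) (W_nonneg T) (Real.log_pos hT)
    hε hε1 a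
  refine le_trans ?_ h1
  refine Finset.sum_le_sum fun s hs => Finset.sum_le_sum fun s' hs' => ?_
  have h3 := exp_W hT.le hc0 hc s s'
  show _ ≤ W T s * W T s' * (1 / (1 + ε ^ 2 * ((s.im - s'.im) * Real.log T / (2 * π) - a) ^ 2))
  rw [← dw_re, ← mul_assoc]
  exact mul_le_mul_of_nonneg_right h3 (by positivity)

/-- the local pairs in terms of the moments -/
lemma PP1_le {T : ℝ} (hT : t0 ≤ T) {S : Finset ℂ} (hS : S ⊆ Zt T) :
    PP1 S (W T) (fun s => s.im) (Real.log T) ≤ ∑ s ∈ S, mz s * GT d0 T s ^ 2 := by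
  have h16 := t0_ge
  unfold PP1
  refine Finset.sum_le_sum fun s hs => ?_
  have hs2 : s ∈ Zt (2 * T) := Zt_mono (by linarith) (hS hs)
  have h1 : ∑ s' ∈ S, W T s * W T s' * (if |s.im - s'.im| ≤ 1 / Real.log T then 1 else 0) ≤
      W T s * GT d0 T s := by
    unfold GT
    rw [Finset.mul_sum]
    simp_rw [mul_assoc]
    refine Finset.sum_le_sum_of_subset_of_nonneg (hS.trans (Zt_mono (by linarith)))
      fun s' _ _ => ?_
    refine mul_nonneg (W_nonneg _ _) (mul_nonneg (W_nonneg _ _) ?_)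
    split_ifs
    · exact zero_le_one
    · exact le_rfl
  refine h1.trans ?_
  have h2 : W T s ≤ mz s * GT d0 T s := by
    unfold W wt
    refine mul_le_mul_of_nonneg_left ?_ (mz_nonneg s)
    exact (exp_le_wt hs2).trans (wt_le_GT (by linarith) hs2)
  calc W T s * GT d0 T s ≤ mz s * GT d0 T s * GT d0 T s :=
        mul_le_mul_of_nonneg_right h2 (GT_nonneg _ _ _)
    _ = _ := by ring

lemma GT_one {T : ℝ} (hT : t0 ≤ T) {s : ℂ} (hs : s ∈ Zt T) : 1 ≤ GT d0 T s := by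
  have h16 := t0_ge
  have hs2 : s ∈ Zt (2 * T) := Zt_mono (by linarith) hs
  exact (mz_one hs).trans ((mz_le_wt d0_pos.le (by linarith) s).trans (wt_le_GT (by linarith) hs2))

/-- bound for the local pairs -/
lemma PP1_bound {T : ℝ} (hT : t0 ≤ T) {V : ℝ} (hV : 0 ≤ V) (hVT : V ≤ T) {S : Finset ℂ}
    (hS : S ⊆ Zt V) :
    PP1 S (W T) (fun s => s.im) (Real.log T) ≤ T ^ (1 / 2 : ℝ) + c0 * (V * Real.log T) := by
  refine (PP1_le hT (hS.trans (Zt_mono hVT))).trans ?_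
  refine le_trans ?_ (mom0.2.2.2.2 T hT V hV hVT)
  refine (Finset.sum_le_sum_of_subset_of_nonneg hS fun s _ _ =>
    mul_nonneg (mz_nonneg s) (sq_nonneg _)).trans (Finset.sum_le_sum fun s hs => ?_)
  have h1 := GT_one hT (Zt_mono hVT hs)
  refine mul_le_mul_of_nonneg_left ?_ (mz_nonneg s)
  exact pow_le_pow_right₀ h1 (by norm_num)

/-- bound for the local pairs in a sparse set -/
lemma PP1_eta {T : ℝ} (hT : t0 ≤ T) {V : ℝ} (hV : 0 ≤ V) (hVT : V ≤ T) {S : Finset ℂ}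
    (hS : S ⊆ Zt V) {η : ℝ} (hη : 0 < η) :
    PP1 S (W T) (fun s => s.im) (Real.log T) ≤ 1 / (4 * η) * ∑ s ∈ S, mz s +
      η * (T ^ (1 / 2 : ℝ) + c0 * (V * Real.log T)) := by
  refine (PP1_le hT (hS.trans (Zt_mono hVT))).trans ?_
  have h1 := mul_le_mul_of_nonneg_left (mom0.2.2.2.2 T hT V hV hVT) hη.le
  have h2 : ∑ s ∈ S, mz s * GT d0 T s ^ 2 ≤ 1 / (4 * η) * ∑ s ∈ S, mz s +
      η * ∑ s ∈ S, mz s * GT d0 T s ^ 4 := by
    rw [Finset.mul_sum, Finset.mul_sum, ← Finset.sum_add_distrib]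
    refine Finset.sum_le_sum fun s _ => ?_
    have h3 : GT d0 T s ^ 2 ≤ 1 / (4 * η) + η * GT d0 T s ^ 4 := by
      have h4 : 1 / (4 * η) + η * GT d0 T s ^ 4 - GT d0 T s ^ 2 =
          (2 * η * GT d0 T s ^ 2 - 1) ^ 2 / (4 * η) := by
        field_simp
        ring
      have h5 : 0 ≤ (2 * η * GT d0 T s ^ 2 - 1) ^ 2 / (4 * η) := by positivity
      linarith
    have h5 := mul_le_mul_of_nonneg_left h3 (mz_nonneg s)
    linarith
  have h3 : ∑ s ∈ S, mz s * GT d0 T s ^ 4 ≤ ∑ s ∈ Zt V, mz s * GT d0 T s ^ 4 :=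
    Finset.sum_le_sum_of_subset_of_nonneg hS fun s _ _ =>
      mul_nonneg (mz_nonneg s) (pow_nonneg (GT_nonneg _ _ _) 4)
  have h4 := mul_le_mul_of_nonneg_left h3 hη.le
  linarith

/-- square roots are small -/
lemma sqrt_small (η : ℝ) (hη : 0 < η) : ∀ᶠ T : ℝ in atTop, T ^ (1 / 2 : ℝ) ≤ η * Xf T := by
  have h1 : ∀ᶠ T : ℝ in atTop, 2 * π / η ≤ T ^ (1 / 2 : ℝ) :=
    (tendsto_rpow_atTop (by norm_num)).eventually_ge_atTop _
  filter_upwards [h1, eventually_ge_atTop (16 : ℝ)] with T hT hT16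
  have hpi := Real.pi_pos
  have hL : 1 ≤ Real.log T := by
    rw [Real.le_log_iff_exp_le (by linarith)]
    linarith [Real.exp_one_lt_d9]
  rw [div_le_iff₀ hη] at hT
  have h2 : T ^ (1 / 2 : ℝ) * T ^ (1 / 2 : ℝ) = T := by
    rw [← Real.rpow_add (by linarith)]
    norm_num
  have h3 : 0 < T ^ (1 / 2 : ℝ) := Real.rpow_pos_of_pos (by linarith) _
  unfold Xf
  rw [← mul_div_assoc, le_div_iff₀ (by positivity)]
  calc T ^ (1 / 2 : ℝ) * (2 * π) ≤ T ^ (1 / 2 : ℝ) * (T ^ (1 / 2 : ℝ) * η) :=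
        mul_le_mul_of_nonneg_left hT h3.le
    _ = η * (T * 1) := by rw [← mul_assoc, h2]; ring
    _ ≤ η * (T * Real.log T) := by gcongr

/-- the size of the local pairs -/
lemma PP1_Xf : ∃ T1 : ℝ, t0 ≤ T1 ∧ ∀ T : ℝ, T1 ≤ T → ∀ S : Finset ℂ, S ⊆ Zt T →
    PP1 S (W T) (fun s => s.im) (Real.log T) ≤ (7 * c0 + 1) * Xf T := by
  obtain ⟨T2, hT2⟩ := (sqrt_small 1 one_pos).exists_forall_of_atTop
  refine ⟨max t0 T2, le_max_left _ _, fun T hT S hS => ?_⟩
  have h1 := PP1_bound ((le_max_left _ _).trans hT) (V := T)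
    (by linarith [t0_ge, (le_max_left t0 T2).trans hT]) le_rfl hS
  have h2 := hT2 T ((le_max_right _ _).trans hT)
  have h3 : T * Real.log T ≤ 7 * Xf T := by
    unfold Xf
    have hpi := Real.pi_lt_d2
    have hpi0 := Real.pi_pos
    have h4 : 0 ≤ T * Real.log T := by
      have a1 := log_ge ((le_max_left t0 T2).trans hT)
      have a2 := t0_ge
      have a3 := (le_max_left t0 T2).trans hT
      exact mul_nonneg (by linarith) (by linarith)
    rw [← mul_div_assoc, le_div_iff₀ (by positivity)]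
    nlinarith
  have h4 := mul_le_mul_of_nonneg_left h3 c0_nonneg
  linarith

end Pool.Agent.H8.PCU
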