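import Pool.Graph.R_pool_sql_team_seeded_b3bd081e.H24R3.PsiEvery
import Pool.Agent.H8.PCU.N0
import Pool.Agent.H8.PCU.G1

/-! # Montgomery's theorem for one block -/

set_option autoImplicit false

open MeasureTheory Filter Topology Real

namespace Pool.Agent.H8.PCU

open H370 TH803TW Pool.Agent.Y744 Pool.Agent.Results.MP_103a5c_nt.BohrSetPairs

variable {κ : ℝ} {K : ℝ → ℝ}

lemma TK_lip (h : TK κ K) : ∃ M, ∀ x y, |K x - K y| ≤ M * |x - y| := by
  obtain ⟨C1, hC1⟩ := h.smooth.lipschitzWith_of_hasCompactSupport h.hcs (by simp)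
  refine ⟨C1, fun x y => ?_⟩
  have := hC1.dist_le_mul x y
  rwa [Real.dist_eq, Real.dist_eq] at this

lemma mont_eq (h : TK κ K) {μ : ℝ} (hκ : κ ≤ μ) (hμ0 : 0 ≤ μ) (hμ : μ ≤ 1) :
    K 0 + ∫ α in (-μ)..μ, |α| * K α = mont K := by
  unfold mont
  congr 1
  have hc : Continuous fun α : ℝ => |α| * K α := continuous_abs.mul h.cont
  have hz : ∀ x : ℝ, μ < x → |x| * K x = 0 := by
    intro x hx
    rw [h.supp x (by rw [abs_of_pos (by linarith)]; linarith), mul_zero]
  rw [← intervalIntegral.integral_add_adjacent_intervals (a := -μ) (b := 0) (c := μ)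
    (hc.intervalIntegrable _ _) (hc.intervalIntegrable _ _)]
  have h3 : ∫ α in (-μ)..0, |α| * K α = ∫ α in (0 : ℝ)..μ, |α| * K α := by
    have := intervalIntegral.integral_comp_neg (a := 0) (b := μ)
      (fun α : ℝ => |α| * K α)
    rw [neg_zero] at this
    rw [← this]
    refine intervalIntegral.integral_congr fun α _ => ?_
    show |(-α)| * K (-α) = |α| * K α
    rw [abs_neg, h.even]
  have h5 : ∫ α in μ..1, |α| * K α = 0 := by
    rw [intervalIntegral.integral_of_le hμ]
    refine setIntegral_eq_zero_of_forall_eq_zero fun x hx => ?_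
    exact hz x hx.1
  have h6 : ∫ α in (0 : ℝ)..1, |α| * K α = ∫ α in (0 : ℝ)..μ, |α| * K α := by
    rw [← intervalIntegral.integral_add_adjacent_intervals (a := 0) (b := μ) (c := 1)
      (hc.intervalIntegrable _ _) (hc.intervalIntegrable _ _), h5, add_zero]
  have h4 : ∫ α in (0 : ℝ)..1, |α| * K α = ∫ α in (0 : ℝ)..1, α * K α := by
    refine intervalIntegral.integral_congr fun α hα => ?_
    rw [Set.uIcc_of_le (by norm_num)] at hα
    show |α| * K α = α * K α
    rw [abs_of_nonneg hα.1]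
  rw [h3, ← h6, h4]
  ring

/-- the integral against the exponential function -/
lemma exp_int {ψ : ℝ → ℝ} (h : CK κ ψ) (he : ∀ x, ψ (-x) = ψ x) {μ : ℝ} (hμ0 : 0 ≤ μ) (hμ : κ ≤ μ)
    (w : ℂ) : ∫ α in (-μ)..μ, (ψ α : ℂ) * Complex.exp (Complex.I * (2 * π * α * w)) = CT ψ w := by
  have hc : ∀ F : ℝ → ℂ, Continuous F → ∫ α in (-μ)..μ, (ψ α : ℂ) * F α =
      ∫ α : ℝ, (ψ α : ℂ) * F α := by
    intro F hF
    rw [intervalIntegral.integral_of_le (by linarith), ← integral_Icc_eq_integral_Ioc]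
    refine setIntegral_eq_integral_of_forall_compl_eq_zero fun x hx => ?_
    rw [h.supp x, Complex.ofReal_zero, zero_mul]
    by_contra hc
    push Not at hc
    exact hx (abs_le.1 (hc.trans hμ))
  rw [hc _ (by fun_prop)]
  unfold CT
  have e : ∀ α : ℝ, (ψ α : ℂ) * Complex.exp (Complex.I * (2 * π * α * w)) =
      (ψ α : ℂ) * Complex.cos (2 * π * w * α) + (ψ α : ℂ) * (Complex.sin (2 * π * w * α) *
        Complex.I) := by
    intro α
    rw [mul_comm Complex.I, Complex.exp_mul_I]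
    have : (2 * π * α * w : ℂ) = 2 * π * w * α := by ring
    rw [this]
    ring
  simp_rw [e]
  rw [integral_add (mul_int h (by fun_prop)) (mul_int h (by fun_prop))]
  have h0 : ∫ α : ℝ, (ψ α : ℂ) * (Complex.sin (2 * π * w * α) * Complex.I) = 0 := by
    have h1 := integral_neg_eq_self (μ := volume)
      (fun α : ℝ => (ψ α : ℂ) * (Complex.sin (2 * π * w * α) * Complex.I))
    have h2 : ∫ α : ℝ, (ψ (-α) : ℂ) * (Complex.sin (2 * π * w * (-α : ℝ)) * Complex.I) =
        -∫ α : ℝ, (ψ α : ℂ) * (Complex.sin (2 * π * w * α) * Complex.I) := by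
      rw [← integral_neg]
      refine integral_congr_ae (Eventually.of_forall fun α => ?_)
      show (ψ (-α) : ℂ) * (Complex.sin (2 * π * w * (-α : ℝ)) * Complex.I) =
        -((ψ α : ℂ) * (Complex.sin (2 * π * w * α) * Complex.I))
      rw [he]
      push_cast
      rw [mul_neg, Complex.sin_neg]
      ring
    rw [h2] at h1
    have h3 : (2 : ℂ) * ∫ α : ℝ, (ψ α : ℂ) * (Complex.sin (2 * π * w * α) * Complex.I) = 0 := by
      linear_combination -h1
    exact (mul_eq_zero.1 h3).resolve_left (by norm_num)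
  rw [h0, add_zero]

/-- the integral of the form factor -/
lemma JN_int {ψ : ℝ → ℝ} (h : CK κ ψ) (he : ∀ x, ψ (-x) = ψ x) {μ : ℝ} (hμ0 : 0 ≤ μ) (hμ : κ ≤ μ)
    {A B : ℝ} (hA : 1 ≤ A) (Λ : ℝ) :
    ∫ α in (-μ)..μ, ψ α * A2.JN riemannZeta A B (α * Λ) =
      ∑ s ∈ Zb A B, ∑ s' ∈ Zb A B, mz s * mz s' *
        (CT ψ (dw Λ s s') * Complex.exp (-(zz s - zz s') ^ 2 / 4)).re := by
  have hpi := Real.pi_pos
  have e1 : ∀ u : ℝ, ((A2.JN riemannZeta A B u : ℝ) : ℂ) = ∑ s ∈ Zb A B, ∑ s' ∈ Zb A B,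
      (mz s : ℂ) * (mz s' : ℂ) * (Complex.exp (Complex.I * u * (zz s - zz s')) *
        Complex.exp (-(zz s - zz s') ^ 2 / 4)) := by
    intro u
    unfold A2.JN
    rw [Complex.ofReal_div, JJ_eq good_zeta hA]
    have hs : ((√π : ℝ) : ℂ) ≠ 0 := by
      rw [Complex.ofReal_ne_zero]
      positivity
    rw [mul_div_cancel_left₀ _ hs]
    unfold Zb mz
    push_cast
    rfl
  have e2 : ((∫ α in (-μ)..μ, ψ α * A2.JN riemannZeta A B (α * Λ) : ℝ) : ℂ) =
      ∑ s ∈ Zb A B, ∑ s' ∈ Zb A B, (mz s : ℂ) * (mz s' : ℂ) *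
        (CT ψ (dw Λ s s') * Complex.exp (-(zz s - zz s') ^ 2 / 4)) := by
    rw [← intervalIntegral.integral_ofReal]
    have e3 : ∀ α : ℝ, ((ψ α * A2.JN riemannZeta A B (α * Λ) : ℝ) : ℂ) =
        ∑ s ∈ Zb A B, ∑ s' ∈ Zb A B, ((mz s : ℂ) * (mz s' : ℂ) *
          Complex.exp (-(zz s - zz s') ^ 2 / 4)) *
          ((ψ α : ℂ) * Complex.exp (Complex.I * (2 * π * α * dw Λ s s'))) := by
      intro α
      rw [Complex.ofReal_mul, e1, Finset.mul_sum]
      refine Finset.sum_congr rfl fun s _ => ?_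
      rw [Finset.mul_sum]
      refine Finset.sum_congr rfl fun s' _ => ?_
      have e4 : Complex.I * ((α * Λ : ℝ) : ℂ) * (zz s - zz s') =
          Complex.I * (2 * π * α * dw Λ s s') := by
        unfold dw
        push_cast
        have : (π : ℂ) ≠ 0 := by exact_mod_cast hpi.ne'
        field_simp
      rw [e4]
      ring
    simp_rw [e3]
    have hint : ∀ s s' : ℂ, IntervalIntegrable (fun α : ℝ => ((mz s : ℂ) * (mz s' : ℂ) *
          Complex.exp (-(zz s - zz s') ^ 2 / 4)) *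
          ((ψ α : ℂ) * Complex.exp (Complex.I * (2 * π * α * dw Λ s s')))) volume (-μ) μ := by
      intro s s'
      have hc := Complex.continuous_ofReal.comp h.cont
      refine Continuous.intervalIntegrable ?_ _ _
      refine continuous_const.mul (Continuous.mul hc ?_)
      fun_prop
    rw [intervalIntegral.integral_finsetSum fun s _ => by
      have : ∀ s' ∈ Zb A B, IntervalIntegrable (fun α : ℝ => ((mz s : ℂ) * (mz s' : ℂ) *
          Complex.exp (-(zz s - zz s') ^ 2 / 4)) *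
          ((ψ α : ℂ) * Complex.exp (Complex.I * (2 * π * α * dw Λ s s')))) volume (-μ) μ :=
        fun s' _ => hint s s'
      have h2 := IntervalIntegrable.sum (Zb A B) (f := fun s' (α : ℝ) => ((mz s : ℂ) *
          (mz s' : ℂ) * Complex.exp (-(zz s - zz s') ^ 2 / 4)) *
          ((ψ α : ℂ) * Complex.exp (Complex.I * (2 * π * α * dw Λ s s')))) this
      refine h2.congr fun x _ => ?_
      simp only [Finset.sum_apply]]
    refine Finset.sum_congr rfl fun s _ => ?_
    rw [intervalIntegral.integral_finsetSum fun s' _ => hint s s']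
    refine Finset.sum_congr rfl fun s' _ => ?_
    rw [intervalIntegral.integral_const_mul, exp_int h he hμ0 hμ]
    ring
  have e5 := congrArg Complex.re e2
  rw [Complex.ofReal_re] at e5
  rw [e5, Complex.re_sum]
  refine Finset.sum_congr rfl fun s _ => ?_
  rw [Complex.re_sum]
  refine Finset.sum_congr rfl fun s' _ => ?_
  rw [← Complex.ofReal_mul, Complex.re_ofReal_mul]

end Pool.Agent.H8.PCU
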