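import Pool.Agent.H8.PCU.N1

/-! # Montgomery's theorem for the complex differences of the zeros up to height `T` -/

set_option autoImplicit false

open MeasureTheory Filter Topology Real

namespace Pool.Agent.H8.PCU

open H370 TH803TW Pool.Agent.Y744 Pool.Agent.Results.MP_103a5c_nt.BohrSetPairs

variable {κ : ℝ} {K : ℝ → ℝ}

/-- the kernel of the pair sums -/
noncomputable def gk (K : ℝ → ℝ) (w : ℂ) : ℝ := (CT K w).re

/-- far pairs -/
lemma QC_far {T c C : ℝ} (hT : 1 < T) (hL : 1 ≤ Real.log T) (hc0 : 0 ≤ c) (hc : c ≤ 4 * π * d0)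
    (hC : 0 ≤ C) {g : ℂ → ℝ} (S1 S2 : Finset ℂ)
    (hg : ∀ s ∈ S1, ∀ s' ∈ S2, |g (dw (Real.log T) s s')| ≤
      C * Real.exp (c * |(dw (Real.log T) s s').im|) / (1 + (dw (Real.log T) s s').re ^ 2))
    (hfar : ∀ s ∈ S1, ∀ s' ∈ S2, 1 ≤ |s.im - s'.im|) :
    ∑ s ∈ S1, ∑ s' ∈ S2, |mz s * mz s' * g (dw (Real.log T) s s')| ≤
      3200 * C / √(Real.log T) * (PP1 S1 (W T) (fun s => s.im) (Real.log T) +
        PP1 S2 (W T) (fun s => s.im) (Real.log T)) := by
  have h1 := QS_far_bound (x := fun s : ℂ => s.im) S1 S2 (m := W T) (W_nonneg T)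
    (f := fun y => C / (1 + y ^ 2)) (K := C) (fun y => by rw [abs_of_nonneg (by positivity)])
    (Λ := Real.log T) hL hfar
  refine le_trans ?_ h1
  refine Finset.sum_le_sum fun s hs => Finset.sum_le_sum fun s' hs' => ?_
  have h2 := hg s hs s' hs'
  have h3 := exp_W hT.le hc0 hc s s'
  have h4 := mul_nonneg (mz_nonneg s) (mz_nonneg s')
  rw [abs_mul, abs_of_nonneg h4]
  show _ ≤ W T s * W T s' * |C / (1 + ((s.im - s'.im) * Real.log T / (2 * π)) ^ 2)|
  rw [← dw_re]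
  have h5 : 0 ≤ C / (1 + (dw (Real.log T) s s').re ^ 2) := by positivity
  rw [abs_of_nonneg h5]
  calc mz s * mz s' * |g (dw (Real.log T) s s')| ≤
        mz s * mz s' * (C * Real.exp (c * |(dw (Real.log T) s s').im|) /
          (1 + (dw (Real.log T) s s').re ^ 2)) := mul_le_mul_of_nonneg_left h2 h4
    _ = (mz s * mz s' * Real.exp (c * |(dw (Real.log T) s s').im|)) *
          (C / (1 + (dw (Real.log T) s s').re ^ 2)) := by ring
    _ ≤ _ := mul_le_mul_of_nonneg_right h3 (by positivity)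

lemma CT_even (ψ : ℝ → ℝ) (w : ℂ) : CT ψ (-w) = CT ψ w := by
  unfold CT
  refine integral_congr_ae (Eventually.of_forall fun α => ?_)
  show (ψ α : ℂ) * Complex.cos (2 * π * (-w) * α) = (ψ α : ℂ) * Complex.cos (2 * π * w * α)
  have : (2 * π * (-w) * α : ℂ) = -(2 * π * w * α) := by ring
  rw [this, Complex.cos_neg]

lemma dw_swap (Λ : ℝ) (s s' : ℂ) : dw Λ s' s = -dw Λ s s' := by
  unfold dw
  ring

lemma gk_swap (K : ℝ → ℝ) (Λ : ℝ) (s s' : ℂ) : gk K (dw Λ s' s) = gk K (dw Λ s s') := by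
  unfold gk
  rw [dw_swap, CT_even]

/-- decay of the kernel -/
lemma gk_decay (h : TK κ K) {c : ℝ} (hc : 2 * π * κ ≤ c) :
    ∃ C, 0 ≤ C ∧ ∀ w : ℂ, |gk K w| ≤ C * Real.exp (c * |w.im|) / (1 + w.re ^ 2) := by
  obtain ⟨C2, hC2, hb2⟩ := CT_decay' h
  refine ⟨C2, hC2, fun w => ?_⟩
  have hy := abs_nonneg w.im
  unfold gk
  refine (Complex.abs_re_le_norm _).trans ((hb2 w).trans ?_)
  have h1 : Real.exp (2 * π * κ * |w.im|) ≤ Real.exp (c * |w.im|) :=
    Real.exp_le_exp.2 (mul_le_mul_of_nonneg_right hc hy)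
  have h3 : 1 + w.re ^ 2 ≤ (1 + w.re ^ 2) ^ 2 := by nlinarith [sq_nonneg w.re, sq_nonneg (w.re ^ 2)]
  gcongr

/-- the block integral -/
noncomputable def Ib (K : ℝ → ℝ) (V : ℝ) : ℝ :=
  ∫ α in (-(1 / 4 : ℝ))..(1 / 4), K α * A2.JN riemannZeta V (V + V / 2) (α * Real.log V)

lemma Ib_lim (hκ1 : κ < 1 / 4) (h : TK κ K) :
    Tendsto (fun V => Ib K V / Xf V) atTop (𝓝 (mont K / 2)) := by
  obtain ⟨M, hM⟩ := TK_lip h
  have hm := mont_eq h hκ1.le (by norm_num) (by norm_num)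
  rw [Metric.tendsto_atTop]
  intro ε hε
  obtain ⟨T0, hT0, hp⟩ := Pool.Agent.H24R3.PairEvery.every_psi good_zeta (a := A2.lamC)
    A2.lamC_norm (fun s hs _ => A2.ld_zeta s hs) (1 / 2) (1 / 4) ε (by norm_num) (by norm_num)
    (by norm_num) hε K M hM (fun x hx => h.supp x (by linarith))
  have ev : ∀ᶠ V : ℝ in atTop, (2 : ℝ) ≤ V ^ (1 / 2 : ℝ) :=
    (tendsto_rpow_atTop (by norm_num)).eventually_ge_atTop _
  obtain ⟨T1, hT1⟩ := ev.exists_forall_of_atTop
  refine ⟨max T0 T1, fun V hV => ?_⟩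
  have hV0 := (le_max_left _ _).trans hV
  have hV10 : 10 ≤ V := hT0.trans hV0
  have h1 : V ^ (1 / 2 : ℝ) ≤ V / 2 := by
    have h2 := hT1 V ((le_max_right _ _).trans hV)
    have h3 : V ^ (1 / 2 : ℝ) * V ^ (1 / 2 : ℝ) = V := by
      rw [← Real.rpow_add (by linarith)]
      norm_num
    nlinarith
  have h2 := (hp V hV0 (V / 2) h1 le_rfl V le_rfl (by linarith)).2
  rw [hm] at h2
  have hX := Xf_pos (V := V) (by linarith)
  have e : V / 2 * Real.log V / (2 * π) = Xf V / 2 := by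
    unfold Xf
    ring
  rw [e] at h2
  rw [Real.dist_eq]
  have e3 : Ib K V / Xf V - mont K / 2 = (Ib K V - Xf V / 2 * mont K) / Xf V := by
    field_simp
  rw [e3, abs_div, abs_of_pos hX, div_lt_iff₀ hX]
  refine lt_of_le_of_lt h2 ?_
  nlinarith

lemma strip_re {V : ℝ} {s s' : ℂ} (hs : s ∈ Zt V) (hs' : s' ∈ Zt V) : |s'.re - s.re| ≤ 1 := by
  rw [mem_Zt] at hs hs'
  obtain ⟨a1, a2, -⟩ := hs
  obtain ⟨b1, b2, -⟩ := hs'
  rw [abs_le]
  constructor <;> linarith

/-- the pair sum of the block against the block integral -/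
lemma blk_err (hκ : 0 < κ) (hκ1 : κ < 1 / 4) (hκ2 : κ < 2 * d0) (h : TK κ K) :
    ∃ C, 0 ≤ C ∧ ∃ T1, t0 ≤ T1 ∧ ∀ T V : ℝ, T1 ≤ T → 10 ≤ V → 3 / 2 * V ≤ T →
      Real.log T ≤ 2 * Real.log V →
      |QC (gk K) (Zb V (V + V / 2)) (Zb V (V + V / 2)) (Real.log T) - Ib K V| ≤
        C * (Real.log T / Real.log V - 1 + 1 / Real.log T ^ 2) * Xf T := by
  have hpi := Real.pi_pos
  obtain ⟨C, hC, hb⟩ := ct_err hκ h (c := 4 * π * d0) (by nlinarith)
  obtain ⟨T1, hT1, hP⟩ := PP1_Xf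
  refine ⟨3200 * C * (7 * c0 + 1), by have := c0_nonneg; positivity, T1, hT1,
    fun T V hT hV hVT hLL => ?_⟩
  have ht0 := t0_ge
  have hT16 : 16 ≤ T := ht0.trans (hT1.trans hT)
  have hLT : 1 ≤ Real.log T := log_ge (hT1.trans hT)
  have hLV : 0 < Real.log V := Real.log_pos (by linarith)
  have hLVT : Real.log V ≤ Real.log T := Real.log_le_log (by linarith) (by linarith)
  set S := Zb V (V + V / 2) with hS
  have hST : S ⊆ Zt T := (Zb_sub (by linarith)).trans (Zt_mono (by linarith))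
  have hI : Ib K V = ∑ s ∈ S, ∑ s' ∈ S, mz s * mz s' *
      (CT K (dw (Real.log V) s s') * Complex.exp (-(zz s - zz s') ^ 2 / 4)).re := by
    unfold Ib
    exact JN_int (TK_CK h) h.even (by norm_num) hκ1.le (by linarith) _
  set s0 := Real.log T / Real.log V with hs0
  have hs1 : 1 ≤ s0 := by rw [hs0, one_le_div hLV]; exact hLVT
  have hs2 : s0 ≤ 2 := by rw [hs0, div_le_iff₀ hLV]; exact hLL
  set E := C * (s0 - 1 + 1 / Real.log T ^ 2) with hE
  have hE0 : 0 ≤ E := by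
    rw [hE]
    have : 0 ≤ s0 - 1 := by linarith
    positivity
  -- pointwise
  set G : ℂ → ℝ := fun w => (CT K (w / s0) * Complex.exp (-(2 * π * w / Real.log T) ^ 2 / 4) -
    CT K w).re with hG
  have hpt : ∀ s ∈ S, ∀ s' ∈ S, |G (dw (Real.log T) s s')| ≤
      E * Real.exp (4 * π * d0 * |(dw (Real.log T) s s').im|) /
        (1 + (dw (Real.log T) s s').re ^ 2) := by
    intro s hs s' hs'
    refine (Complex.abs_re_le_norm _).trans ?_
    refine hb s0 (Real.log T) _ hs1 hs2 (by linarith) ?_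
    rw [dw_im, abs_div, abs_mul, abs_of_nonneg (by linarith : 0 ≤ Real.log T),
      abs_of_pos (by positivity : 0 < 2 * π), div_mul_cancel₀ _ (by positivity)]
    have := strip_re (hST hs) (hST hs')
    nlinarith
  have e1 : ∀ s s' : ℂ, dw (Real.log T) s s' / s0 = dw (Real.log V) s s' := by
    intro s s'
    unfold dw
    rw [hs0]
    have h1 : (Real.log T : ℂ) ≠ 0 := by
      rw [Complex.ofReal_ne_zero]
      linarith
    have h2 : (Real.log V : ℂ) ≠ 0 := by
      rw [Complex.ofReal_ne_zero]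
      exact hLV.ne'
    rw [Complex.ofReal_div]
    field_simp
  have e2 : ∀ s s' : ℂ, 2 * π * dw (Real.log T) s s' / Real.log T = zz s - zz s' := by
    intro s s'
    unfold dw
    have h1 : (Real.log T : ℂ) ≠ 0 := by
      rw [Complex.ofReal_ne_zero]
      linarith
    have h2 : (π : ℂ) ≠ 0 := by exact_mod_cast hpi.ne'
    field_simp
  have e3 : Ib K V - QC (gk K) S S (Real.log T) = QC G S S (Real.log T) := by
    rw [hI]
    unfold QC
    rw [← Finset.sum_sub_distrib]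
    refine Finset.sum_congr rfl fun s _ => ?_
    rw [← Finset.sum_sub_distrib]
    refine Finset.sum_congr rfl fun s' _ => ?_
    simp only [hG, gk]
    rw [e1, e2, Complex.sub_re]
    ring
  rw [abs_sub_comm, e3]
  have h1 := QC_abs (c := 4 * π * d0) (by linarith : (1 : ℝ) < T)
    (by have := d0_pos; positivity) le_rfl hE0 S S hpt one_pos
  have h2 := hP T hT S hST
  refine (QC_le_abs _ _ _ _).trans (h1.trans ?_)
  have h3 : 1600 * E * (1 * PP1 S (W T) (fun s => s.im) (Real.log T) +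
      1 / 1 * PP1 S (W T) (fun s => s.im) (Real.log T)) =
      3200 * E * PP1 S (W T) (fun s => s.im) (Real.log T) := by ring
  rw [h3]
  have h4 := mul_le_mul_of_nonneg_left h2 (show 0 ≤ 3200 * E by positivity)
  refine h4.trans (le_of_eq ?_)
  rw [hE]
  ring

end Pool.Agent.H8.PCU
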