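import Pool.Agent.H8.PCU.N2

/-! # Montgomery's theorem for the complex differences: assembly of the blocks -/

set_option autoImplicit false

open MeasureTheory Filter Topology Real

namespace Pool.Agent.H8.PCU

open H370 TH803TW Pool.Agent.Y744 Pool.Agent.Results.MP_103a5c_nt.BohrSetPairs

variable {κ : ℝ} {K : ℝ → ℝ}

/-- the starting point of the `j`-th block -/
noncomputable def Vj (j : ℕ) (T : ℝ) : ℝ := T / (3 / 2) ^ (j + 1)

lemma Vj_tendsto (j : ℕ) : Tendsto (Vj j) atTop atTop := by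
  unfold Vj
  exact tendsto_id.atTop_div_const (by positivity)

lemma log_Vj (j : ℕ) {T : ℝ} (hT : 0 < T) :
    Real.log (Vj j T) = Real.log T - (j + 1) * Real.log (3 / 2) := by
  unfold Vj
  rw [Real.log_div hT.ne' (by positivity), Real.log_pow]
  push_cast
  ring

lemma ratio_lim (j : ℕ) : Tendsto (fun T => Real.log T / Real.log (Vj j T)) atTop (𝓝 1) := by
  have h1 : Tendsto (fun T => (Real.log T)⁻¹) atTop (𝓝 (0 : ℝ)) :=
    tendsto_inv_atTop_zero.comp Real.tendsto_log_atTop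
  have h2 : Tendsto (fun T => (1 - (j + 1) * Real.log (3 / 2) * (Real.log T)⁻¹)⁻¹) atTop
      (𝓝 ((1 - (j + 1) * Real.log (3 / 2) * 0)⁻¹)) := by
    refine Tendsto.inv₀ (tendsto_const_nhds.sub (h1.const_mul _)) ?_
    norm_num
  rw [mul_zero, sub_zero, inv_one] at h2
  refine h2.congr' ?_
  filter_upwards [eventually_gt_atTop (1 : ℝ)] with T hT
  have hL : 0 < Real.log T := Real.log_pos hT
  rw [log_Vj j (by linarith)]
  have e : 1 - (j + 1) * Real.log (3 / 2) * (Real.log T)⁻¹ =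
      (Real.log T - (j + 1) * Real.log (3 / 2)) / Real.log T := by
    field_simp
  rw [e, inv_div]

lemma Xf_ratio (j : ℕ) : Tendsto (fun T => Xf (Vj j T) / Xf T) atTop (𝓝 (1 / (3 / 2) ^ (j + 1))) := by
  have h1 : Tendsto (fun T => (Real.log T)⁻¹) atTop (𝓝 (0 : ℝ)) :=
    tendsto_inv_atTop_zero.comp Real.tendsto_log_atTop
  have h2 : Tendsto (fun T => 1 / (3 / 2 : ℝ) ^ (j + 1) *
      (1 - (j + 1) * Real.log (3 / 2) * (Real.log T)⁻¹)) atTop
      (𝓝 (1 / (3 / 2) ^ (j + 1) * (1 - (j + 1) * Real.log (3 / 2) * 0))) :=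
    (tendsto_const_nhds.sub (h1.const_mul _)).const_mul _
  rw [mul_zero, sub_zero, mul_one] at h2
  refine h2.congr' ?_
  filter_upwards [eventually_gt_atTop (1 : ℝ)] with T hT
  have hL : 0 < Real.log T := Real.log_pos hT
  unfold Xf
  rw [log_Vj j (by linarith)]
  unfold Vj
  have hpi := Real.pi_pos
  have hT0 : 0 < T := by linarith
  field_simp

lemma block_lim (hκ : 0 < κ) (hκ1 : κ < 1 / 4) (hκ2 : κ < 2 * d0) (h : TK κ K) (j : ℕ) :
    Tendsto (fun T => QC (gk K) (Zb (Vj j T) (Vj j T + Vj j T / 2))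
      (Zb (Vj j T) (Vj j T + Vj j T / 2)) (Real.log T) / Xf T) atTop
      (𝓝 (mont K * (1 / (3 / 2) ^ j - 1 / (3 / 2) ^ (j + 1)))) := by
  obtain ⟨C, hC, T1, hT1, hb⟩ := blk_err hκ hκ1 hκ2 h
  have l1 := (Ib_lim hκ1 h).comp (Vj_tendsto j)
  have l2 := l1.mul (Xf_ratio j)
  have e1 : mont K / 2 * (1 / (3 / 2) ^ (j + 1)) =
      mont K * (1 / (3 / 2) ^ j - 1 / (3 / 2) ^ (j + 1)) := by
    rw [pow_succ]
    field_simp
    ring
  rw [e1] at l2
  have hinv : Tendsto (fun T => 1 / (Real.log T) ^ 2) atTop (𝓝 (0 : ℝ)) := by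
    have h1 : Tendsto (fun T => (Real.log T)⁻¹) atTop (𝓝 (0 : ℝ)) :=
      tendsto_inv_atTop_zero.comp Real.tendsto_log_atTop
    have h2 := h1.pow 2
    simp only [ne_eq, OfNat.ofNat_ne_zero, not_false_eq_true, zero_pow] at h2
    refine h2.congr fun T => ?_
    rw [inv_pow, one_div]
  have l3 : Tendsto (fun T => C * (Real.log T / Real.log (Vj j T) - 1 + 1 / Real.log T ^ 2)) atTop
      (𝓝 (C * (1 - 1 + 0))) := (((ratio_lim j).sub_const 1).add hinv).const_mul C
  rw [sub_self, zero_add, mul_zero] at l3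
  have l4 : Tendsto (fun T => (QC (gk K) (Zb (Vj j T) (Vj j T + Vj j T / 2))
      (Zb (Vj j T) (Vj j T + Vj j T / 2)) (Real.log T) - Ib K (Vj j T)) / Xf T) atTop (𝓝 0) := by
    refine squeeze_zero_norm' ?_ l3
    filter_upwards [eventually_ge_atTop T1, (Vj_tendsto j).eventually_ge_atTop 10,
      (tendsto_order.1 (ratio_lim j)).2 2 (by norm_num), eventually_gt_atTop (1 : ℝ)]
      with T hT hV hr hT1'
    have hX := Xf_pos hT1'
    have hLV : 0 < Real.log (Vj j T) := Real.log_pos (by linarith)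
    rw [div_lt_iff₀ hLV] at hr
    have hVT : 3 / 2 * Vj j T ≤ T := by
      have : 3 / 2 * Vj j T = T / (3 / 2) ^ j := by
        unfold Vj
        rw [pow_succ]
        field_simp
      rw [this]
      exact div_le_self (by linarith) (one_le_pow₀ (by norm_num))
    have h1 := hb T (Vj j T) hT hV hVT hr.le
    rw [Real.norm_eq_abs, abs_div, abs_of_pos hX, div_le_iff₀ hX]
    exact h1
  have l5 := l2.add l4
  rw [add_zero] at l5
  refine l5.congr' ?_
  filter_upwards [eventually_gt_atTop (1 : ℝ), (Vj_tendsto j).eventually_gt_atTop 1] with T hT hV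
  have hX := Xf_pos hT
  have hXV := Xf_pos hV
  simp only [Function.comp]
  field_simp
  ring

/-- the number of zeros near the top of `Zt V` -/
lemma near_count : ∃ V1 : ℝ, 20 ≤ V1 ∧ ∀ V : ℝ, V1 ≤ V →
    ∑ s ∈ (Zt V).filter (fun s => V - 1 < s.im), mz s ≤ √V := by
  obtain ⟨V1, hV1, hN⟩ := near_bound
  refine ⟨V1, hV1, fun V hV => ?_⟩
  have hV20 := hV1.trans hV
  refine Real.le_sqrt_of_sq_le ?_
  have h1 := hN V hV
  have h0 : 0 ≤ ∑ s ∈ (Zt V).filter (fun s => V - 1 < s.im), mz s :=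
    Finset.sum_nonneg fun s _ => mz_nonneg s
  have h2 : ∑ s ∈ (Zt V).filter (fun s => V - 1 < s.im), mz s ≤
      ∑ s ∈ Zb (V - 1) (V - 1 + 3), mz s := by
    refine Finset.sum_le_sum_of_subset_of_nonneg (fun s hs => ?_) fun s _ _ => mz_nonneg s
    obtain ⟨h1, h2⟩ := Finset.mem_filter.1 hs
    rw [mem_Zt] at h1
    rw [mem_Zb (by linarith)]
    exact ⟨h1.1, h1.2.1, h2, by linarith [h1.2.2.2.1], h1.2.2.2.2⟩
  have h3 := pow_le_pow_left₀ h0 h2 2
  have h4 : 0 ≤ (∑ s ∈ Zb (V - 1) (V - 1 + 3), mz s) ^ 2 := sq_nonneg _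
  linarith

/-- cross terms -/
lemma cross_lim (hκ2 : κ < 2 * d0) (h : TK κ K) (j : ℕ) :
    Tendsto (fun T => QC (gk K) (Zt (Vj j T)) (Zb (Vj j T) (Vj j T + Vj j T / 2))
      (Real.log T) / Xf T) atTop (𝓝 0) := by
  have hpi := Real.pi_pos
  have hc0 := c0_nonneg
  have hd0 := d0_pos
  obtain ⟨C, hC, hb⟩ := gk_decay h (c := 4 * π * d0) (by nlinarith)
  obtain ⟨T1, hT1, hP⟩ := PP1_Xf
  obtain ⟨V1, hV1, hnear⟩ := near_count
  rw [Metric.tendsto_atTop]
  intro ε hε
  obtain ⟨P, hPd⟩ : ∃ P : ℝ, P = 7 * c0 + 1 := ⟨_, rfl⟩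
  have hP1 : 1 ≤ P := by rw [hPd]; linarith
  obtain ⟨lam, hlam⟩ : ∃ lam : ℝ, lam = 1600 * (C + 1) * P * 4 / ε := ⟨_, rfl⟩
  have hlam0 : 0 < lam := by rw [hlam]; positivity
  obtain ⟨η, hη⟩ : ∃ η : ℝ, η = ε / (1600 * (C + 1) * lam * P * 8) := ⟨_, rfl⟩
  have hη0 : 0 < η := by rw [hη]; positivity
  have ev1 := sqrt_small (η * ε / (1600 * (C + 1) * lam * 2)) (by positivity)
  have ev2 : ∀ᶠ T : ℝ in atTop, (3200 * (C + 1) * (2 * P) * 8 / ε) ^ 2 ≤ Real.log T :=
    Real.tendsto_log_atTop.eventually_ge_atTop _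
  have ev3 := (Vj_tendsto j).eventually_ge_atTop V1
  obtain ⟨T2, hT2⟩ := (ev1.and (ev2.and (ev3.and (sqrt_small 1 one_pos)))).exists_forall_of_atTop
  refine ⟨max T1 T2, fun T hT => ?_⟩
  obtain ⟨e1, e2, e3, e4⟩ := hT2 T ((le_max_right _ _).trans hT)
  have hTT1 := (le_max_left _ _).trans hT
  have ht0 := t0_ge
  have hTt : t0 ≤ T := hT1.trans hTT1
  have hT16 : 16 ≤ T := ht0.trans hTt
  have hL1 : 1 ≤ Real.log T := log_ge hTt
  have hX := Xf_pos (V := T) (by linarith)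
  set V := Vj j T with hV
  have hV20 : 20 ≤ V := hV1.trans e3
  have hqV : V + V / 2 ≤ T := by
    have : V + V / 2 = T / (3 / 2) ^ j := by
      rw [hV]
      unfold Vj
      rw [pow_succ]
      field_simp
      ring
    rw [this]
    exact div_le_self (by linarith) (one_le_pow₀ (by norm_num))
  have hVT : V ≤ T := by linarith
  set A := (Zt V).filter (fun s => V - 1 < s.im) with hA
  set B := (Zt V).filter (fun s => ¬ V - 1 < s.im) with hB
  set D := Zb V (V + V / 2) with hD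
  have hAT : A ⊆ Zt T := (Finset.filter_subset _ _).trans (Zt_mono hVT)
  have hBT : B ⊆ Zt T := (Finset.filter_subset _ _).trans (Zt_mono hVT)
  have hDT : D ⊆ Zt T := (Zb_sub (by linarith)).trans (Zt_mono hqV)
  have hPA : PP1 A (W T) (fun s => s.im) (Real.log T) ≤ 1 / (4 * η) * √T + η * (P * Xf T) := by
    have h1 := PP1_eta hTt (V := T) (by linarith) le_rfl hAT hη0
    have h2 := hnear V e3
    have h3 : √V ≤ √T := Real.sqrt_le_sqrt hVT
    have h4 : T ^ (1 / 2 : ℝ) + c0 * (T * Real.log T) ≤ P * Xf T := by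
      have h5 : T * Real.log T ≤ 7 * Xf T := by
        unfold Xf
        have hpi2 := Real.pi_lt_d2
        have h4 : 0 ≤ T * Real.log T := mul_nonneg (by linarith) (by linarith)
        rw [← mul_div_assoc, le_div_iff₀ (by positivity)]
        nlinarith
      have h6 := mul_le_mul_of_nonneg_left h5 hc0
      rw [hPd]
      linarith
    refine h1.trans (add_le_add ?_ (mul_le_mul_of_nonneg_left h4 hη0.le))
    exact mul_le_mul_of_nonneg_left (h2.trans h3) (by positivity)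
  have hPB := hP T hTT1 B hBT
  have hPD := hP T hTT1 D hDT
  rw [← hPd] at hPB hPD
  have n1 := QC_abs (c := 4 * π * d0) (by linarith : (1 : ℝ) < T) (by positivity) le_rfl hC A D
    (fun s _ s' _ => hb _) hlam0
  have n2 := QC_far (c := 4 * π * d0) (by linarith : (1 : ℝ) < T) hL1 (by positivity) le_rfl hC
    B D (fun s _ s' _ => hb _) (by
      intro s hs s' hs'
      obtain ⟨h1, h2⟩ := Finset.mem_filter.1 hs
      rw [mem_Zb (by linarith)] at hs'
      have h3 := hs'.2.2.1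
      push Not at h2
      rw [abs_sub_comm]
      refine le_trans ?_ (le_abs_self _)
      linarith)
  have n0 := QC_le_abs (gk K) (Zt V) D (Real.log T)
  rw [← Finset.sum_filter_add_sum_filter_not (Zt V) (fun s => V - 1 < s.im)] at n0
  have hsqrt : √T = T ^ (1 / 2 : ℝ) := Real.sqrt_eq_rpow T
  -- near part
  have b1 : 1600 * C * (lam * PP1 A (W T) (fun s => s.im) (Real.log T) +
      1 / lam * PP1 D (W T) (fun s => s.im) (Real.log T)) ≤ ε / 2 * Xf T := by
    have q1 : lam * PP1 A (W T) (fun s => s.im) (Real.log T) ≤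
        lam * (1 / (4 * η) * √T + η * (P * Xf T)) := mul_le_mul_of_nonneg_left hPA hlam0.le
    have q2 : 1 / lam * PP1 D (W T) (fun s => s.im) (Real.log T) ≤ 1 / lam * (P * Xf T) :=
      mul_le_mul_of_nonneg_left hPD (by positivity)
    have q3 : 1600 * C ≤ 1600 * (C + 1) := by linarith
    have r1 : 1600 * (C + 1) * (lam * (1 / (4 * η) * √T)) ≤ ε / 8 * Xf T := by
      have := mul_le_mul_of_nonneg_left e1
        (show 0 ≤ 1600 * (C + 1) * (lam * (1 / (4 * η))) by positivity)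
      rw [hsqrt]
      refine le_trans (le_of_eq ?_) (this.trans (le_of_eq ?_))
      · ring
      · field_simp
        ring
    have r2 : 1600 * (C + 1) * (lam * (η * (P * Xf T))) ≤ ε / 8 * Xf T := by
      rw [hη]
      refine le_of_eq ?_
      field_simp
    have r3 : 1600 * (C + 1) * (1 / lam * (P * Xf T)) ≤ ε / 4 * Xf T := by
      rw [hlam]
      refine le_of_eq ?_
      field_simp
    have q4 : 0 ≤ lam * (1 / (4 * η) * √T + η * (P * Xf T)) + 1 / lam * (P * Xf T) := by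
      positivity
    calc 1600 * C * (lam * PP1 A (W T) (fun s => s.im) (Real.log T) +
          1 / lam * PP1 D (W T) (fun s => s.im) (Real.log T)) ≤
          1600 * C * (lam * (1 / (4 * η) * √T + η * (P * Xf T)) + 1 / lam * (P * Xf T)) :=
          mul_le_mul_of_nonneg_left (add_le_add q1 q2) (by positivity)
      _ ≤ 1600 * (C + 1) * (lam * (1 / (4 * η) * √T + η * (P * Xf T)) + 1 / lam * (P * Xf T)) :=
          mul_le_mul_of_nonneg_right q3 q4
      _ = 1600 * (C + 1) * (lam * (1 / (4 * η) * √T)) + 1600 * (C + 1) * (lam * (η * (P * Xf T))) +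
          1600 * (C + 1) * (1 / lam * (P * Xf T)) := by ring
      _ ≤ _ := by linarith
  -- far part
  have b2 : 3200 * C / √(Real.log T) * (PP1 B (W T) (fun s => s.im) (Real.log T) +
      PP1 D (W T) (fun s => s.im) (Real.log T)) ≤ ε / 8 * Xf T := by
    have hs : 3200 * (C + 1) * (2 * P) * 8 / ε ≤ √(Real.log T) := Real.le_sqrt_of_sq_le e2
    have hs0 : 0 < √(Real.log T) := Real.sqrt_pos.2 (by linarith)
    calc 3200 * C / √(Real.log T) * (PP1 B (W T) (fun s => s.im) (Real.log T) +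
        PP1 D (W T) (fun s => s.im) (Real.log T)) ≤
          3200 * C / √(Real.log T) * (P * Xf T + P * Xf T) :=
          mul_le_mul_of_nonneg_left (add_le_add hPB hPD) (by positivity)
      _ = (3200 * C * (2 * P) / √(Real.log T)) * Xf T := by ring
      _ ≤ ε / 8 * Xf T := by
          refine mul_le_mul_of_nonneg_right ?_ hX.le
          rw [div_le_iff₀ hs0]
          rw [div_le_iff₀ hε] at hs
          nlinarith
  rw [Real.dist_eq, sub_zero, abs_div, abs_of_pos hX, div_lt_iff₀ hX]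
  have h3 := (n0.trans (add_le_add (n1.trans b1) (n2.trans b2)))
  have h4 : 0 < ε * Xf T := by positivity
  linarith

lemma QC_split (K : ℝ → ℝ) {V : ℝ} (hV : 1 ≤ V) (Λ : ℝ) :
    QC (gk K) (Zt (V + V / 2)) (Zt (V + V / 2)) Λ = QC (gk K) (Zt V) (Zt V) Λ +
      QC (gk K) (Zb V (V + V / 2)) (Zb V (V + V / 2)) Λ +
      2 * QC (gk K) (Zt V) (Zb V (V + V / 2)) Λ := by
  classical
  exact split_pairs (Zt_split (V := V) (T := V + V / 2) hV (by linarith)) (Zt_disj hV)
    (fun s s' : ℂ => mz s * mz s' * gk K (dw Λ s s'))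
    (fun s s' => by
      show mz s * mz s' * gk K (dw Λ s s') = mz s' * mz s * gk K (dw Λ s' s)
      rw [gk_swap K Λ s s']
      ring)

lemma tele_QC (hκ : 0 < κ) (hκ1 : κ < 1 / 4) (hκ2 : κ < 2 * d0) (h : TK κ K) (J : ℕ) :
    Tendsto (fun T => (QC (gk K) (Zt T) (Zt T) (Real.log T) -
      QC (gk K) (Zt (T / (3 / 2) ^ J)) (Zt (T / (3 / 2) ^ J)) (Real.log T)) / Xf T) atTop
      (𝓝 (mont K * (1 - 1 / (3 / 2) ^ J))) := by
  induction J with
  | zero =>
    simp only [pow_zero, div_one, sub_self, zero_div, mul_zero]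
    exact tendsto_const_nhds
  | succ J ih =>
    have h1 := block_lim hκ hκ1 hκ2 h J
    have h2 := (cross_lim hκ2 h J).const_mul 2
    have h4 := ih.add (h1.add h2)
    have e : mont K * (1 - 1 / (3 / 2) ^ J) +
        (mont K * (1 / (3 / 2) ^ J - 1 / (3 / 2) ^ (J + 1)) + 2 * 0) =
        mont K * (1 - 1 / (3 / 2) ^ (J + 1)) := by
      ring
    rw [e] at h4
    refine h4.congr' ?_
    filter_upwards [(Vj_tendsto J).eventually_ge_atTop 1] with T hV
    have e1 : Vj J T + Vj J T / 2 = T / (3 / 2) ^ J := by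
      unfold Vj
      rw [pow_succ]
      field_simp
      ring
    have h5 := QC_split K hV (Real.log T)
    rw [e1] at h5 ⊢
    rw [h5]
    show _ = (QC (gk K) (Zt T) (Zt T) (Real.log T) -
      QC (gk K) (Zt (Vj J T)) (Zt (Vj J T)) (Real.log T)) / Xf T
    ring

/-- **Montgomery's theorem for the complex differences of the zeros up to height `T`** -/
theorem QC_lim (hκ : 0 < κ) (hκ1 : κ < 1 / 4) (hκ2 : κ < 2 * d0) (h : TK κ K) :
    Tendsto (fun T => QC (gk K) (Zt T) (Zt T) (Real.log T) / Xf T) atTop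
      (𝓝 (mont K)) := by
  have hpi := Real.pi_pos
  have hc0 := c0_nonneg
  have hd0 := d0_pos
  obtain ⟨C, hC, hb⟩ := gk_decay h (c := 4 * π * d0) (by nlinarith)
  set c := mont K with hc
  rw [Metric.tendsto_atTop]
  intro ε hε
  obtain ⟨D, hD⟩ : ∃ D : ℝ, D = |c| + 3200 * C * (7 * c0 + 1) := ⟨_, rfl⟩
  have hD0 : 0 ≤ D := by rw [hD]; positivity
  obtain ⟨J, hJ⟩ := pow_unbounded_of_one_lt (4 * (D + 1) / ε) (show (1 : ℝ) < 3 / 2 by norm_num)
  have h2J : (1 : ℝ) ≤ (3 / 2) ^ J := one_le_pow₀ (by norm_num)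
  have h1 := (Metric.tendsto_nhds.1 (tele_QC hκ hκ1 hκ2 h J)) (ε / 4) (by positivity)
  have ev2 := sqrt_small (1 / (3 / 2) ^ J) (by positivity)
  obtain ⟨T1, hT1⟩ := (h1.and ev2).exists_forall_of_atTop
  refine ⟨max t0 T1, fun T hT => ?_⟩
  obtain ⟨a1, a2⟩ := hT1 T ((le_max_right _ _).trans hT)
  have ht0 := t0_ge
  have hTt : t0 ≤ T := (le_max_left _ _).trans hT
  have hT16 : 16 ≤ T := ht0.trans hTt
  have hL1 := log_ge hTt
  have hX := Xf_pos (V := T) (by linarith)
  have hV0 : 0 ≤ T / (3 / 2) ^ J := by positivity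
  have hVT : T / (3 / 2) ^ J ≤ T := div_le_self (by linarith) h2J
  have b1 : |QC (gk K) (Zt (T / (3 / 2) ^ J)) (Zt (T / (3 / 2) ^ J)) (Real.log T)| ≤
      3200 * C * (7 * c0 + 1) / (3 / 2) ^ J * Xf T := by
    have n1 := QC_abs (c := 4 * π * d0) (by linarith : (1 : ℝ) < T) (by positivity) le_rfl hC
      (Zt (T / (3 / 2) ^ J)) (Zt (T / (3 / 2) ^ J)) (fun s _ s' _ => hb _) one_pos
    have n2 := PP1_bound hTt hV0 hVT (S := Zt (T / (3 / 2) ^ J)) (Finset.Subset.refl _)
    have n3 : T ^ (1 / 2 : ℝ) + c0 * (T / (3 / 2) ^ J * Real.log T) ≤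
        (7 * c0 + 1) / (3 / 2) ^ J * Xf T := by
      have h5 : T * Real.log T ≤ 7 * Xf T := by
        unfold Xf
        have hpi2 := Real.pi_lt_d2
        have h4 : 0 ≤ T * Real.log T := mul_nonneg (by linarith) (by linarith)
        rw [← mul_div_assoc, le_div_iff₀ (by positivity)]
        nlinarith
      have h6 : c0 * (T / (3 / 2) ^ J * Real.log T) ≤ c0 * (7 * Xf T) / (3 / 2) ^ J := by
        have e : c0 * (T / (3 / 2) ^ J * Real.log T) = c0 * (T * Real.log T) / (3 / 2) ^ J := by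
          ring
        rw [e]
        exact div_le_div_of_nonneg_right (mul_le_mul_of_nonneg_left h5 hc0) (by positivity)
      have e : (7 * c0 + 1) / (3 / 2) ^ J * Xf T = c0 * (7 * Xf T) / (3 / 2) ^ J +
          1 / (3 / 2) ^ J * Xf T := by ring
      rw [e]
      linarith
    refine (QC_le_abs _ _ _ _).trans (n1.trans ?_)
    have e : 1600 * C * (1 * PP1 (Zt (T / (3 / 2) ^ J)) (W T) (fun s => s.im) (Real.log T) +
        1 / 1 * PP1 (Zt (T / (3 / 2) ^ J)) (W T) (fun s => s.im) (Real.log T)) =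
        3200 * C * PP1 (Zt (T / (3 / 2) ^ J)) (W T) (fun s => s.im) (Real.log T) := by ring
    rw [e]
    refine (mul_le_mul_of_nonneg_left (n2.trans n3) (by positivity)).trans (le_of_eq ?_)
    ring
  rw [Real.dist_eq] at a1 ⊢
  have e : QC (gk K) (Zt T) (Zt T) (Real.log T) / Xf T - c =
      ((QC (gk K) (Zt T) (Zt T) (Real.log T) -
        QC (gk K) (Zt (T / (3 / 2) ^ J)) (Zt (T / (3 / 2) ^ J)) (Real.log T)) / Xf T -
        c * (1 - 1 / (3 / 2) ^ J)) +
      (QC (gk K) (Zt (T / (3 / 2) ^ J)) (Zt (T / (3 / 2) ^ J)) (Real.log T) / Xf T -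
        c / (3 / 2) ^ J) := by
    ring
  rw [e]
  have b2 : |QC (gk K) (Zt (T / (3 / 2) ^ J)) (Zt (T / (3 / 2) ^ J)) (Real.log T) / Xf T| ≤
      3200 * C * (7 * c0 + 1) / (3 / 2) ^ J := by
    rw [abs_div, abs_of_pos hX, div_le_iff₀ hX]
    exact b1
  have b3 : |QC (gk K) (Zt (T / (3 / 2) ^ J)) (Zt (T / (3 / 2) ^ J)) (Real.log T) / Xf T -
      c / (3 / 2) ^ J| ≤ D / (3 / 2) ^ J := by
    refine (abs_sub _ _).trans ?_
    rw [abs_div c, abs_of_pos (by positivity : (0 : ℝ) < (3 / 2) ^ J), hD, add_div, add_comm]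
    gcongr
  have b4 : D / (3 / 2) ^ J < ε / 4 := by
    rw [div_lt_iff₀ hε] at hJ
    rw [div_lt_iff₀ (by positivity)]
    linarith
  refine (abs_add_le _ _).trans_lt ?_
  linarith

end Pool.Agent.H8.PCU
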