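import Pool.Agent.H8.PCU.N3

/-! # Comparison of the complex and the real differences -/

set_option autoImplicit false

open MeasureTheory Filter Topology Real

namespace Pool.Agent.H8.PCU

open H370 TH803TW Pool.Agent.Y744 Pool.Agent.Results.MP_103a5c_nt.BohrSetPairs

variable {κ : ℝ} {K : ℝ → ℝ}

lemma QC_sub_Q2 (K : ℝ → ℝ) (T : ℝ) :
    QC (gk K) (Zt T) (Zt T) (Real.log T) - Q2 (ct K) T (Real.log T) =
      QC (fun w => gk K w - ct K w.re) (Zt T) (Zt T) (Real.log T) := by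
  unfold QC Q2 QS
  rw [← Finset.sum_sub_distrib]
  refine Finset.sum_congr rfl fun s _ => ?_
  rw [← Finset.sum_sub_distrib]
  refine Finset.sum_congr rfl fun s' _ => ?_
  show _ = mz s * mz s' * (gk K (dw (Real.log T) s s') - ct K (dw (Real.log T) s s').re)
  rw [dw_re]
  ring

/-- **uniform comparison for the two bump test functions** -/
theorem cmp_lav (hκ : 0 < κ) (hκ2 : κ < 2 * d0) (h : TK κ K) : ∃ C, 0 ≤ C ∧ ∃ T1, t0 ≤ T1 ∧
    ∀ T : ℝ, T1 ≤ T → ∀ A : ℝ,
      |QC (gk (Lav K A)) (Zt T) (Zt T) (Real.log T) - Q2 (ct (Lav K A)) T (Real.log T)| ≤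
        C * Xf T := by
  have hpi := Real.pi_pos
  have hc0 := c0_nonneg
  have hd0 := d0_pos
  obtain ⟨C, hC, hb⟩ := lav_cmp hκ h (c := 4 * π * d0) (by nlinarith)
  obtain ⟨T1, hT1, hP⟩ := PP1_Xf
  refine ⟨C * (4 * (32 * π * (7 * c0 + 1))), by positivity, T1, hT1, fun T hT A => ?_⟩
  have ht0 := t0_ge
  have hT16 : 16 ≤ T := ht0.trans (hT1.trans hT)
  have hX := Xf_pos (V := T) (by linarith)
  rw [QC_sub_Q2]
  refine (QC_le_abs _ _ _ _).trans ?_
  have hk : ∀ b : ℝ, ∑ s ∈ Zt T, ∑ s' ∈ Zt T, mz s * mz s' *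
      (Real.exp (4 * π * d0 * |(dw (Real.log T) s s').im|) *
        (1 / (1 + ((dw (Real.log T) s s').re - b) ^ 2))) ≤ 32 * π * (7 * c0 + 1) * Xf T := by
    intro b
    have h1 := QC_kernel (T := T) (c := 4 * π * d0) (by linarith) (by positivity) le_rfl (Zt T)
      one_pos le_rfl b
    simp only [one_pow, one_mul, div_one] at h1
    refine h1.trans ?_
    have h2 := mul_le_mul_of_nonneg_left (hP T hT (Zt T) (Finset.Subset.refl _))
      (show 0 ≤ 32 * π by positivity)
    linarith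
  have h1 : ∀ s s' : ℂ, |mz s * mz s' * (fun w => gk (Lav K A) w - ct (Lav K A) w.re)
      (dw (Real.log T) s s')| ≤
      C * (mz s * mz s' * (Real.exp (4 * π * d0 * |(dw (Real.log T) s s').im|) *
        (1 / (1 + ((dw (Real.log T) s s').re - -A) ^ 2))) +
      mz s * mz s' * (Real.exp (4 * π * d0 * |(dw (Real.log T) s s').im|) *
        (1 / (1 + ((dw (Real.log T) s s').re - A) ^ 2))) +
      2 * (mz s * mz s' * (Real.exp (4 * π * d0 * |(dw (Real.log T) s s').im|) *
        (1 / (1 + ((dw (Real.log T) s s').re - 0) ^ 2))))) := by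
    intro s s'
    have h4 := mul_nonneg (mz_nonneg s) (mz_nonneg s')
    rw [abs_mul, abs_of_nonneg h4]
    refine (mul_le_mul_of_nonneg_left (hb A _) h4).trans (le_of_eq ?_)
    ring
  calc ∑ s ∈ Zt T, ∑ s' ∈ Zt T, |mz s * mz s' * (fun w => gk (Lav K A) w - ct (Lav K A) w.re)
        (dw (Real.log T) s s')| ≤ ∑ s ∈ Zt T, ∑ s' ∈ Zt T,
      C * (mz s * mz s' * (Real.exp (4 * π * d0 * |(dw (Real.log T) s s').im|) *
        (1 / (1 + ((dw (Real.log T) s s').re - -A) ^ 2))) +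
      mz s * mz s' * (Real.exp (4 * π * d0 * |(dw (Real.log T) s s').im|) *
        (1 / (1 + ((dw (Real.log T) s s').re - A) ^ 2))) +
      2 * (mz s * mz s' * (Real.exp (4 * π * d0 * |(dw (Real.log T) s s').im|) *
        (1 / (1 + ((dw (Real.log T) s s').re - 0) ^ 2))))) :=
        Finset.sum_le_sum fun s _ => Finset.sum_le_sum fun s' _ => h1 s s'
    _ = C * ((∑ s ∈ Zt T, ∑ s' ∈ Zt T, mz s * mz s' *
          (Real.exp (4 * π * d0 * |(dw (Real.log T) s s').im|) *
            (1 / (1 + ((dw (Real.log T) s s').re - -A) ^ 2)))) +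
        (∑ s ∈ Zt T, ∑ s' ∈ Zt T, mz s * mz s' *
          (Real.exp (4 * π * d0 * |(dw (Real.log T) s s').im|) *
            (1 / (1 + ((dw (Real.log T) s s').re - A) ^ 2)))) +
        2 * (∑ s ∈ Zt T, ∑ s' ∈ Zt T, mz s * mz s' *
          (Real.exp (4 * π * d0 * |(dw (Real.log T) s s').im|) *
            (1 / (1 + ((dw (Real.log T) s s').re - 0) ^ 2))))) := by
        rw [Finset.mul_sum, ← Finset.sum_add_distrib, ← Finset.sum_add_distrib, Finset.mul_sum]
        refine Finset.sum_congr rfl fun s _ => ?_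
        rw [Finset.mul_sum, ← Finset.sum_add_distrib, ← Finset.sum_add_distrib, Finset.mul_sum]
    _ ≤ C * (32 * π * (7 * c0 + 1) * Xf T + 32 * π * (7 * c0 + 1) * Xf T +
        2 * (32 * π * (7 * c0 + 1) * Xf T)) := by
        have k1 := hk (-A)
        have k2 := hk A
        have k3 := hk 0
        gcongr
    _ = _ := by ring

/-- the zeros off the critical line -/
noncomputable def Zo (T : ℝ) : Finset ℂ := (Zt T).filter (fun s => s.re ≠ 1 / 2)

lemma ct_le (h : TK κ K) : ∃ C, 0 ≤ C ∧ ∀ x : ℝ, |ct K x| ≤ C / (1 + x ^ 2) := by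
  obtain ⟨C, hC, hb⟩ := h.decay 1
  refine ⟨C, hC, fun x => ?_⟩
  have := hb x
  rwa [pow_one] at this

/-- **comparison if almost all zeros are on the critical line** -/
theorem cmp_small (hκ2 : κ < 2 * d0) (h : TK κ K) {F : Filter ℝ} (hF : F ≤ atTop)
    (ho : Tendsto (fun T => (∑ s ∈ Zo T, mz s) / Xf T) F (𝓝 0)) :
    Tendsto (fun T => (QC (gk K) (Zt T) (Zt T) (Real.log T) - Q2 (ct K) T (Real.log T)) / Xf T) F
      (𝓝 0) := by
  classical
  have hpi := Real.pi_pos
  have hc0 := c0_nonneg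
  have hd0 := d0_pos
  obtain ⟨C1, hC1, hb1⟩ := gk_decay h (c := 4 * π * d0) (by nlinarith)
  obtain ⟨C2, hC2, hb2⟩ := ct_le h
  obtain ⟨T1, hT1, hP⟩ := PP1_Xf
  obtain ⟨C, hC⟩ : ∃ C : ℝ, C = C1 + C2 + 1 := ⟨_, rfl⟩
  have hC0 : 0 < C := by rw [hC]; positivity
  obtain ⟨P, hPd⟩ : ∃ P : ℝ, P = 7 * c0 + 1 := ⟨_, rfl⟩
  have hP1 : 1 ≤ P := by rw [hPd]; linarith
  rw [Metric.tendsto_nhds]
  intro ε hε
  obtain ⟨lam, hlam⟩ : ∃ lam : ℝ, lam = 1600 * C * P * 8 / ε := ⟨_, rfl⟩
  have hlam0 : 0 < lam := by rw [hlam]; positivity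
  obtain ⟨η, hη⟩ : ∃ η : ℝ, η = ε / (1600 * C * lam * P * 16) := ⟨_, rfl⟩
  have hη0 : 0 < η := by rw [hη]; positivity
  have ev1 := (Metric.tendsto_nhds.1 ho) (η * ε / (1600 * C * lam * 2)) (by positivity)
  filter_upwards [ev1, hF (eventually_ge_atTop T1), hF (sqrt_small 1 one_pos)] with T e1 hTT1 e4
  have ht0 := t0_ge
  have hTt : t0 ≤ T := hT1.trans hTT1
  have hT16 : 16 ≤ T := ht0.trans hTt
  have hL1 : 1 ≤ Real.log T := log_ge hTt
  have hX := Xf_pos (V := T) (by linarith)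
  have hZo : Zo T ⊆ Zt T := Finset.filter_subset _ _
  have hPo : PP1 (Zo T) (W T) (fun s => s.im) (Real.log T) ≤
      1 / (4 * η) * ∑ s ∈ Zo T, mz s + η * (P * Xf T) := by
    have h1 := PP1_eta hTt (V := T) (by linarith) le_rfl hZo hη0
    have h4 : T ^ (1 / 2 : ℝ) + c0 * (T * Real.log T) ≤ P * Xf T := by
      have h5 : T * Real.log T ≤ 7 * Xf T := by
        unfold Xf
        have hpi2 := Real.pi_lt_d2
        have h4 : 0 ≤ T * Real.log T := mul_nonneg (by linarith) (by linarith)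
        rw [← mul_div_assoc, le_div_iff₀ (by positivity)]
        nlinarith
      have h6 := mul_le_mul_of_nonneg_left h5 hc0
      rw [hPd]
      linarith
    exact h1.trans (add_le_add le_rfl (mul_le_mul_of_nonneg_left h4 hη0.le))
  have hPt := hP T hTT1 (Zt T) (Finset.Subset.refl _)
  rw [← hPd] at hPt
  have hoX : ∑ s ∈ Zo T, mz s ≤ η * ε / (1600 * C * lam * 2) * Xf T := by
    rw [Real.dist_eq, sub_zero, abs_div, abs_of_pos hX, div_lt_iff₀ hX] at e1
    exact (le_abs_self _).trans e1.le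
  -- the sum over one off line zero
  have hg : ∀ w : ℂ, |gk K w - ct K w.re| ≤
      C * Real.exp (4 * π * d0 * |w.im|) / (1 + w.re ^ 2) := by
    intro w
    refine (abs_sub _ _).trans ((add_le_add (hb1 w) (hb2 w.re)).trans ?_)
    rw [← add_div]
    refine div_le_div_of_nonneg_right ?_ (by positivity)
    have h1 : 1 ≤ Real.exp (4 * π * d0 * |w.im|) := Real.one_le_exp (by positivity)
    have h2 : C2 * 1 ≤ C2 * Real.exp (4 * π * d0 * |w.im|) := mul_le_mul_of_nonneg_left h1 hC2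
    rw [hC]
    nlinarith
  have n1 := QC_abs (g := fun w => gk K w - ct K w.re) (c := 4 * π * d0)
    (by linarith : (1 : ℝ) < T) (by positivity) le_rfl hC0.le (Zo T) (Zt T)
    (fun s _ s' _ => hg _) hlam0
  have n2 : 1600 * C * (lam * PP1 (Zo T) (W T) (fun s => s.im) (Real.log T) +
      1 / lam * PP1 (Zt T) (W T) (fun s => s.im) (Real.log T)) ≤ 3 * ε / 8 * Xf T := by
    have q1 : lam * PP1 (Zo T) (W T) (fun s => s.im) (Real.log T) ≤
        lam * (1 / (4 * η) * (η * ε / (1600 * C * lam * 2) * Xf T) + η * (P * Xf T)) := by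
      refine mul_le_mul_of_nonneg_left (hPo.trans ?_) hlam0.le
      gcongr
    have q2 : 1 / lam * PP1 (Zt T) (W T) (fun s => s.im) (Real.log T) ≤ 1 / lam * (P * Xf T) :=
      mul_le_mul_of_nonneg_left hPt (by positivity)
    calc 1600 * C * (lam * PP1 (Zo T) (W T) (fun s => s.im) (Real.log T) +
          1 / lam * PP1 (Zt T) (W T) (fun s => s.im) (Real.log T)) ≤
        1600 * C * (lam * (1 / (4 * η) * (η * ε / (1600 * C * lam * 2) * Xf T) +
          η * (P * Xf T)) + 1 / lam * (P * Xf T)) :=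
          mul_le_mul_of_nonneg_left (add_le_add q1 q2) (by positivity)
      _ = ε / 8 * Xf T + 1600 * C * lam * η * P * Xf T + 1600 * C * P / lam * Xf T := by
          field_simp
          ring
      _ = ε / 8 * Xf T + ε / 16 * Xf T + ε / 8 * Xf T := by
          have r1 : 1600 * C * lam * η * P = ε / 16 := by
            rw [hη]
            field_simp
          have r2 : 1600 * C * P / lam = ε / 8 := by
            rw [hlam]
            field_simp
          rw [r1, r2]
      _ ≤ _ := by nlinarith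
  -- the pairs on the line cancel
  have hz : ∀ s ∈ Zt T, s ∉ Zo T → ∀ s' ∈ Zt T, s' ∉ Zo T →
      gk K (dw (Real.log T) s s') - ct K (dw (Real.log T) s s').re = 0 := by
    intro s hs hso s' hs' hso'
    have a1 : s.re = 1 / 2 := by
      by_contra hc
      exact hso (Finset.mem_filter.2 ⟨hs, hc⟩)
    have a2 : s'.re = 1 / 2 := by
      by_contra hc
      exact hso' (Finset.mem_filter.2 ⟨hs', hc⟩)
    have a3 : (dw (Real.log T) s s').im = 0 := by
      rw [dw_im, a1, a2]
      simp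
    have a4 : dw (Real.log T) s s' = ((dw (Real.log T) s s').re : ℂ) := by
      nth_rewrite 1 [re_im_eta (dw (Real.log T) s s')]
      rw [a3, Complex.ofReal_zero, zero_mul, add_zero]
    unfold gk
    nth_rewrite 1 [a4]
    rw [CT_real, Complex.ofReal_re, sub_self]
  set Gf : ℂ → ℂ → ℝ := fun s s' => |mz s * mz s' * (fun w => gk K w - ct K w.re)
    (dw (Real.log T) s s')| with hGf
  have hsym : ∀ s s', Gf s s' = Gf s' s := by
    intro s s'
    simp only [hGf]
    rw [gk_swap K (Real.log T) s s', dw_swap, Complex.neg_re, TK.ct_neg, mul_comm (mz s)]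
  have hGn : ∀ s s', 0 ≤ Gf s s' := fun s s' => abs_nonneg _
  have key : ∑ s ∈ Zt T, ∑ s' ∈ Zt T, Gf s s' ≤ 2 * ∑ s ∈ Zo T, ∑ s' ∈ Zt T, Gf s s' := by
    have h1 : ∀ s ∈ Zt T, ∀ s' ∈ Zt T, Gf s s' ≤ (if s ∈ Zo T then Gf s s' else 0) +
        (if s' ∈ Zo T then Gf s s' else 0) := by
      intro s hs s' hs'
      by_cases a1 : s ∈ Zo T
      · rw [if_pos a1]
        have : 0 ≤ (if s' ∈ Zo T then Gf s s' else 0) := by
          split_ifs
          · exact hGn _ _
          · exact le_rfl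
        linarith
      · by_cases a2 : s' ∈ Zo T
        · rw [if_neg a1, if_pos a2, zero_add]
        · rw [if_neg a1, if_neg a2]
          simp only [hGf]
          rw [hz s hs a1 s' hs' a2, mul_zero, abs_zero, add_zero]
    have e2 : ∑ s ∈ Zt T, ∑ s' ∈ Zt T, (if s ∈ Zo T then Gf s s' else 0) =
        ∑ s ∈ Zo T, ∑ s' ∈ Zt T, Gf s s' := by
      have e3 : ∀ s, ∑ s' ∈ Zt T, (if s ∈ Zo T then Gf s s' else 0) =
          if s ∈ Zo T then ∑ s' ∈ Zt T, Gf s s' else 0 := by
        intro s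
        split_ifs
        · rfl
        · exact Finset.sum_const_zero
      simp_rw [e3]
      rw [← Finset.sum_filter]
      congr 1
      ext s
      rw [Finset.mem_filter]
      exact ⟨fun h => h.2, fun h => ⟨hZo h, h⟩⟩
    have e4 : ∑ s ∈ Zt T, ∑ s' ∈ Zt T, (if s' ∈ Zo T then Gf s s' else 0) =
        ∑ s ∈ Zo T, ∑ s' ∈ Zt T, Gf s s' := by
      rw [Finset.sum_comm, ← e2]
      refine Finset.sum_congr rfl fun s _ => Finset.sum_congr rfl fun s' _ => ?_
      rw [hsym]
    calc ∑ s ∈ Zt T, ∑ s' ∈ Zt T, Gf s s' ≤ ∑ s ∈ Zt T, ∑ s' ∈ Zt T,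
          ((if s ∈ Zo T then Gf s s' else 0) + (if s' ∈ Zo T then Gf s s' else 0)) :=
          Finset.sum_le_sum fun s hs => Finset.sum_le_sum fun s' hs' => h1 s hs s' hs'
      _ = _ := by
          simp_rw [Finset.sum_add_distrib]
          rw [e2, e4]
          ring
  rw [Real.dist_eq, sub_zero, abs_div, abs_of_pos hX, div_lt_iff₀ hX, QC_sub_Q2]
  refine lt_of_le_of_lt ((QC_le_abs _ _ _ _).trans key) ?_
  have h5 := n1.trans n2
  have h6 : 0 < ε * Xf T := by positivity
  linarith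

end Pool.Agent.H8.PCU
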