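import Pool.Agent.H8.PCU.G1
import Pool.Graph.R_seed8.Y744.PCR.Fin

/-! # Integrals of the counting functions against derivatives of test functions -/

set_option autoImplicit false

open MeasureTheory Filter Topology Real

namespace Pool.Agent.H8.PCU

open Pool.Agent.Y744 Pool.Agent.Results.MP_103a5c_nt.BohrSetPairs

variable {κ : ℝ} {K : ℝ → ℝ}

/-- the derivative of the transform -/
noncomputable def dct (K : ℝ → ℝ) (y : ℝ) : ℝ := (deriv (CT K) (y : ℂ)).re

lemma ct_hasDeriv (h : TK κ K) (y : ℝ) : HasDerivAt (ct K) (dct K y) y := by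
  have h1 := (CT_diff (TK_CK h) (y : ℂ)).hasDerivAt
  have h2 := HasDerivAt.real_of_complex h1
  have e : (fun x : ℝ => (CT K x).re) = ct K := by
    funext x
    rw [CT_real, Complex.ofReal_re]
  rw [e] at h2
  exact h2

lemma dct_bound (hκ : 0 < κ) (h : TK κ K) : ∃ C, 0 ≤ C ∧ ∀ y : ℝ, |dct K y| ≤ C / (1 + y ^ 2) ^ 2 := by
  obtain ⟨C, hC, hb⟩ := dCT_decay2 hκ h
  refine ⟨C, hC, fun y => ?_⟩
  have h1 := hb (y : ℂ)
  rw [Complex.ofReal_im, abs_zero, mul_zero, Real.exp_zero, mul_one, Complex.ofReal_re] at h1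
  exact (Complex.abs_re_le_norm _).trans h1

lemma dct_cont (h : TK κ K) : Continuous (dct K) := by
  have h1 : ContDiff ℂ 2 (CT K) := (CT_diff (TK_CK h)).contDiff
  have h2 : Continuous (deriv (CT K)) := h1.continuous_deriv (by norm_num)
  exact Complex.continuous_re.comp (h2.comp Complex.continuous_ofReal)

lemma inv_sq_le (y : ℝ) : 1 / (1 + y ^ 2) ^ 2 ≤ (1 + y ^ 2)⁻¹ := by
  rw [one_div]
  refine inv_anti₀ (by positivity) ?_
  nlinarith [sq_nonneg y, sq_nonneg (y ^ 2)]

lemma dct_int (hκ : 0 < κ) (h : TK κ K) : Integrable (dct K) := by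
  obtain ⟨C, hC, hb⟩ := dct_bound hκ h
  refine (integrable_inv_one_add_sq.const_mul C).mono' (dct_cont h).aestronglyMeasurable
    (Eventually.of_forall fun y => ?_)
  rw [Real.norm_eq_abs]
  refine (hb y).trans ?_
  rw [div_eq_mul_one_div]
  exact mul_le_mul_of_nonneg_left (inv_sq_le y) hC

lemma ct_tendsto (h : TK κ K) : Tendsto (ct K) atTop (𝓝 0) := by
  obtain ⟨D, hD0, hD⟩ := h.decay 1
  have h1 : Tendsto (fun y : ℝ => D * y⁻¹) atTop (𝓝 (D * 0)) :=
    tendsto_inv_atTop_zero.const_mul D
  rw [mul_zero] at h1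
  refine squeeze_zero_norm' ?_ h1
  filter_upwards [eventually_ge_atTop (1 : ℝ)] with y hy
  rw [Real.norm_eq_abs]
  refine (hD y).trans ?_
  rw [div_eq_mul_inv, pow_one]
  refine mul_le_mul_of_nonneg_left ?_ hD0
  refine inv_anti₀ (by linarith) ?_
  nlinarith [sq_nonneg y]

lemma tail_intg (hκ : 0 < κ) (h : TK κ K) (t : ℝ) : ∫ y in Set.Ioi t, dct K y = -ct K t := by
  rw [integral_Ioi_of_hasDerivAt_of_tendsto' (fun y _ => ct_hasDeriv h y)
    (dct_int hκ h).integrableOn (ct_tendsto h)]
  ring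

/-- the integrals of the counting function -/
lemma Aa_intg (hκ : 0 < κ) (h : TK κ K) (T : ℝ) :
    ∫ y, Aa T y * dct K y = -((Xf T)⁻¹ * Q2 (ct K) T (Real.log T)) := by
  have hw := dct_int hκ h
  have e1 : ∀ y, Aa T y * dct K y =
      (Xf T)⁻¹ * ∑ s ∈ Zt T, ∑ s' ∈ Zt T, mz s * mz s' *
        (Set.Ici |dd T s s'|).indicator (dct K) y := by
    intro y
    unfold Aa PC
    rw [mul_assoc, Finset.sum_mul]
    congr 1
    refine Finset.sum_congr rfl fun s _ => ?_
    rw [Finset.sum_mul]
    refine Finset.sum_congr rfl fun s' _ => ?_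
    rw [mul_assoc]
    congr 1
    by_cases hx : |dd T s s'| ≤ y
    · rw [Set.indicator_of_mem (show dd T s s' ∈ {x | |x| ≤ y} from hx),
        Set.indicator_of_mem (show y ∈ Set.Ici |dd T s s'| from hx), one_mul]
    · rw [Set.indicator_of_notMem (show dd T s s' ∉ {x | |x| ≤ y} from hx),
        Set.indicator_of_notMem (show y ∉ Set.Ici |dd T s s'| from hx), zero_mul]
  simp_rw [e1]
  have hi : ∀ t : ℝ, Integrable ((Set.Ici t).indicator (dct K)) := fun t =>
    hw.indicator measurableSet_Ici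
  rw [integral_const_mul, integral_finsetSum _ fun s _ => integrable_finsetSum _ fun s' _ =>
    (hi _).const_mul _]
  rw [← mul_neg]
  congr 1
  unfold Q2 QS
  rw [← Finset.sum_neg_distrib]
  refine Finset.sum_congr rfl fun s _ => ?_
  rw [integral_finsetSum _ fun s' _ => (hi _).const_mul _, ← Finset.sum_neg_distrib]
  refine Finset.sum_congr rfl fun s' _ => ?_
  rw [integral_const_mul, integral_indicator measurableSet_Ici, integral_Ici_eq_integral_Ioi,
    tail_intg hκ h]
  have : ct K |dd T s s'| = ct K ((s.im - s'.im) * Real.log T / (2 * π)) := by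
    show ct K |dd T s s'| = ct K (dd T s s')
    rcases abs_cases (dd T s s') with ⟨h1, _⟩ | ⟨h1, _⟩
    · rw [h1]
    · rw [h1, TK.ct_neg]
  rw [this]
  ring

/-- the integral of the predicted counting function -/
lemma AG_intg (hκ : 0 < κ) (h : TK κ K) :
    ∫ y, AG y * dct K y = -(ct K 0 + ∫ y, ct K y * gd y) := by
  obtain ⟨D, hD0, hD⟩ := h.decay 2
  obtain ⟨D2, hD20, hD2⟩ := dct_bound hκ h
  have hfc : Continuous (ct K) := h.ct_cont
  -- integrability
  have i1 : Integrable fun y => ct K y * gd y := by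
    refine (integrable_inv_one_add_sq.const_mul D).mono'
      (hfc.mul gd_cont).aestronglyMeasurable (Eventually.of_forall fun y => ?_)
    rw [Real.norm_eq_abs, abs_mul, abs_of_nonneg (gd_nonneg y)]
    calc |ct K y| * gd y ≤ D / (1 + y ^ 2) ^ 2 * 1 :=
          mul_le_mul (hD y) (gd_le y) (gd_nonneg y) (by positivity)
      _ ≤ D * (1 + y ^ 2)⁻¹ := by
          rw [mul_one, div_eq_mul_one_div]
          exact mul_le_mul_of_nonneg_left (inv_sq_le y) hD0
  have i2 : Integrable fun y => AG y * dct K y := by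
    refine (integrable_inv_one_add_sq.const_mul (2 * D2)).mono'
      (AG_meas.mul (dct_cont h).measurable).aestronglyMeasurable
      (Eventually.of_forall fun y => ?_)
    rw [Real.norm_eq_abs, abs_mul]
    calc |AG y| * |dct K y| ≤ (2 * (1 + y ^ 2)) * (D2 / (1 + y ^ 2) ^ 2) :=
          mul_le_mul (AG_bound y) (hD2 y) (abs_nonneg _) (by positivity)
      _ = 2 * D2 * (1 + y ^ 2)⁻¹ := by field_simp
  -- reduction to the half line
  have e1 : ∫ y, AG y * dct K y = ∫ y in Set.Ioi 0, (1 + 2 * gp y) * dct K y := by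
    rw [← integral_add_compl (measurableSet_Iic (a := (0 : ℝ))) i2]
    have h1 : ∫ y in Set.Iic (0 : ℝ), AG y * dct K y = 0 := by
      rw [integral_Iic_eq_integral_Iio]
      refine setIntegral_eq_zero_of_forall_eq_zero fun y hy => ?_
      have hy' : y < 0 := hy
      unfold AG
      rw [if_pos hy', zero_mul]
    rw [h1, zero_add, Set.compl_Iic]
    refine setIntegral_congr_fun measurableSet_Ioi fun y hy => ?_
    have hy' : (0 : ℝ) < y := hy
    show AG y * _ = _
    unfold AG
    rw [if_neg (by linarith)]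
  set G : ℝ → ℝ := fun y => (1 + 2 * gp y) * ct K y with hG
  have hGd : ∀ y, HasDerivAt G (2 * gd y * ct K y + (1 + 2 * gp y) * dct K y) y := by
    intro y
    have h1 : HasDerivAt (fun y => 1 + 2 * gp y) (2 * gd y) y :=
      ((gp_deriv y).const_mul 2).const_add 1
    exact h1.mul (ct_hasDeriv h y)
  have j1 : IntegrableOn (fun y => 2 * gd y * ct K y) (Set.Ioi 0) := by
    have := (i1.const_mul 2).integrableOn (s := Set.Ioi (0 : ℝ))
    refine this.congr_fun (fun y _ => ?_) measurableSet_Ioi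
    show 2 * (ct K y * gd y) = _
    ring
  have j2 : IntegrableOn (fun y => (1 + 2 * gp y) * dct K y) (Set.Ioi 0) := by
    refine (i2.integrableOn (s := Set.Ioi (0 : ℝ))).congr_fun (fun y hy => ?_) measurableSet_Ioi
    have hy' : (0 : ℝ) < y := hy
    show AG y * _ = _
    unfold AG
    rw [if_neg (by linarith)]
  have hGt : Tendsto G atTop (𝓝 0) := by
    have h1 : Tendsto (fun y : ℝ => 3 * D * y⁻¹) atTop (𝓝 (3 * D * 0)) :=
      tendsto_inv_atTop_zero.const_mul (3 * D)
    rw [mul_zero] at h1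
    refine squeeze_zero_norm' ?_ h1
    filter_upwards [eventually_ge_atTop (1 : ℝ)] with y hy
    rw [Real.norm_eq_abs, hG]
    show |(1 + 2 * gp y) * ct K y| ≤ _
    have h2 := gp_nonneg (x := y) (by linarith)
    have h3 := gp_le (x := y) (by linarith)
    rw [abs_mul, abs_of_nonneg (by linarith)]
    have hy0 : 0 < y := by linarith
    have h4 : D / (1 + y ^ 2) ^ 2 ≤ D * (y⁻¹ * y⁻¹) := by
      rw [div_eq_mul_inv, ← mul_inv]
      refine mul_le_mul_of_nonneg_left ?_ hD0
      refine inv_anti₀ (by positivity) ?_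
      nlinarith [sq_nonneg y, sq_nonneg (y ^ 2)]
    calc (1 + 2 * gp y) * |ct K y| ≤ (3 * y) * (D * (y⁻¹ * y⁻¹)) := by
          refine mul_le_mul (by linarith) ((hD y).trans h4) (abs_nonneg _) (by positivity)
      _ = 3 * D * y⁻¹ := by field_simp
  have key := integral_Ioi_of_hasDerivAt_of_tendsto' (a := 0) (fun y _ => hGd y) (j1.add j2) hGt
  rw [integral_add j1 j2] at key
  have hG0 : G 0 = ct K 0 := by
    simp only [hG, gp_zero]
    ring
  rw [hG0] at key
  -- evenness
  have e2 : ∫ y in Set.Ioi (0 : ℝ), 2 * gd y * ct K y = ∫ y, ct K y * gd y := by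
    have h1 : ∫ y in Set.Ioi (0 : ℝ), 2 * gd y * ct K y =
        2 * ∫ y in Set.Ioi (0 : ℝ), ct K y * gd y := by
      rw [← integral_const_mul]
      refine integral_congr_ae (Eventually.of_forall fun y => ?_)
      show 2 * gd y * ct K y = _
      ring
    have h2 := integral_comp_abs (f := fun y => ct K y * gd y)
    have h3 : ∫ y : ℝ, (fun y => ct K y * gd y) |y| = ∫ y, ct K y * gd y := by
      refine integral_congr_ae (Eventually.of_forall fun y => ?_)
      show ct K |y| * gd |y| = ct K y * gd y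
      rcases abs_cases y with ⟨hy, _⟩ | ⟨hy, _⟩
      · rw [hy]
      · rw [hy, TK.ct_neg]
        congr 1
        unfold gd
        rw [mul_neg, Real.sinc_neg]
    rw [h1, ← h2, h3]
  rw [e1, ← e2]
  linarith

/-- the main term is that of GUE -/
theorem mont_gen (h : TK κ K) (hκ : κ < 1) :
    mont K = ct K 0 + ∫ y, ct K y * gd y := by
  have hRR : ∀ x, H370.A2.RR K 1 x = ct K x := by
    intro x
    rw [ct_eq_r (fun x hx => h.supp x (hκ.trans hx))]
    unfold H370.A2.RR r
    refine intervalIntegral.integral_congr fun α _ => ?_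
    show K α * Real.cos (2 * π * α * x) = K α * Real.cos (2 * π * x * α)
    congr 2
    ring
  obtain ⟨D, hD0, hD⟩ := h.decay 1
  have h1 := H370.A2.main_term (ψ := K) (μ := 1) (C := D) h.cont
    (fun x hx => h.supp x (by linarith)) le_rfl (fun x => by
      rw [hRR]
      have h2 : |ct K x| * x ^ 2 ≤ D / (1 + x ^ 2) ^ 1 * x ^ 2 :=
        mul_le_mul_of_nonneg_right (hD x) (sq_nonneg x)
      refine h2.trans ?_
      rw [div_mul_eq_mul_div, div_le_iff₀ (by positivity)]
      refine mul_le_mul_of_nonneg_left ?_ hD0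
      nlinarith [sq_nonneg x])
  simp_rw [hRR] at h1
  have h2 : ∫ y, ct K y * gd y =
      ∫ x, ct K x * (1 - (Real.sin (π * x) / (π * x)) ^ 2) := by
    refine integral_congr_ae ?_
    have h0 : ∀ᵐ x : ℝ, x ≠ 0 := by
      rw [ae_iff]
      simp
    filter_upwards [h0] with x hx
    unfold gd
    have hpi := Real.pi_pos
    rw [Real.sinc_of_ne_zero (by positivity)]
  rw [h2, h1]
  unfold mont
  congr 1
  have hc : Continuous fun α : ℝ => |α| * K α := continuous_abs.mul h.cont
  rw [← intervalIntegral.integral_add_adjacent_intervals (a := -1) (b := 0) (c := 1)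
    (hc.intervalIntegrable _ _) (hc.intervalIntegrable _ _)]
  have h3 : ∫ α in (-1 : ℝ)..0, |α| * K α = ∫ α in (0 : ℝ)..1, |α| * K α := by
    have := intervalIntegral.integral_comp_neg (a := 0) (b := 1)
      (fun α : ℝ => |α| * K α)
    rw [neg_zero] at this
    rw [← this]
    refine intervalIntegral.integral_congr fun α _ => ?_
    show |(-α)| * K (-α) = |α| * K α
    rw [abs_neg, h.even]
  have h4 : ∫ α in (0 : ℝ)..1, |α| * K α = ∫ α in (0 : ℝ)..1, α * K α := by
    refine intervalIntegral.integral_congr fun α hα => ?_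
    rw [Set.uIcc_of_le (by norm_num)] at hα
    show |α| * K α = α * K α
    rw [abs_of_nonneg hα.1]
  rw [h3, h4]
  ring

lemma AG_montg (hκ : 0 < κ) (h : TK κ K) (hκ1 : κ < 1) : ∫ y, AG y * dct K y = -mont K := by
  rw [AG_intg hκ h, mont_gen h hκ1]

/-- the derivative of the transform of the average -/
lemma dct_Kav (h : TK κ K) (a y : ℝ) : dct (Kav K a) y = ct K (y + a) - ct K (y - a) := by
  unfold dct
  rw [(Kav_hasDeriv h a y).deriv, ← Complex.ofReal_add, ← Complex.ofReal_sub, CT_real, CT_real,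
    Complex.sub_re, Complex.ofReal_re, Complex.ofReal_re]

/-- the primitive of the transform -/
noncomputable def Jp (K : ℝ → ℝ) (y : ℝ) : ℝ := ∫ u in (0 : ℝ)..y, ct K u

lemma Jp_hasDeriv (h : TK κ K) (y : ℝ) : HasDerivAt (Jp K) (ct K y) y :=
  intervalIntegral.integral_hasDerivAt_right (h.ct_cont.intervalIntegrable _ _)
    (h.ct_cont.stronglyMeasurableAtFilter _ _) h.ct_cont.continuousAt

lemma Jp_zero (K : ℝ → ℝ) : Jp K 0 = 0 := by unfold Jp; simp

lemma Jp_neg (K : ℝ → ℝ) (y : ℝ) : Jp K (-y) = -Jp K y := by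
  unfold Jp
  have h1 := intervalIntegral.integral_comp_neg (a := 0) (b := y) (fun u : ℝ => ct K u)
  rw [neg_zero] at h1
  rw [intervalIntegral.integral_symm, ← h1]
  congr 1
  refine intervalIntegral.integral_congr fun u _ => ?_
  exact TK.ct_neg K u

/-- the derivative of the transform of the two bump functions -/
lemma dct_Lav (h : TK κ K) (A y : ℝ) : dct (Lav K A) y = Jp K (y + A) + Jp K (y - A) - 2 * Jp K y := by
  set Φ : ℝ → ℝ := fun y => dct (Lav K A) y - (Jp K (y + A) + Jp K (y - A) - 2 * Jp K y) with hΦ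
  have hd : ∀ y, HasDerivAt Φ 0 y := by
    intro y
    have h1 := HasDerivAt.real_of_complex (Lav_deriv2 h A y)
    have h2 : HasDerivAt (fun y => Jp K (y + A)) (ct K (y + A)) y :=
      (Jp_hasDeriv h (y + A)).comp_add_const y A
    have h3 : HasDerivAt (fun y => Jp K (y - A)) (ct K (y - A)) y :=
      (Jp_hasDeriv h (y - A)).comp_sub_const y A
    have h4 := (h2.add h3).sub ((Jp_hasDeriv h y).const_mul 2)
    have h5 := h1.sub h4
    refine h5.congr_deriv ?_
    rw [← Complex.ofReal_add, ← Complex.ofReal_sub, CT_real, CT_real, CT_real]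
    simp
  have hc : Φ y = Φ 0 := by
    have := is_const_of_deriv_eq_zero (fun y => (hd y).differentiableAt) (fun y => (hd y).deriv)
    exact this y 0
  have h0 : Φ 0 = 0 := by
    simp only [hΦ]
    rw [zero_add, zero_sub, Jp_neg, Jp_zero]
    have h6 : dct (Lav K A) 0 = 0 := by
      have hL := Lav_TK h A
      have h7 : HasDerivAt (fun x => ct (Lav K A) (-x)) (-dct (Lav K A) (-0)) 0 := by
        have := HasDerivAt.comp (0 : ℝ) (ct_hasDeriv hL (-0)) (hasDerivAt_neg (0 : ℝ))
        rw [mul_neg_one] at this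
        exact this
      have e : (fun x => ct (Lav K A) (-x)) = ct (Lav K A) := funext fun x => TK.ct_neg _ x
      rw [e, neg_zero] at h7
      have h8 := h7.unique (ct_hasDeriv hL 0)
      linarith
    rw [h6]
    ring
  rw [h0] at hc
  simp only [hΦ] at hc
  linarith

end Pool.Agent.H8.PCU
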