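import Pool.Agent.H8.PCU.R1
import Pool.Agent.H8.PCU.O1

/-! # Unconditional properties of the counting function of the differences -/

set_option autoImplicit false

open MeasureTheory Filter Topology Real

namespace Pool.Agent.H8.PCU

open H370 TH803TW Pool.Agent.Y744 Pool.Agent.Results.MP_103a5c_nt.BohrSetPairs

variable {κ : ℝ} {K : ℝ → ℝ}

/-- pairs near a point -/
lemma PC_near : ∃ C, 0 < C ∧ ∃ T1, t0 ≤ T1 ∧ ∀ T : ℝ, T1 ≤ T → ∀ w : ℝ,
    PC T {x | |x - w| ≤ 1 / 16} ≤ C * Xf T := by
  have hc0 := c0_nonneg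
  have hpi := Real.pi_gt_three
  have hpi2 := Real.pi_lt_d2
  obtain ⟨T1, hT1, hP⟩ := PP1_Xf
  refine ⟨2 * (7 * c0 + 1), by positivity, T1, hT1, fun T hT w => ?_⟩
  have ht0 := t0_ge
  have hT16 : 16 ≤ T := ht0.trans (hT1.trans hT)
  have hL1 : 1 ≤ Real.log T := log_ge (hT1.trans hT)
  have hX := Xf_pos (V := T) (by linarith)
  obtain ⟨x, hx⟩ : ∃ x : ℂ → ℝ, x = fun s => s.im * Real.log T / (2 * π) := ⟨_, rfl⟩
  have hdd : ∀ s s' : ℂ, dd T s s' = x s - x s' := by
    intro s s'
    rw [hx]
    unfold dd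
    ring
  have h1 := tn_shift (Zt T) mz x (1 / 16) w
  have h2 : PC T {x | |x - w| ≤ 1 / 16} ≤
      16 * ∑ s ∈ Zt T, ∑ s' ∈ Zt T, mz s * mz s' * tn (1 / 16) (x s - x s' - w) := by
    unfold PC
    rw [Finset.mul_sum]
    refine Finset.sum_le_sum fun s _ => ?_
    rw [Finset.mul_sum]
    refine Finset.sum_le_sum fun s' _ => ?_
    have hm := mul_nonneg (mz_nonneg s) (mz_nonneg s')
    have h3 : Set.indicator {x | |x - w| ≤ 1 / 16} (fun _ => (1 : ℝ)) (dd T s s') ≤
        16 * tn (1 / 16) (x s - x s' - w) := by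
      rw [hdd]
      by_cases h4 : |x s - x s' - w| ≤ 1 / 16
      · rw [Set.indicator_of_mem (show x s - x s' ∈ {x | |x - w| ≤ 1 / 16} from h4)]
        have := le_tn h4
        linarith
      · rw [Set.indicator_of_notMem (show x s - x s' ∉ {x | |x - w| ≤ 1 / 16} from h4)]
        have := tn_nonneg (1 / 16) (x s - x s' - w)
        linarith
    calc mz s * mz s' * Set.indicator {x | |x - w| ≤ 1 / 16} (fun _ => (1 : ℝ)) (dd T s s') ≤
          mz s * mz s' * (16 * tn (1 / 16) (x s - x s' - w)) := mul_le_mul_of_nonneg_left h3 hm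
      _ = _ := by ring
  have h3 : ∑ s ∈ Zt T, ∑ s' ∈ Zt T, mz s * mz s' * tn (1 / 16) (x s - x s') ≤
      1 / 8 * PP1 (Zt T) (W T) (fun s => s.im) (Real.log T) := by
    unfold PP1
    rw [Finset.mul_sum]
    refine Finset.sum_le_sum fun s _ => ?_
    rw [Finset.mul_sum]
    refine Finset.sum_le_sum fun s' _ => ?_
    have hm := mul_nonneg (mz_nonneg s) (mz_nonneg s')
    have hW : mz s * mz s' ≤ W T s * W T s' := by
      refine mul_le_mul ?_ ?_ (mz_nonneg _) (W_nonneg _ _)
      · exact mz_le_wt d0_pos.le (by linarith) s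
      · exact mz_le_wt d0_pos.le (by linarith) s'
    have h4 : tn (1 / 16) (x s - x s') ≤
        1 / 8 * (if |s.im - s'.im| ≤ 1 / Real.log T then 1 else 0) := by
      refine (tn_le _ _).trans ?_
      by_cases h5 : |x s - x s'| ≤ 2 * (1 / 16)
      · rw [if_pos h5]
        have h6 : |s.im - s'.im| ≤ 1 / Real.log T := by
          have h7 : x s - x s' = (s.im - s'.im) * (Real.log T / (2 * π)) := by rw [hx]; ring
          rw [h7, abs_mul, abs_of_pos (by positivity : 0 < Real.log T / (2 * π))] at h5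
          rw [le_div_iff₀ (by linarith)]
          have h8 : |s.im - s'.im| * Real.log T =
              |s.im - s'.im| * (Real.log T / (2 * π)) * (2 * π) := by
            field_simp
          rw [h8]
          have h9 : |s.im - s'.im| * (Real.log T / (2 * π)) * (2 * π) ≤
              2 * (1 / 16) * (2 * π) := mul_le_mul_of_nonneg_right h5 (by positivity)
          linarith
        rw [if_pos h6]
        norm_num
      · rw [if_neg h5, mul_zero]
        split_ifs <;> norm_num
    have h5 : 0 ≤ 1 / 8 * (if |s.im - s'.im| ≤ 1 / Real.log T then (1 : ℝ) else 0) := by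
      split_ifs <;> norm_num
    calc mz s * mz s' * tn (1 / 16) (x s - x s') ≤
          mz s * mz s' * (1 / 8 * (if |s.im - s'.im| ≤ 1 / Real.log T then 1 else 0)) :=
          mul_le_mul_of_nonneg_left h4 hm
      _ ≤ W T s * W T s' * (1 / 8 * (if |s.im - s'.im| ≤ 1 / Real.log T then 1 else 0)) :=
          mul_le_mul_of_nonneg_right hW h5
      _ = _ := by ring
  have h4 := hP T hT (Zt T) (Finset.Subset.refl _)
  linarith

/-- pairs in an interval -/
lemma PC_Ioc : ∃ C, 0 < C ∧ ∃ T1, t0 ≤ T1 ∧ ∀ T : ℝ, T1 ≤ T →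
    PC T {x | |x| ≤ 0} ≤ C * Xf T ∧
    ∀ y l : ℝ, 0 ≤ l → PC T (Set.Ioc y (y + l)) ≤ C * (1 + l) * Xf T := by
  obtain ⟨C, hC, T1, hT1, h⟩ := PC_near
  refine ⟨8 * C, by positivity, T1, hT1, fun T hT => ⟨?_, ?_⟩⟩
  · have hX := Xf_pos (V := T) (by linarith [t0_ge, hT1.trans hT])
    refine (PC_mono T (fun x hx => ?_)).trans ((h T hT 0).trans ?_)
    · show |x - 0| ≤ 1 / 16
      rw [sub_zero]
      exact (show |x| ≤ 0 from hx).trans (by norm_num)
    · nlinarith
  have hX := Xf_pos (V := T) (by linarith [t0_ge, hT1.trans hT])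
  have key : ∀ n : ℕ, ∀ y l : ℝ, l ≤ n / 8 → PC T (Set.Ioc y (y + l)) ≤ n * (C * Xf T) := by
    intro n
    induction n with
    | zero =>
      intro y l hl
      have : Set.Ioc y (y + l) = ∅ := by
        rw [Set.Ioc_eq_empty]
        push_cast at hl
        linarith
      rw [this]
      unfold PC
      simp
    | succ n ih =>
      intro y l hl
      have h1 : PC T (Set.Ioc y (y + l)) ≤ PC T (Set.Ioc y (y + 1 / 8) ∪
          Set.Ioc (y + 1 / 8) (y + 1 / 8 + (l - 1 / 8))) := by
        refine PC_mono T fun x hx => ?_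
        rcases le_or_gt x (y + 1 / 8) with h2 | h2
        · exact Or.inl ⟨hx.1, h2⟩
        · exact Or.inr ⟨h2, by linarith [hx.2]⟩
      rw [PC_union T (by
        rw [Set.disjoint_left]
        rintro x h1 h2
        exact absurd h1.2 (not_le.2 h2.1))] at h1
      have h2 := ih (y + 1 / 8) (l - 1 / 8) (by push_cast at hl; linarith)
      have h3 : PC T (Set.Ioc y (y + 1 / 8)) ≤ C * Xf T := by
        refine (PC_mono T fun x hx => ?_).trans (h T hT (y + 1 / 16))
        show |x - (y + 1 / 16)| ≤ 1 / 16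
        rw [abs_le]
        constructor <;> linarith [hx.1, hx.2]
      push_cast
      linarith
  intro y l hl
  have h1 := key ⌈8 * l⌉₊ y l (by
    have := Nat.le_ceil (8 * l)
    linarith)
  have h2 : (⌈8 * l⌉₊ : ℝ) < 8 * l + 1 := Nat.ceil_lt_add_one (by positivity)
  have h3 : 0 < C * Xf T := by positivity
  nlinarith

/-- increments of the counting function -/
lemma Aa_incr : ∃ C, 0 < C ∧ ∃ T1, t0 ≤ T1 ∧ ∀ T : ℝ, T1 ≤ T → ∀ y l : ℝ, 0 ≤ l →
    Aa T (y + l) - Aa T y ≤ C * (1 + l) := by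
  obtain ⟨C, hC, T1, hT1, h⟩ := PC_Ioc
  refine ⟨3 * C, by positivity, T1, hT1, fun T hT y l hl => ?_⟩
  have hX := Xf_pos (V := T) (by linarith [t0_ge, hT1.trans hT])
  obtain ⟨h0, h1⟩ := h T hT
  -- the nonnegative case
  have hpos : ∀ y l : ℝ, 0 ≤ y → 0 ≤ l → PC T {x | |x| ≤ y + l} ≤ PC T {x | |x| ≤ y} +
      2 * PC T (Set.Ioc y (y + l)) := by
    intro y l hy hl
    have h2 : PC T {x | |x| ≤ y + l} ≤
        PC T ({x | |x| ≤ y} ∪ (Set.Ioc y (y + l) ∪ -Set.Ioc y (y + l))) := by
      refine PC_mono T fun x (hx : |x| ≤ y + l) => ?_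
      rcases le_or_gt |x| y with h3 | h3
      · exact Or.inl h3
      · right
        rcases le_total 0 x with h4 | h4
        · rw [abs_of_nonneg h4] at h3 hx
          exact Or.inl ⟨h3, hx⟩
        · rw [abs_of_nonpos h4] at h3 hx
          right
          rw [Set.mem_neg]
          exact ⟨h3, hx⟩
    rw [PC_union T (by
      rw [Set.disjoint_left]
      rintro x (h3 : |x| ≤ y) (h4 | h4)
      · have := (le_abs_self x).trans h3
        exact absurd h4.1 (not_lt.2 this)
      · rw [Set.mem_neg] at h4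
        have := (neg_le_abs x).trans h3
        exact absurd h4.1 (not_lt.2 this)), PC_union T (by
      rw [Set.disjoint_left]
      rintro x h3 h4
      rw [Set.mem_neg] at h4
      linarith [h3.1, h4.1]), PC_neg] at h2
    linarith
  rcases le_or_gt 0 y with hy | hy
  · unfold Aa
    rw [← mul_sub, inv_mul_le_iff₀ hX]
    have h2 := hpos y l hy hl
    have h3 := h1 y l hl
    have h4 : 0 < C * (1 + l) * Xf T := by positivity
    linarith
  · rw [Aa_neg T y hy, sub_zero]
    rcases lt_or_ge (y + l) 0 with hyl | hyl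
    · rw [Aa_neg T _ hyl]
      positivity
    · unfold Aa
      rw [inv_mul_le_iff₀ hX]
      have h2 := hpos 0 (y + l) le_rfl hyl
      have h3 := h1 0 (y + l) hyl
      rw [zero_add] at h2 h3
      have h4 : C * (1 + (y + l)) * Xf T ≤ C * (1 + l) * Xf T := by
        refine mul_le_mul_of_nonneg_right ?_ hX.le
        refine mul_le_mul_of_nonneg_left ?_ hC.le
        linarith
      have h5 : C * Xf T ≤ C * (1 + l) * Xf T := by
        refine mul_le_mul_of_nonneg_right ?_ hX.le
        nlinarith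
      linarith

/-- the mirror of a zero -/
lemma mirror {s : ℂ} {T : ℝ} (hs : s ∈ Zt T) (h1 : 1 ≤ s.im) :
    1 - (starRingEnd ℂ) s ∈ Zt T ∧ mz (1 - (starRingEnd ℂ) s) = mz s := by
  rw [mem_Zt] at hs
  obtain ⟨a1, a2, a3, a4, a5⟩ := hs
  have hsym := good_zeta.symm s a1 a2 h1
  have hre : (1 - (starRingEnd ℂ) s).re = 1 - s.re := by simp
  have him : (1 - (starRingEnd ℂ) s).im = s.im := by simp
  have hm : mz (1 - (starRingEnd ℂ) s) = mz s := by
    unfold mz H370.mult analyticOrderNatAt
    rw [hsym]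
  refine ⟨?_, hm⟩
  rw [mem_Zt]
  refine ⟨by rw [hre]; linarith, by rw [hre]; linarith, by rw [him]; exact a3,
    by rw [him]; exact a4, ?_⟩
  by_contra hne
  have h2 : analyticOrderAt riemannZeta (1 - (starRingEnd ℂ) s) = 0 := by
    refine analyticOrderAt_eq_zero.2 (Or.inr hne)
  rw [h2] at hsym
  have h3 := Loc.mult_pos' good_zeta a3 a5
  unfold H370.mult analyticOrderNatAt at h3
  rw [← hsym] at h3
  simp at h3

/-- **the pairs with equal ordinates** -/
lemma diag_off (T : ℝ) : ∑ s ∈ Zt T, mz s + ∑ s ∈ Zo T, mz s - ∑ s ∈ Zt 1, mz s ≤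
    PC T {x | |x| ≤ 0} := by
  classical
  -- lower bound for each zero
  have key : ∀ s ∈ Zt T, mz s + (if s ∈ Zo T then mz s else 0) - (if s.im < 1 then mz s else 0) ≤
      ∑ s' ∈ Zt T, mz s * mz s' * Set.indicator {x | |x| ≤ 0} (fun _ => (1 : ℝ)) (dd T s s') := by
    intro s hs
    have hm1 := mz_one hs
    have hterm : ∀ s', 0 ≤ mz s * mz s' *
        Set.indicator {x | |x| ≤ 0} (fun _ => (1 : ℝ)) (dd T s s') := fun s' =>
      mul_nonneg (mul_nonneg (mz_nonneg _) (mz_nonneg _)) (ind_nonneg _ _)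
    have hself : mz s ≤ mz s * mz s * Set.indicator {x | |x| ≤ 0} (fun _ => (1 : ℝ))
        (dd T s s) := by
      have h4 : dd T s s = 0 := by unfold dd; simp
      rw [h4, Set.indicator_of_mem (by simp : (0 : ℝ) ∈ {x : ℝ | |x| ≤ 0}), mul_one]
      nlinarith
    have hsingle := Finset.single_le_sum (f := fun s' => mz s * mz s' *
        Set.indicator {x | |x| ≤ 0} (fun _ => (1 : ℝ)) (dd T s s')) (fun s' _ => hterm s') hs
    by_cases ho : s ∈ Zo T
    · rw [if_pos ho]
      by_cases h1 : s.im < 1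
      · rw [if_pos h1]
        linarith
      · rw [if_neg h1]
        push Not at h1
        obtain ⟨h2, h3⟩ := mirror hs h1
        have hne : s ≠ 1 - (starRingEnd ℂ) s := by
          intro hc
          have h4 : s.re = 1 - s.re := by
            have := congrArg Complex.re hc
            simpa using this
          exact (Finset.mem_filter.1 ho).2 (by linarith)
        have hpair : ∑ s' ∈ ({s, 1 - (starRingEnd ℂ) s} : Finset ℂ), mz s * mz s' *
            Set.indicator {x | |x| ≤ 0} (fun _ => (1 : ℝ)) (dd T s s') ≤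
            ∑ s' ∈ Zt T, mz s * mz s' *
              Set.indicator {x | |x| ≤ 0} (fun _ => (1 : ℝ)) (dd T s s') := by
          refine Finset.sum_le_sum_of_subset_of_nonneg ?_ fun s' _ _ => hterm s'
          intro z hz
          rw [Finset.mem_insert, Finset.mem_singleton] at hz
          rcases hz with rfl | rfl
          · exact hs
          · exact h2
        rw [Finset.sum_pair hne] at hpair
        have h5 : dd T s (1 - (starRingEnd ℂ) s) = 0 := by
          unfold dd
          simp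
        rw [h5, h3, Set.indicator_of_mem (by simp : (0 : ℝ) ∈ {x : ℝ | |x| ≤ 0}), mul_one]
          at hpair
        nlinarith
    · rw [if_neg ho]
      have : 0 ≤ (if s.im < 1 then mz s else 0) := by
        split_ifs
        · exact mz_nonneg _
        · exact le_rfl
      linarith
  have h1 := Finset.sum_le_sum key
  rw [Finset.sum_sub_distrib, Finset.sum_add_distrib] at h1
  have e1 : ∑ s ∈ Zt T, (if s ∈ Zo T then mz s else 0) = ∑ s ∈ Zo T, mz s := by
    rw [← Finset.sum_filter]
    congr 1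
    ext s
    rw [Finset.mem_filter]
    exact ⟨fun h => h.2, fun h => ⟨(Finset.filter_subset _ _) h, h⟩⟩
  have e2 : ∑ s ∈ Zt T, (if s.im < 1 then mz s else 0) ≤ ∑ s ∈ Zt 1, mz s := by
    rw [← Finset.sum_filter]
    refine Finset.sum_le_sum_of_subset_of_nonneg (fun s hs => ?_) fun s _ _ => mz_nonneg s
    obtain ⟨h2, h3⟩ := Finset.mem_filter.1 hs
    rw [mem_Zt] at h2 ⊢
    exact ⟨h2.1, h2.2.1, h2.2.2.1, h3.le, h2.2.2.2.2⟩
  rw [e1] at h1
  unfold PC
  linarith

end Pool.Agent.H8.PCU
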