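import Pool.Agent.H8.PCU.R2

/-! # Limits along ultrafilters -/

set_option autoImplicit false

open MeasureTheory Filter Topology Real

namespace Pool.Agent.H8.PCU

open H370 TH803TW Pool.Agent.Y744 Pool.Agent.Results.MP_103a5c_nt.BohrSetPairs

variable {κ : ℝ} {K : ℝ → ℝ}

/-- passage to the limit in the integrals, along an ultrafilter -/
lemma lim_int_u {A : ℝ → ℝ → ℝ} {T0 C : ℝ} (hmono : ∀ T, T0 ≤ T → Monotone (A T))
    (hb : ∀ T, T0 ≤ T → ∀ y, |A T y| ≤ C * (1 + y ^ 2)) {w : ℝ → ℝ} (hw : Measurable w) {D : ℝ}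
    (hwd : ∀ y, |w y| ≤ D / (1 + y ^ 2) ^ 2) {u : Ultrafilter ℝ}
    (hu : (u : Filter ℝ) ≤ atTop) {A' : ℝ → ℝ} (hA' : Monotone A')
    (hlim : ∀ y, Tendsto (fun T => A T y) (u : Filter ℝ) (𝓝 (A' y))) :
    Tendsto (fun T => ∫ y, A T y * w y) (u : Filter ℝ) (𝓝 (∫ y, A' y * w y)) := by
  have hC : 0 ≤ C := by
    have := (abs_nonneg _).trans (hb T0 le_rfl 0)
    simpa using this
  have hD0 : 0 ≤ D := by
    have := (abs_nonneg _).trans (hwd 0)
    simpa using this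
  have hD : Integrable fun y : ℝ => C * D * (1 + y ^ 2)⁻¹ :=
    integrable_inv_one_add_sq.const_mul _
  have hbd : ∀ T, T0 ≤ T → ∀ y, |A T y * w y| ≤ C * D * (1 + y ^ 2)⁻¹ := by
    intro T hT y
    rw [abs_mul]
    have h1 : 0 < 1 + y ^ 2 := by positivity
    calc |A T y| * |w y| ≤ (C * (1 + y ^ 2)) * (D / (1 + y ^ 2) ^ 2) := by
          gcongr
          · exact hb _ hT y
          · exact hwd y
      _ = C * D * (1 + y ^ 2)⁻¹ := by field_simp
  -- the limit exists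
  obtain ⟨I, hI⟩ : ∃ I, Tendsto (fun T => ∫ y, A T y * w y) (u : Filter ℝ) (𝓝 I) := by
    have h1 : ((u.map fun T => ∫ y, A T y * w y : Ultrafilter ℝ) : Filter ℝ) ≤
        𝓟 (Set.Icc (-(∫ y : ℝ, C * D * (1 + y ^ 2)⁻¹)) (∫ y : ℝ, C * D * (1 + y ^ 2)⁻¹)) := by
      rw [le_principal_iff]
      have h2 : ∀ᶠ T in (u : Filter ℝ), (∫ y, A T y * w y) ∈
          Set.Icc (-(∫ y : ℝ, C * D * (1 + y ^ 2)⁻¹)) (∫ y : ℝ, C * D * (1 + y ^ 2)⁻¹) := by
        filter_upwards [hu (eventually_ge_atTop T0)] with T hT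
        rw [Set.mem_Icc, ← abs_le]
        refine (abs_integral_le_integral_abs).trans ?_
        exact integral_mono_of_nonneg (Eventually.of_forall fun _ => abs_nonneg _) hD
          (Eventually.of_forall fun y => hbd T hT y)
      exact h2
    obtain ⟨L, _, hL⟩ := isCompact_Icc.ultrafilter_le_nhds _ h1
    exact ⟨L, hL⟩
  set q : ℕ → ℝ := TopologicalSpace.denseSeq ℝ with hq
  have hqd : DenseRange q := TopologicalSpace.denseRange_denseSeq ℝ
  have hex : ∀ n : ℕ, ∃ T : ℝ, max (n : ℝ) T0 ≤ T ∧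
      (∀ j ∈ Finset.range (n + 1), |A T (q j) - A' (q j)| < 1 / ((n : ℝ) + 1)) ∧
      |(∫ y, A T y * w y) - I| < 1 / ((n : ℝ) + 1) := by
    intro n
    have h1 : ∀ᶠ T in (u : Filter ℝ), max (n : ℝ) T0 ≤ T := hu (eventually_ge_atTop _)
    have h2 : ∀ᶠ T in (u : Filter ℝ), ∀ j ∈ Finset.range (n + 1),
        |A T (q j) - A' (q j)| < 1 / ((n : ℝ) + 1) := by
      rw [Filter.eventually_all_finset]
      intro j _
      have := (Metric.tendsto_nhds.1 (hlim (q j))) (1 / ((n : ℝ) + 1)) (by positivity)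
      simpa [Real.dist_eq] using this
    have h3 : ∀ᶠ T in (u : Filter ℝ), |(∫ y, A T y * w y) - I| < 1 / ((n : ℝ) + 1) := by
      have := (Metric.tendsto_nhds.1 hI) (1 / ((n : ℝ) + 1)) (by positivity)
      simpa [Real.dist_eq] using this
    exact (h1.and (h2.and h3)).exists
  choose t ht1 ht2 ht3 using hex
  have htT : ∀ n : ℕ, T0 ≤ t n := fun n => (le_max_right _ _).trans (ht1 n)
  have hinv : Tendsto (fun n : ℕ => 1 / ((n : ℝ) + 1)) atTop (𝓝 0) :=
    tendsto_one_div_add_atTop_nhds_zero_nat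
  have hj : ∀ j, Tendsto (fun n => A (t n) (q j)) atTop (𝓝 (A' (q j))) := by
    intro j
    rw [Metric.tendsto_nhds]
    intro ε hε
    have h1 : ∀ᶠ n : ℕ in atTop, 1 / ((n : ℝ) + 1) < ε := (tendsto_order.1 hinv).2 ε hε
    filter_upwards [h1, eventually_ge_atTop j] with n hn hnj
    rw [Real.dist_eq]
    exact (ht2 n j (Finset.mem_range.2 (by omega))).trans hn
  have hI2 : Tendsto (fun n => ∫ y, A (t n) y * w y) atTop (𝓝 I) := by
    rw [Metric.tendsto_nhds]
    intro ε hε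
    have h1 : ∀ᶠ n : ℕ in atTop, 1 / ((n : ℝ) + 1) < ε := (tendsto_order.1 hinv).2 ε hε
    filter_upwards [h1] with n hn
    rw [Real.dist_eq]
    exact (ht3 n).trans hn
  have hcont : ∀ x, ContinuousAt A' x → Tendsto (fun n => A (t n) x) atTop (𝓝 (A' x)) := by
    intro x hx
    rw [tendsto_order]
    constructor
    · intro a ha
      have h1 : ∀ᶠ y in 𝓝 x, a < A' y := hx.eventually_const_lt ha
      obtain ⟨δ, hδ, h2⟩ := Metric.eventually_nhds_iff.1 h1
      obtain ⟨_, ⟨j, rfl⟩, hj1, hj2⟩ := hqd.exists_between (show x - δ < x by linarith)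
      have h3 : a < A' (q j) := h2 (by rw [Real.dist_eq, abs_lt]; constructor <;> linarith)
      filter_upwards [(tendsto_order.1 (hj j)).1 a h3] with n hn
      exact hn.trans_le (hmono _ (htT n) hj2.le)
    · intro a ha
      have h1 : ∀ᶠ y in 𝓝 x, A' y < a := hx.eventually_lt_const ha
      obtain ⟨δ, hδ, h2⟩ := Metric.eventually_nhds_iff.1 h1
      obtain ⟨_, ⟨j, rfl⟩, hj1, hj2⟩ := hqd.exists_between (show x < x + δ by linarith)
      have h3 : A' (q j) < a := h2 (by rw [Real.dist_eq, abs_lt]; constructor <;> linarith)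
      filter_upwards [(tendsto_order.1 (hj j)).2 a h3] with n hn
      exact (hmono _ (htT n) hj1.le).trans_lt hn
  have hae : ∀ᵐ x, ContinuousAt A' x := by
    have := hA'.countable_not_continuousAt
    exact this.ae_notMem volume |>.mono fun x hx => by
      by_contra hc
      exact hx hc
  have h1 : Tendsto (fun n => ∫ y, A (t n) y * w y) atTop (𝓝 (∫ y, A' y * w y)) := by
    refine tendsto_integral_of_dominated_convergence _ (fun n => ?_) hD (fun n => ?_) ?_
    · exact ((hmono _ (htT n)).measurable.mul hw).aestronglyMeasurable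
    · exact Eventually.of_forall fun y => hbd _ (htT n) y
    · filter_upwards [hae] with x hx
      exact (hcont x hx).mul_const _
  rw [tendsto_nhds_unique h1 hI2]
  exact hI

/-- the limit of the counting functions along an ultrafilter -/
structure Lm (g : Ultrafilter ℝ) (A' : ℝ → ℝ) (C1 : ℝ) : Prop where
  lim : ∀ y, Tendsto (fun T => Aa T y) (g : Filter ℝ) (𝓝 (A' y))
  mono : Monotone A'
  neg : ∀ y, y < 0 → A' y = 0
  incr : ∀ y l, 0 ≤ l → A' (y + l) - A' y ≤ C1 * (1 + l)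
  one : 1 ≤ A' 0

lemma incr_bound {A' : ℝ → ℝ} {C1 : ℝ} (hC1 : 0 ≤ C1) (hm : Monotone A')
    (hneg : ∀ y, y < 0 → A' y = 0)
    (hi : ∀ y l, 0 ≤ l → A' (y + l) - A' y ≤ C1 * (1 + l)) (y : ℝ) :
    |A' y| ≤ 3 * C1 * (1 + |y|) := by
  rcases lt_or_ge y 0 with hy | hy
  · rw [hneg y hy, abs_zero]
    positivity
  · have h1 := hi (-1) (y + 1) (by linarith)
    rw [hneg (-1) (by norm_num), sub_zero] at h1
    have e : -1 + (y + 1) = y := by ring
    rw [e] at h1
    have h2 : 0 ≤ A' y := by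
      have := hm (show -1 ≤ y by linarith)
      rwa [hneg (-1) (by norm_num)] at this
    rw [abs_of_nonneg h2, abs_of_nonneg hy]
    nlinarith

lemma abs_le_sq (y : ℝ) : 1 + |y| ≤ 2 * (1 + y ^ 2) := by
  rw [← sq_abs]
  nlinarith [sq_nonneg (|y| - 1), abs_nonneg y]

/-- limits exist -/
theorem exists_Lm : ∃ C1, 0 < C1 ∧ ∃ T1, t0 ≤ T1 ∧
    (∀ T, T1 ≤ T → ∀ y, |Aa T y| ≤ 6 * C1 * (1 + y ^ 2)) ∧
    ∀ g : Ultrafilter ℝ, (g : Filter ℝ) ≤ atTop → ∃ A' : ℝ → ℝ, Lm g A' C1 := by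
  obtain ⟨C1, hC1, T1, hT1, hi⟩ := Aa_incr
  have ht0 := t0_ge
  have hmono : ∀ T, T1 ≤ T → Monotone (Aa T) := fun T hT => Aa_mono (by linarith)
  have hb : ∀ T, T1 ≤ T → ∀ y, |Aa T y| ≤ 6 * C1 * (1 + y ^ 2) := by
    intro T hT y
    have h1 := incr_bound hC1.le (hmono T hT) (fun y hy => Aa_neg T y hy)
      (fun y l hl => hi T hT y l hl) y
    have h2 := mul_le_mul_of_nonneg_left (abs_le_sq y) (show 0 ≤ 3 * C1 by positivity)
    linarith
  refine ⟨C1, hC1, T1, hT1, hb, fun g hg => ?_⟩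
  have hT : ∀ᶠ T in (g : Filter ℝ), T1 ≤ T := hg (eventually_ge_atTop _)
  have hex : ∀ y, ∃ L, Tendsto (fun T => Aa T y) (g : Filter ℝ) (𝓝 L) := by
    intro y
    have h1 : ((g.map fun T => Aa T y : Ultrafilter ℝ) : Filter ℝ) ≤
        𝓟 (Set.Icc (-(6 * C1 * (1 + y ^ 2))) (6 * C1 * (1 + y ^ 2))) := by
      rw [le_principal_iff]
      have h2 : ∀ᶠ T in (g : Filter ℝ), Aa T y ∈
          Set.Icc (-(6 * C1 * (1 + y ^ 2))) (6 * C1 * (1 + y ^ 2)) := by
        filter_upwards [hT] with T hT1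
        exact abs_le.1 (hb T hT1 y)
      exact h2
    obtain ⟨L, _, hL⟩ := isCompact_Icc.ultrafilter_le_nhds _ h1
    exact ⟨L, hL⟩
  choose A' hlim using hex
  refine ⟨A', hlim, ?_, fun y hy => ?_, fun y l hl => ?_, ?_⟩
  · intro a b hab
    refine le_of_tendsto_of_tendsto (hlim a) (hlim b) ?_
    filter_upwards [hT] with T hT1 using hmono T hT1 hab
  · refine tendsto_nhds_unique (hlim y) ?_
    have : (fun T => Aa T y) = fun _ => 0 := funext fun T => Aa_neg T y hy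
    rw [this]
    exact tendsto_const_nhds
  · refine le_of_tendsto ((hlim (y + l)).sub (hlim y)) ?_
    filter_upwards [hT] with T hT1 using hi T hT1 y l hl
  · refine le_of_forall_pos_le_add fun ε hε => ?_
    have h1 : ∀ᶠ T in (g : Filter ℝ), 1 - ε ≤ Aa T 0 := hg (Aa_diag hε)
    have := ge_of_tendsto (hlim 0) h1
    linarith

/-- integrals along the ultrafilter -/
lemma Lm_int {g : Ultrafilter ℝ} (hg : (g : Filter ℝ) ≤ atTop) {A' : ℝ → ℝ} {C1 : ℝ}
    (h : Lm g A' C1) {w : ℝ → ℝ} (hw : Measurable w) {D : ℝ}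
    (hwd : ∀ y, |w y| ≤ D / (1 + y ^ 2) ^ 2) :
    Tendsto (fun T => ∫ y, Aa T y * w y) (g : Filter ℝ) (𝓝 (∫ y, A' y * w y)) := by
  obtain ⟨C2, hC2, T1, hT1, hb, -⟩ := exists_Lm
  have ht0 := t0_ge
  exact lim_int_u (T0 := T1) (fun T hT => Aa_mono (by linarith)) hb hw hwd hg h.mono h.lim

/-- **the uniform bound for the two bump functions** -/
theorem Lm_lav (hK : TK d0 K) : ∃ C, 0 ≤ C ∧ ∀ (g : Ultrafilter ℝ), (g : Filter ℝ) ≤ atTop →
    ∀ (A' : ℝ → ℝ) (C1 : ℝ), Lm g A' C1 → ∀ A : ℝ,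
      |(∫ y, A' y * dct (Lav K A) y) - ∫ y, AG y * dct (Lav K A) y| ≤ C := by
  have hd := d0_pos
  have hd1 := d0_le
  have ht0 := t0_ge
  obtain ⟨C, hC, T1, hT1, hb⟩ := cmp_lav hd (by linarith) hK
  refine ⟨C, hC, fun g hg A' C1 h A => ?_⟩
  have hL := Lav_TK hK A
  obtain ⟨D, hD0, hD⟩ := dct_bound hd hL
  have h1 := Lm_int hg h (dct_cont hL).measurable hD
  have h2 := (QC_lim hd (by linarith) (by linarith) hL).mono_left hg
  rw [AG_montg hd hL (by linarith)]
  have h3 : Tendsto (fun T => |(∫ y, Aa T y * dct (Lav K A) y) +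
      QC (gk (Lav K A)) (Zt T) (Zt T) (Real.log T) / Xf T|) (g : Filter ℝ)
      (𝓝 |(∫ y, A' y * dct (Lav K A) y) + mont (Lav K A)|) := (h1.add h2).abs
  rw [sub_neg_eq_add]
  refine le_of_tendsto h3 ?_
  filter_upwards [hg (eventually_ge_atTop T1)] with T hT
  have hX := Xf_pos (V := T) (by linarith)
  rw [Aa_intg hd hL]
  have e : -((Xf T)⁻¹ * Q2 (ct (Lav K A)) T (Real.log T)) +
      QC (gk (Lav K A)) (Zt T) (Zt T) (Real.log T) / Xf T =
      (QC (gk (Lav K A)) (Zt T) (Zt T) (Real.log T) - Q2 (ct (Lav K A)) T (Real.log T)) /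
        Xf T := by
    field_simp
    ring
  rw [e, abs_div, abs_of_pos hX, div_le_iff₀ hX]
  exact hb T hT A

/-- **the spectral gap if the limit has no multiplicities** -/
theorem Lm_gap {g : Ultrafilter ℝ} (hg : (g : Filter ℝ) ≤ atTop) {A' : ℝ → ℝ} {C1 : ℝ}
    (h : Lm g A' C1) (h0 : A' 0 ≤ 1) :
    Tendsto (fun T => (∑ s ∈ Zo T, mz s) / Xf T) (g : Filter ℝ) (𝓝 0) ∧
    ∀ K, TK d0 K → ∫ y, A' y * dct K y = ∫ y, AG y * dct K y := by
  have hd := d0_pos
  have hd1 := d0_le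
  have ht0 := t0_ge
  have ho : Tendsto (fun T => (∑ s ∈ Zo T, mz s) / Xf T) (g : Filter ℝ) (𝓝 0) := by
    rw [Metric.tendsto_nhds]
    intro ε hε
    have h1 : ∀ᶠ T in (g : Filter ℝ), Aa T 0 < 1 + ε / 4 :=
      (tendsto_order.1 (h.lim 0)).2 _ (by linarith)
    obtain ⟨T0, hT0, hN⟩ := Pool.Agent.W54.TCF.NT_asymp' (ε / 4) (by positivity)
    have h3 : ∀ᶠ T : ℝ in atTop, (∑ s ∈ Zt 1, mz s) * 4 * (2 * π) / ε ≤ T :=
      eventually_ge_atTop _
    filter_upwards [h1, hg (eventually_ge_atTop (max T0 16)), hg h3] with T a1 a2 a3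
    have hT0' : T0 ≤ T := (le_max_left _ _).trans a2
    have hT16 : 16 ≤ T := (le_max_right _ _).trans a2
    have hX := Xf_pos (V := T) (by linarith)
    have hpi := Real.pi_pos
    have hL : 1 ≤ Real.log T := by
      rw [Real.le_log_iff_exp_le (by linarith)]
      linarith [Real.exp_one_lt_d9]
    have b1 := (hN T hT0').1
    rw [← sum_Zt] at b1
    have b2 := diag_off T
    have b3 : PC T {x | |x| ≤ 0} < (1 + ε / 4) * Xf T := by
      unfold Aa at a1
      rw [inv_mul_lt_iff₀ hX] at a1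
      linarith
    have b4 : ∑ s ∈ Zt 1, mz s ≤ ε / 4 * Xf T := by
      rw [div_le_iff₀ hε] at a3
      unfold Xf
      rw [← mul_div_assoc, le_div_iff₀ (by positivity)]
      have h5 : T * 1 ≤ T * Real.log T := mul_le_mul_of_nonneg_left hL (by linarith)
      nlinarith
    have e : T / (2 * π) * Real.log T = Xf T := by unfold Xf; ring
    rw [e] at b1
    have h0 : 0 ≤ ∑ s ∈ Zo T, mz s := Finset.sum_nonneg fun s _ => mz_nonneg s
    rw [Real.dist_eq, sub_zero, abs_of_nonneg (by positivity), div_lt_iff₀ hX]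
    nlinarith
  refine ⟨ho, fun K hK => ?_⟩
  obtain ⟨D, hD0, hD⟩ := dct_bound hd hK
  have h1 := Lm_int hg h (dct_cont hK).measurable hD
  have h2 := (QC_lim hd (by linarith) (by linarith) hK).mono_left hg
  have h3 := cmp_small (by linarith) hK hg ho
  rw [AG_montg hd hK (by linarith)]
  have h4 := (h3.sub h2)
  rw [zero_sub] at h4
  refine tendsto_nhds_unique h1 (h4.congr' ?_)
  filter_upwards [hg (eventually_ge_atTop 16)] with T hT
  have hX := Xf_pos (V := T) (by linarith)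
  rw [Aa_intg hd hK]
  field_simp
  ring

end Pool.Agent.H8.PCU
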