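import Pool.Agent.H8.PCU.R3

/-! # The discrepancy is bounded and has bounded primitive -/

set_option autoImplicit false

open MeasureTheory Filter Topology Real

namespace Pool.Agent.H8.PCU

open Pool.Agent.Y744

/-- the discrepancy -/
noncomputable def Ed (A' : ℝ → ℝ) (y : ℝ) : ℝ := A' y - AG y

lemma AG_pos {y : ℝ} (hy : 0 ≤ y) : AG y = 1 + 2 * gp y := by
  unfold AG
  rw [if_neg (by linarith)]

lemma AG_neg {y : ℝ} (hy : y < 0) : AG y = 0 := by
  unfold AG
  rw [if_pos hy]

lemma gp_incr {a b : ℝ} (h : a ≤ b) : gp b - gp a ≤ b - a := by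
  rw [gp_sub]
  have := intervalIntegral.integral_mono_on h (gd_cont.intervalIntegrable _ _)
    (intervalIntegrable_const : IntervalIntegrable (fun _ => (1 : ℝ)) volume a b)
    fun u _ => gd_le u
  simpa using this

lemma AG_incr {y l : ℝ} (hl : 0 ≤ l) : 0 ≤ AG (y + l) - AG y ∧ AG (y + l) - AG y ≤ 1 + 2 * l := by
  rcases lt_or_ge y 0 with hy | hy
  · rw [AG_neg hy, sub_zero]
    rcases lt_or_ge (y + l) 0 with h | h
    · rw [AG_neg h]
      exact ⟨le_rfl, by linarith⟩
    · rw [AG_pos h]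
      have h1 := gp_nonneg h
      have h2 := gp_le h
      exact ⟨by linarith, by linarith⟩
  · rw [AG_pos hy, AG_pos (by linarith)]
    have h1 := gp_mono (show y ≤ y + l by linarith)
    have h2 := gp_incr (show y ≤ y + l by linarith)
    exact ⟨by linarith, by linarith⟩

variable {g : Ultrafilter ℝ} {A' : ℝ → ℝ} {C1 : ℝ} {K : ℝ → ℝ}

lemma Ed_lip (h : Lm g A' C1) (hC1 : 0 ≤ C1) (x y : ℝ) :
    |Ed A' x - Ed A' y| ≤ (C1 + 2) * (1 + |x - y|) := by
  have key : ∀ x y : ℝ, x ≤ y → |Ed A' y - Ed A' x| ≤ (C1 + 2) * (1 + (y - x)) := by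
    intro x y hxy
    have h1 := h.incr x (y - x) (by linarith)
    have h2 := AG_incr (y := x) (show 0 ≤ y - x by linarith)
    have h3 := h.mono hxy
    rw [add_sub_cancel] at h1 h2
    unfold Ed
    rw [abs_le]
    constructor
    · nlinarith [h2.2, mul_nonneg hC1 (show 0 ≤ 1 + (y - x) by linarith)]
    · nlinarith [h2.1]
  rcases le_total x y with hxy | hxy
  · rw [abs_sub_comm, abs_of_nonpos (show x - y ≤ 0 by linarith)]
    have := key x y hxy
    rw [neg_sub]
    exact this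
  · rw [abs_of_nonneg (show 0 ≤ x - y by linarith)]
    exact key y x hxy

lemma Ed_neg (h : Lm g A' C1) {y : ℝ} (hy : y < 0) : Ed A' y = 0 := by
  unfold Ed
  rw [h.neg y hy, AG_neg hy, sub_zero]

lemma Ed_meas (h : Lm g A' C1) : Measurable (Ed A') := h.mono.measurable.sub AG_meas

lemma Ed_grow (h : Lm g A' C1) (hC1 : 0 ≤ C1) (y : ℝ) : |Ed A' y| ≤ 4 * (C1 + 2) * (1 + y ^ 2) := by
  have h1 := Ed_lip h hC1 y (-1)
  rw [Ed_neg h (by norm_num : (-1 : ℝ) < 0), sub_zero, sub_neg_eq_add] at h1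
  refine h1.trans ?_
  have h2 : |y + 1| ≤ |y| + 1 := (abs_add_le _ _).trans (by rw [abs_one])
  have h3 := abs_le_sq y
  have h4 : 1 + |y + 1| ≤ 4 * (1 + y ^ 2) := by nlinarith [sq_nonneg y]
  calc (C1 + 2) * (1 + |y + 1|) ≤ (C1 + 2) * (4 * (1 + y ^ 2)) :=
        mul_le_mul_of_nonneg_left h4 (by linarith)
    _ = _ := by ring

/-- integrability against decaying functions -/
lemma int_dec {f w : ℝ → ℝ} (hf : Measurable f) (hw : Measurable w) {B D : ℝ} (hB : 0 ≤ B)
    (hfb : ∀ y, |f y| ≤ B * (1 + y ^ 2)) (hwd : ∀ y, |w y| ≤ D / (1 + y ^ 2) ^ 2) :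
    Integrable fun y => f y * w y := by
  refine (integrable_inv_one_add_sq.const_mul (B * D)).mono'
    (hf.mul hw).aestronglyMeasurable (Eventually.of_forall fun y => ?_)
  rw [Real.norm_eq_abs, abs_mul]
  calc |f y| * |w y| ≤ (B * (1 + y ^ 2)) * (D / (1 + y ^ 2) ^ 2) :=
        mul_le_mul (hfb y) (hwd y) (abs_nonneg _) (by positivity)
    _ = B * D * (1 + y ^ 2)⁻¹ := by field_simp

/-- the basic estimate in terms of the discrepancy -/
lemma lav_Ed (hK : TK d0 K) : ∃ C, 0 ≤ C ∧ ∀ (g : Ultrafilter ℝ), (g : Filter ℝ) ≤ atTop →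
    ∀ (A' : ℝ → ℝ) (C1 : ℝ), Lm g A' C1 → 0 ≤ C1 → ∀ A : ℝ,
      |∫ y, Ed A' y * (2 * Jp K y - Jp K (y + A) - Jp K (y - A))| ≤ C := by
  obtain ⟨C, hC, hb⟩ := Lm_lav hK
  refine ⟨C, hC, fun g hg A' C1 h hC1 A => ?_⟩
  have hd := d0_pos
  have hL := Lav_TK hK A
  obtain ⟨D, hD0, hD⟩ := dct_bound hd hL
  have h1 := hb g hg A' C1 h A
  have hA'b : ∀ y, |A' y| ≤ 6 * C1 * (1 + y ^ 2) := by
    intro y
    have h2 := incr_bound hC1 h.mono h.neg h.incr y
    have h3 := mul_le_mul_of_nonneg_left (abs_le_sq y) (show 0 ≤ 3 * C1 by positivity)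
    linarith
  have i1 := int_dec h.mono.measurable (dct_cont hL).measurable (by positivity) hA'b hD
  have i2 := int_dec AG_meas (dct_cont hL).measurable (by norm_num) AG_bound hD
  rw [← integral_sub i1 i2, ← abs_neg, ← integral_neg] at h1
  refine le_trans (le_of_eq ?_) h1
  congr 1
  refine integral_congr_ae (Eventually.of_forall fun y => ?_)
  show Ed A' y * (2 * Jp K y - Jp K (y + A) - Jp K (y - A)) =
    -(A' y * dct (Lav K A) y - AG y * dct (Lav K A) y)
  rw [dct_Lav hK]
  unfold Ed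
  ring

/-- the bump -/
noncomputable def bp (K : ℝ → ℝ) (u : ℝ) : ℝ := Jp K u - Jp K (u - 1)

lemma Jp_sub (hK : TK d0 K) (a b : ℝ) : Jp K b - Jp K a = ∫ u in a..b, ct K u := by
  unfold Jp
  exact intervalIntegral.integral_interval_sub_left (hK.ct_cont.intervalIntegrable _ _)
    (hK.ct_cont.intervalIntegrable _ _)

lemma Jp_cont (hK : TK d0 K) : Continuous (Jp K) :=
  continuous_iff_continuousAt.2 fun y => (Jp_hasDeriv hK y).continuousAt

lemma bp_cont (hK : TK d0 K) : Continuous (bp K) := by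
  unfold bp
  exact (Jp_cont hK).sub ((Jp_cont hK).comp (by fun_prop))

lemma bp_nonneg (hK : TK d0 K) (h0 : ∀ x, 0 ≤ ct K x) (u : ℝ) : 0 ≤ bp K u := by
  unfold bp
  rw [Jp_sub hK]
  exact intervalIntegral.integral_nonneg (by linarith) fun x _ => h0 x

lemma bp_bound (hK : TK d0 K) {D : ℝ} (hD0 : 0 ≤ D) (hD : ∀ x, |ct K x| ≤ D / (1 + x ^ 2) ^ 2)
    (u : ℝ) : |bp K u| ≤ 9 * D / (1 + u ^ 2) ^ 2 := by
  unfold bp
  rw [Jp_sub hK]
  have h1 := intervalIntegral.norm_integral_le_of_norm_le_const (a := u - 1) (b := u)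
    (f := ct K) (C := 9 * D / (1 + u ^ 2) ^ 2) (fun x hx => by
      rw [Set.uIoc_of_le (by linarith)] at hx
      rw [Real.norm_eq_abs]
      refine (hD x).trans ?_
      rw [div_le_div_iff₀ (by positivity) (by positivity)]
      have h2 : 1 + u ^ 2 ≤ 3 * (1 + x ^ 2) := by
        have h3 : (u - x) ^ 2 ≤ 1 := by nlinarith [hx.1, hx.2]
        nlinarith [sq_nonneg (2 * x - u)]
      have h3 := pow_le_pow_left₀ (by positivity) h2 2
      rw [mul_pow] at h3
      nlinarith)
  rw [Real.norm_eq_abs, sub_sub_cancel, abs_one, mul_one] at h1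
  exact h1

/-- **the discrepancy is bounded** -/
theorem Ed_bdd {C1 : ℝ} (hC1 : 0 ≤ C1) : ∃ B, 0 ≤ B ∧ ∀ (g : Ultrafilter ℝ),
    (g : Filter ℝ) ≤ atTop → ∀ (A' : ℝ → ℝ), Lm g A' C1 → ∀ y, |Ed A' y| ≤ B := by
  obtain ⟨K, hK, hK0, hKp, -⟩ := exists_pos d0_pos
  obtain ⟨C, hC, hb⟩ := lav_Ed hK
  obtain ⟨D, hD0, hD⟩ := hK.decay 2
  have hbn := bp_nonneg hK hK0
  have hbb := bp_bound hK hD0 hD
  have hbc := bp_cont hK
  have hpi := Real.pi_pos
  have hbi : Integrable (bp K) := by
    have := int_dec (f := fun _ => (1 : ℝ)) measurable_const hbc.measurable (B := 1) zero_le_one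
      (fun y => by rw [abs_one, one_mul]; nlinarith [sq_nonneg y]) hbb
    simpa using this
  obtain ⟨kb, hkb⟩ : ∃ kb : ℝ, kb = ∫ u, bp K u := ⟨_, rfl⟩
  have hkb0 : 0 < kb := by
    rw [hkb, integral_pos_iff_support_of_nonneg hbn hbi]
    have h1 : 0 < bp K 0 := by
      unfold bp
      rw [Jp_sub hK]
      refine intervalIntegral.integral_pos (by norm_num) hK.ct_cont.continuousOn
        (fun x _ => hK0 x) ⟨0, ⟨by norm_num, le_rfl⟩, hKp⟩
    have h2 : IsOpen (Function.support (bp K)) := hbc.isOpen_support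
    exact h2.measure_pos volume ⟨0, h1.ne'⟩
  refine ⟨(2 * C + 54 * D * (C1 + 2) * π) / kb, by positivity, fun g hg A' h y => ?_⟩
  have hCC : 0 ≤ C1 + 2 := by linarith
  rcases lt_or_ge y 0 with hy | hy
  · rw [Ed_neg h hy, abs_zero]
    positivity
  have hEm := Ed_meas h
  have hEg := Ed_grow h hC1
  -- shifted bumps
  have hsh : ∀ a : ℝ, ∃ D', ∀ u, |bp K (u + a)| ≤ D' / (1 + u ^ 2) ^ 2 := by
    intro a
    refine ⟨(2 + 2 * a ^ 2) ^ 2 * (9 * D), fun u => (hbb (u + a)).trans ?_⟩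
    rw [div_le_div_iff₀ (by positivity) (by positivity)]
    have h2 := shift_sq u a
    have h3 := pow_le_pow_left₀ (by positivity) h2 2
    rw [mul_pow] at h3
    nlinarith
  have hbm : ∀ a : ℝ, Measurable fun u => bp K (u + a) := fun a =>
    (hbc.comp (by fun_prop)).measurable
  have hiE : ∀ a : ℝ, Integrable fun u => Ed A' u * bp K (u + a) := by
    intro a
    obtain ⟨D', hD'⟩ := hsh a
    exact int_dec hEm (hbm a) (by positivity) hEg hD'
  -- the difference of two estimates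
  have hLi : ∀ A : ℝ, Integrable fun u => Ed A' u * (2 * Jp K u - Jp K (u + A) - Jp K (u - A)) := by
    intro A
    have hL := Lav_TK hK A
    obtain ⟨D2, hD20, hD2⟩ := dct_bound d0_pos hL
    have := (int_dec hEm (dct_cont hL).measurable (by positivity) hEg hD2).neg
    refine this.congr (Eventually.of_forall fun u => ?_)
    show -(Ed A' u * dct (Lav K A) u) = _
    rw [dct_Lav hK]
    ring
  have h1 : |∫ u, Ed A' u * (bp K (u + -y) - bp K (u + (y + 1)))| ≤ 2 * C := by
    have e : ∀ u, Ed A' u * (bp K (u + -y) - bp K (u + (y + 1))) =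
        Ed A' u * (2 * Jp K u - Jp K (u + (y + 1)) - Jp K (u - (y + 1))) -
        Ed A' u * (2 * Jp K u - Jp K (u + y) - Jp K (u - y)) := by
      intro u
      unfold bp
      have e1 : u + -y = u - y := by ring
      have e2 : u + -y - 1 = u - (y + 1) := by ring
      have e3 : u + (y + 1) - 1 = u + y := by ring
      rw [e2, e3, e1]
      ring
    simp_rw [e]
    rw [integral_sub (hLi _) (hLi _)]
    refine (abs_sub _ _).trans ?_
    have a1 := hb g hg A' C1 h hC1 (y + 1)
    have a2 := hb g hg A' C1 h hC1 y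
    linarith
  -- the reflected bump
  have h2 : |∫ u, Ed A' u * bp K (u + (y + 1))| ≤ 36 * D * (C1 + 2) * π := by
    have hbd : ∀ u, |Ed A' u * bp K (u + (y + 1))| ≤ 36 * D * (C1 + 2) * (1 + u ^ 2)⁻¹ := by
      intro u
      rcases lt_or_ge u 0 with hu | hu
      · rw [Ed_neg h hu, zero_mul, abs_zero]
        positivity
      · rw [abs_mul]
        have a1 : |bp K (u + (y + 1))| ≤ 9 * D / (1 + u ^ 2) ^ 2 := by
          refine (hbb _).trans ?_
          have : 1 + u ^ 2 ≤ 1 + (u + (y + 1)) ^ 2 := by nlinarith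
          gcongr
        calc |Ed A' u| * |bp K (u + (y + 1))| ≤ (4 * (C1 + 2) * (1 + u ^ 2)) *
              (9 * D / (1 + u ^ 2) ^ 2) := mul_le_mul (hEg u) a1 (abs_nonneg _) (by positivity)
          _ = _ := by
              field_simp
              ring
    refine (abs_integral_le_integral_abs).trans ?_
    have := integral_mono_of_nonneg (μ := volume) (Eventually.of_forall fun u => abs_nonneg
      (Ed A' u * bp K (u + (y + 1)))) (integrable_inv_one_add_sq.const_mul _)
      (Eventually.of_forall hbd)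
    refine this.trans (le_of_eq ?_)
    rw [integral_const_mul, integral_univ_inv_one_add_sq]
  -- the local variation
  have h3 : |∫ u, (Ed A' y - Ed A' u) * bp K (u + -y)| ≤ 18 * D * (C1 + 2) * π := by
    have hbd : ∀ u, |(Ed A' y - Ed A' u) * bp K (u + -y)| ≤
        18 * D * (C1 + 2) * (1 + (u + -y) ^ 2)⁻¹ := by
      intro u
      rw [abs_mul]
      have a1 := Ed_lip h hC1 y u
      have a2 : 1 + |y - u| ≤ 2 * (1 + (u + -y) ^ 2) := by
        have := abs_le_sq (y - u)
        have e : (u + -y) ^ 2 = (y - u) ^ 2 := by ring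
        rw [e]
        exact this
      calc |Ed A' y - Ed A' u| * |bp K (u + -y)| ≤ ((C1 + 2) * (2 * (1 + (u + -y) ^ 2))) *
            (9 * D / (1 + (u + -y) ^ 2) ^ 2) := by
            refine mul_le_mul (a1.trans (mul_le_mul_of_nonneg_left a2 hCC)) (hbb _)
              (abs_nonneg _) (by positivity)
        _ = _ := by
            field_simp
            ring
    refine (abs_integral_le_integral_abs).trans ?_
    have hint : Integrable fun u : ℝ => 18 * D * (C1 + 2) * (1 + (u + -y) ^ 2)⁻¹ :=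
      (integrable_inv_one_add_sq.comp_add_right (-y)).const_mul _
    have := integral_mono_of_nonneg (μ := volume) (Eventually.of_forall fun u => abs_nonneg
      ((Ed A' y - Ed A' u) * bp K (u + -y))) hint (Eventually.of_forall hbd)
    refine this.trans (le_of_eq ?_)
    rw [integral_const_mul, integral_add_right_eq_self (fun u : ℝ => (1 + u ^ 2)⁻¹) (-y),
      integral_univ_inv_one_add_sq]
  have h4 : Ed A' y * kb = (∫ u, Ed A' u * (bp K (u + -y) - bp K (u + (y + 1)))) +
      (∫ u, Ed A' u * bp K (u + (y + 1))) + ∫ u, (Ed A' y - Ed A' u) * bp K (u + -y) := by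
    have e1 : ∫ u, Ed A' u * (bp K (u + -y) - bp K (u + (y + 1))) =
        (∫ u, Ed A' u * bp K (u + -y)) - ∫ u, Ed A' u * bp K (u + (y + 1)) := by
      rw [← integral_sub (hiE _) (hiE _)]
      refine integral_congr_ae (Eventually.of_forall fun u => ?_)
      show _ = Ed A' u * bp K (u + -y) - Ed A' u * bp K (u + (y + 1))
      ring
    have e2 : ∫ u, (Ed A' y - Ed A' u) * bp K (u + -y) =
        (∫ u, Ed A' y * bp K (u + -y)) - ∫ u, Ed A' u * bp K (u + -y) := by
      rw [← integral_sub ((hbi.comp_add_right (-y)).const_mul _) (hiE _)]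
      refine integral_congr_ae (Eventually.of_forall fun u => ?_)
      show _ = Ed A' y * bp K (u + -y) - Ed A' u * bp K (u + -y)
      ring
    rw [e1, e2, integral_const_mul, integral_add_right_eq_self (bp K) (-y), ← hkb]
    ring
  rw [le_div_iff₀ hkb0]
  have h5 : |Ed A' y| * kb = |Ed A' y * kb| := by rw [abs_mul, abs_of_pos hkb0]
  rw [h5, h4]
  have h6 := abs_add_three (∫ u, Ed A' u * (bp K (u + -y) - bp K (u + (y + 1))))
    (∫ u, Ed A' u * bp K (u + (y + 1))) (∫ u, (Ed A' y - Ed A' u) * bp K (u + -y))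
  refine h6.trans ((add_le_add (add_le_add h1 h2) h3).trans (le_of_eq ?_))
  ring

end Pool.Agent.H8.PCU
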