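import Pool.Agent.H8.PCU.R4
import Pool.Graph.R_pool_sql_team_seeded_3dad9d7b.NH10.BM.High
import Pool.Graph.R_pool_sql_team_seeded_1acbe0a2.Y744.ANC.Fin

/-! # The primitive of the discrepancy, and the rigidity theorem for the limits -/

set_option autoImplicit false

open MeasureTheory Filter Topology Real

namespace Pool.Agent.H8.PCU

open Pool.Agent.Y744

variable {g : Ultrafilter ℝ} {A' : ℝ → ℝ} {C1 : ℝ} {K : ℝ → ℝ}

/-- the limit of the primitive -/
lemma Jp_lim (hK : TK d0 K) {D : ℝ} (hD0 : 0 ≤ D) (hD : ∀ x, |ct K x| ≤ D / (1 + x ^ 2) ^ 2)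
    {y : ℝ} (hy : 0 ≤ y) : |Jp K y - ∫ u in Set.Ioi 0, ct K u| ≤ D * π / (1 + y ^ 2) := by
  have hi : Integrable (ct K) := by
    have := int_dec (f := fun _ => (1 : ℝ)) measurable_const hK.ct_cont.measurable (B := 1)
      zero_le_one (fun y => by rw [abs_one, one_mul]; nlinarith [sq_nonneg y]) hD
    simpa using this
  have h1 : ∫ u in Set.Ioi 0, ct K u = Jp K y + ∫ u in Set.Ioi y, ct K u := by
    unfold Jp
    exact (intervalIntegral.integral_interval_add_Ioi hi.integrableOn hi.integrableOn).symm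
  rw [h1, sub_add_cancel_left, abs_neg]
  refine (abs_integral_le_integral_abs).trans ?_
  have h2 : ∫ u in Set.Ioi y, |ct K u| ≤ ∫ u in Set.Ioi y, D / (1 + y ^ 2) * (1 + u ^ 2)⁻¹ := by
    refine setIntegral_mono_on hi.abs.integrableOn
      (integrable_inv_one_add_sq.const_mul _).integrableOn measurableSet_Ioi fun u hu => ?_
    refine (hD u).trans ?_
    have hu' : y < u := hu
    have h3 : 1 + y ^ 2 ≤ 1 + u ^ 2 := by nlinarith
    rw [div_mul_eq_mul_div, ← div_eq_mul_inv, div_div,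
      div_le_div_iff₀ (by positivity) (by positivity)]
    have h4 : (1 + u ^ 2) * (1 + y ^ 2) ≤ (1 + u ^ 2) ^ 2 := by
      rw [sq (1 + u ^ 2)]
      exact mul_le_mul_of_nonneg_left h3 (by positivity)
    exact mul_le_mul_of_nonneg_left h4 hD0
  refine h2.trans ?_
  have h3 : ∫ u in Set.Ioi y, D / (1 + y ^ 2) * (1 + u ^ 2)⁻¹ ≤
      ∫ u : ℝ, D / (1 + y ^ 2) * (1 + u ^ 2)⁻¹ :=
    setIntegral_le_integral (integrable_inv_one_add_sq.const_mul _)
      (Eventually.of_forall fun u => by positivity)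
  refine h3.trans (le_of_eq ?_)
  rw [integral_const_mul, integral_univ_inv_one_add_sq]
  ring

/-- **the primitive of the discrepancy is bounded** -/
theorem Ed_prim {C1 : ℝ} (hC1 : 0 ≤ C1) : ∃ C, 0 ≤ C ∧ ∀ (g : Ultrafilter ℝ),
    (g : Filter ℝ) ≤ atTop → ∀ (A' : ℝ → ℝ), Lm g A' C1 → ∀ A, 0 ≤ A →
      |∫ y in (0 : ℝ)..A, Ed A' y| ≤ C := by
  obtain ⟨K, hK, hK0, hKp, -⟩ := exists_pos d0_pos
  obtain ⟨C, hC, hb⟩ := lav_Ed hK
  obtain ⟨B, hB, hbd⟩ := Ed_bdd hC1
  obtain ⟨D, hD0, hD⟩ := hK.decay 2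
  have hpi := Real.pi_pos
  have hi : Integrable (ct K) := by
    have := int_dec (f := fun _ => (1 : ℝ)) measurable_const hK.ct_cont.measurable (B := 1)
      zero_le_one (fun y => by rw [abs_one, one_mul]; nlinarith [sq_nonneg y]) hD
    simpa using this
  obtain ⟨j, hj⟩ : ∃ j : ℝ, j = ∫ u in Set.Ioi 0, ct K u := ⟨_, rfl⟩
  have hj0 : 0 < j := by
    have h1 : j = Jp K 1 + ∫ u in Set.Ioi 1, ct K u := by
      rw [hj]
      unfold Jp
      exact (intervalIntegral.integral_interval_add_Ioi hi.integrableOn hi.integrableOn).symm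
    have h2 : 0 ≤ ∫ u in Set.Ioi 1, ct K u := setIntegral_nonneg measurableSet_Ioi fun u _ => hK0 u
    have h3 : 0 < Jp K 1 := by
      unfold Jp
      exact intervalIntegral.integral_pos (by norm_num) hK.ct_cont.continuousOn
        (fun x _ => hK0 x) ⟨0, ⟨le_rfl, by norm_num⟩, hKp⟩
    linarith
  refine ⟨(C + B * (4 * D * π * π)) / (2 * j), by positivity, fun g hg A' h A hA => ?_⟩
  have hJ : ∀ y : ℝ, 0 ≤ y → |Jp K y - j| ≤ D * π / (1 + y ^ 2) := by
    intro y hy
    rw [hj]
    exact Jp_lim hK hD0 hD hy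
  have hE := hbd g hg A' h
  have hEm := Ed_meas h
  have hEg : ∀ y, |Ed A' y| ≤ B * (1 + y ^ 2) := by
    intro y
    refine (hE y).trans ?_
    nlinarith [mul_nonneg hB (sq_nonneg y)]
  set G : ℝ → ℝ := fun y => 2 * Jp K y - Jp K (y + A) - Jp K (y - A) with hG
  -- pointwise comparison
  have hpt : ∀ y, 0 ≤ y → |G y - (Set.Ioc 0 A).indicator (fun _ => 2 * j) y| ≤
      3 * D * π * (1 + y ^ 2)⁻¹ + D * π * (1 + (y + -A) ^ 2)⁻¹ ∨ y = 0 := by
    intro y hy
    rcases hy.eq_or_lt with hy0 | hy0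
    · exact Or.inr hy0.symm
    left
    have a1 := abs_le.1 (hJ y hy)
    have a2 := abs_le.1 (hJ (y + A) (by linarith))
    have a3 : D * π / (1 + (y + A) ^ 2) ≤ D * π * (1 + y ^ 2)⁻¹ := by
      rw [div_eq_mul_inv]
      refine mul_le_mul_of_nonneg_left (inv_anti₀ (by positivity) ?_) (by positivity)
      nlinarith
    rw [div_eq_mul_inv] at a1
    have a4 : (1 + (y - A) ^ 2)⁻¹ = (1 + (y + -A) ^ 2)⁻¹ := by ring_nf
    rcases le_or_gt y A with hyA | hyA
    · rw [Set.indicator_of_mem (show y ∈ Set.Ioc 0 A from ⟨hy0, hyA⟩)]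
      have a5 := abs_le.1 (hJ (A - y) (by linarith))
      have a6 : Jp K (y - A) = -Jp K (A - y) := by rw [← Jp_neg]; ring_nf
      have a7 : D * π / (1 + (A - y) ^ 2) = D * π * (1 + (y + -A) ^ 2)⁻¹ := by
        rw [div_eq_mul_inv]
        ring_nf
      rw [a7] at a5
      simp only [hG]
      rw [a6, abs_le]
      constructor <;> linarith [a1.1, a1.2, a2.1, a2.2, a5.1, a5.2]
    · rw [Set.indicator_of_notMem (show y ∉ Set.Ioc 0 A from fun hc => by
        linarith [hc.2])]
      have a5 := abs_le.1 (hJ (y - A) (by linarith))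
      have a7 : D * π / (1 + (y - A) ^ 2) = D * π * (1 + (y + -A) ^ 2)⁻¹ := by
        rw [div_eq_mul_inv]
        ring_nf
      rw [a7] at a5
      simp only [hG]
      rw [abs_le]
      constructor <;> linarith [a1.1, a1.2, a2.1, a2.2, a5.1, a5.2]
  have hGi : Integrable fun y => Ed A' y * G y := by
    have hL := Lav_TK hK A
    obtain ⟨D2, hD20, hD2⟩ := dct_bound d0_pos hL
    have := (int_dec hEm (dct_cont hL).measurable hB hEg hD2).neg
    refine this.congr (Eventually.of_forall fun u => ?_)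
    show -(Ed A' u * dct (Lav K A) u) = _
    rw [dct_Lav hK]
    simp only [hG]
    ring
  have hEint : IntegrableOn (Ed A') (Set.Ioc 0 A) := by
    refine Measure.integrableOn_of_bounded (M := B) ?_ hEm.aestronglyMeasurable
      (Eventually.of_forall fun y => by rw [Real.norm_eq_abs]; exact hE y)
    rw [Real.volume_Ioc]
    exact ENNReal.ofReal_ne_top
  have hIi : Integrable fun y => Ed A' y * (Set.Ioc 0 A).indicator (fun _ => 2 * j) y := by
    have h1 : (fun y => Ed A' y * (Set.Ioc 0 A).indicator (fun _ => 2 * j) y) =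
        (Set.Ioc 0 A).indicator (fun y => Ed A' y * (2 * j)) := by
      funext y
      by_cases hy : y ∈ Set.Ioc 0 A
      · rw [Set.indicator_of_mem hy, Set.indicator_of_mem hy]
      · rw [Set.indicator_of_notMem hy, Set.indicator_of_notMem hy, mul_zero]
    rw [h1]
    exact (integrable_indicator_iff measurableSet_Ioc).2 (hEint.mul_const _)
  have e1 : ∫ y, Ed A' y * (Set.Ioc 0 A).indicator (fun _ => 2 * j) y =
      2 * j * ∫ y in (0 : ℝ)..A, Ed A' y := by
    have h1 : (fun y => Ed A' y * (Set.Ioc 0 A).indicator (fun _ => 2 * j) y) =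
        (Set.Ioc 0 A).indicator (fun y => 2 * j * Ed A' y) := by
      funext y
      by_cases hy : y ∈ Set.Ioc 0 A
      · rw [Set.indicator_of_mem hy, Set.indicator_of_mem hy]
        ring
      · rw [Set.indicator_of_notMem hy, Set.indicator_of_notMem hy, mul_zero]
    rw [h1, integral_indicator measurableSet_Ioc, integral_const_mul,
      intervalIntegral.integral_of_le hA]
  have h2 : |∫ y, Ed A' y * (G y - (Set.Ioc 0 A).indicator (fun _ => 2 * j) y)| ≤
      B * (4 * D * π * π) := by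
    have hint : Integrable fun y : ℝ =>
        B * (3 * D * π * (1 + y ^ 2)⁻¹ + D * π * (1 + (y + -A) ^ 2)⁻¹) :=
      ((integrable_inv_one_add_sq.const_mul _).add
        ((integrable_inv_one_add_sq.comp_add_right (-A)).const_mul _)).const_mul _
    refine (abs_integral_le_integral_abs).trans ?_
    have h0 : ∀ᵐ x : ℝ, x ≠ 0 := by
      rw [ae_iff]
      simp
    have hbd2 : ∀ᵐ y, |Ed A' y * (G y - (Set.Ioc 0 A).indicator (fun _ => 2 * j) y)| ≤
        B * (3 * D * π * (1 + y ^ 2)⁻¹ + D * π * (1 + (y + -A) ^ 2)⁻¹) := by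
      filter_upwards [h0] with y hy0
      rcases lt_or_ge y 0 with hy | hy
      · rw [Ed_neg h hy, zero_mul, abs_zero]
        positivity
      · rw [abs_mul]
        exact mul_le_mul (hE y) ((hpt y hy).resolve_right hy0) (abs_nonneg _) hB
    have := integral_mono_of_nonneg (μ := volume) (Eventually.of_forall fun u => abs_nonneg
      (Ed A' u * (G u - (Set.Ioc 0 A).indicator (fun _ => 2 * j) u))) hint hbd2
    refine this.trans (le_of_eq ?_)
    rw [integral_const_mul, integral_add (integrable_inv_one_add_sq.const_mul _)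
      ((integrable_inv_one_add_sq.comp_add_right (-A)).const_mul _), integral_const_mul,
      integral_const_mul, integral_add_right_eq_self (fun u : ℝ => (1 + u ^ 2)⁻¹) (-A),
      integral_univ_inv_one_add_sq]
    ring
  have h3 := hb g hg A' C1 h hC1 A
  have e2 : ∫ y, Ed A' y * (G y - (Set.Ioc 0 A).indicator (fun _ => 2 * j) y) =
      (∫ y, Ed A' y * G y) - ∫ y, Ed A' y * (Set.Ioc 0 A).indicator (fun _ => 2 * j) y := by
    rw [← integral_sub hGi hIi]
    refine integral_congr_ae (Eventually.of_forall fun y => ?_)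
    show _ = Ed A' y * G y - Ed A' y * (Set.Ioc 0 A).indicator (fun _ => 2 * j) y
    ring
  rw [e2, e1] at h2
  rw [le_div_iff₀ (by positivity)]
  have h4 : |∫ y in (0 : ℝ)..A, Ed A' y| * (2 * j) = |2 * j * ∫ y in (0 : ℝ)..A, Ed A' y| := by
    rw [abs_mul, abs_of_pos (by positivity : 0 < 2 * j)]
    ring
  rw [h4]
  have h5 : |∫ y, Ed A' y * G y| ≤ C := h3
  have h6 := abs_sub_abs_le_abs_sub (2 * j * ∫ y in (0 : ℝ)..A, Ed A' y) (∫ y, Ed A' y * G y)
  rw [abs_sub_comm (2 * j * ∫ y in (0 : ℝ)..A, Ed A' y)] at h6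
  linarith

end Pool.Agent.H8.PCU
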