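import Pool.Agent.H8.PCU.R5

/-! # The rigidity theorem for the limits -/

set_option autoImplicit false

open MeasureTheory Filter Topology Real Set

namespace Pool.Agent.H8.PCU

open Pool.Agent.Y744 Pool.Agent.NH10.BM

/-- a function with a spectral gap and small negative part on a long system vanishes -/
theorem high_sparse_w {κ : ℝ} {H : ℝ → ℝ} {B C δ : ℝ} (hκ : 0 < κ) (hm : Measurable H)
    (he : ∀ x, H (-x) = H x) (hB : ∀ x, |H x| ≤ B * (1 + x ^ 2)) (hcont : ∀ᵐ x, ContinuousAt H x)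
    (hC : 0 ≤ C) (hδ : 0 < δ) {a r : ℕ → ℝ} (hr : ∀ k, 0 < r k) (hra : ∀ k, r k ≤ a k)
    (har : ∀ k, a k + r k ≤ a (k + 1)) (hns : ¬ Summable fun k => (r k / a k) ^ 2)
    (hl : ∀ k, ∀ᵐ x, x ∈ Set.Icc (a k) (a k + r k) →
      -(C * (1 + x ^ 2) * Real.exp (-(δ * r k))) ≤ H x)
    (hz : ∀ K, TK κ K → ∫ x, H x * ct K x = 0) : ∀ᵐ x, H x = 0 := by
  have hpi := Real.pi_pos
  obtain ⟨K, hK, hK0, hKp, -⟩ := exists_pos (κ := κ / 2) (by positivity)
  have key : ∀ ε : ℝ, 0 < ε → ε ≤ 1 → ∀ᵐ x, H x * ct K (ε * x) = 0 := by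
    intro ε hε hε1
    obtain ⟨L, hL⟩ : ∃ L : ℝ → ℝ, L = fun α => ε⁻¹ * K (ε⁻¹ * α) := ⟨_, rfl⟩
    have hLt : TK (κ / 2) L := by
      rw [hL]
      refine (hK.dil hε).mono ?_
      have : ε * (κ / 2) ≤ 1 * (κ / 2) := mul_le_mul_of_nonneg_right hε1 (by positivity)
      linarith
    have hLc : ∀ x, ct L x = ct K (ε * x) := fun x => by
      rw [hL]
      exact TK.ct_dil K hε x
    have hGi := int_mul_ct hm hB hLt
    obtain ⟨G, hGd⟩ : ∃ G : ℝ → ℝ, G = fun x => H x * ct L x := ⟨_, rfl⟩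
    rw [← hGd] at hGi
    have hev : ∀ x, G (-x) = G x := by
      intro x
      rw [hGd]
      show H (-x) * ct L (-x) = H x * ct L x
      rw [he, TK.ct_neg]
    have hgap : Gap G (min 1 (π * κ)) := by
      intro ξ hξ
      have h1 : |ξ| ≤ π * κ := hξ.trans (min_le_right _ _)
      obtain ⟨s, hs⟩ : ∃ s : ℝ, s = ξ / (2 * π) := ⟨_, rfl⟩
      have hs1 : |s| ≤ κ / 2 := by
        rw [hs, abs_div, abs_of_pos (by positivity : (0 : ℝ) < 2 * π),
          div_le_iff₀ (by positivity)]
        linarith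
      have hc0 : ∫ x, G x * Real.cos (ξ * x) = 0 := by
        have h2 := hz _ ((hLt.modul s).mono (by linarith))
        rw [← h2]
        refine integral_congr_ae (Eventually.of_forall fun x => ?_)
        show G x * Real.cos (ξ * x) = H x * ct (fun α => (L (α - s) + L (α + s)) / 2) x
        rw [hLt.ct_modul s x, hGd]
        have : 2 * π * s * x = ξ * x := by
          rw [hs]
          field_simp
        rw [this]
        ring
      have hs0 : ∫ x, G x * Real.sin (ξ * x) = 0 := by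
        have h1 : ∫ x, G x * Real.sin (ξ * x) = ∫ x, G (-x) * Real.sin (ξ * (-x)) :=
          (integral_neg_eq_self (fun x => G x * Real.sin (ξ * x)) volume).symm
        have h2 : ∫ x, G (-x) * Real.sin (ξ * (-x)) = -∫ x, G x * Real.sin (ξ * x) := by
          rw [← integral_neg]
          refine integral_congr_ae (Eventually.of_forall fun x => ?_)
          show G (-x) * Real.sin (ξ * (-x)) = -(G x * Real.sin (ξ * x))
          rw [hev, mul_neg, Real.sin_neg]
          ring
        linarith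
      have hic : Integrable fun x => G x * Real.cos (ξ * x) :=
        hGi.mul_bdd (c := 1) (by fun_prop) (Eventually.of_forall fun x => by
          rw [Real.norm_eq_abs]; exact Real.abs_cos_le_one _)
      have his : Integrable fun x => G x * Real.sin (ξ * x) :=
        hGi.mul_bdd (c := 1) (by fun_prop) (Eventually.of_forall fun x => by
          rw [Real.norm_eq_abs]; exact Real.abs_sin_le_one _)
      have e : ∀ x : ℝ, (G x : ℂ) * Complex.exp (Complex.I * (ξ * x)) =
          ((G x * Real.cos (ξ * x) : ℝ) : ℂ) + ((G x * Real.sin (ξ * x) : ℝ) : ℂ) * Complex.I := by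
        intro x
        rw [mul_comm Complex.I, Complex.exp_mul_I]
        push_cast
        ring
      simp_rw [e]
      rw [integral_add hic.ofReal (his.ofReal.mul_const _), integral_mul_const]
      have i1 : ∫ x, ((G x * Real.cos (ξ * x) : ℝ) : ℂ) =
          ((∫ x, G x * Real.cos (ξ * x) : ℝ) : ℂ) := integral_ofReal
      have i2 : ∫ x, ((G x * Real.sin (ξ * x) : ℝ) : ℂ) =
          ((∫ x, G x * Real.sin (ξ * x) : ℝ) : ℂ) := integral_ofReal
      rw [i1, i2, hc0, hs0]
      simp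
    have hLn : ∀ x, 0 ≤ ct L x := fun x => by rw [hLc]; exact hK0 _
    have hLi : Integrable fun x => C * (1 + x ^ 2) * ct L x :=
      int_mul_ct (H := fun x => C * (1 + x ^ 2)) (B := C) (by fun_prop) (fun x => by
        rw [abs_of_nonneg (by positivity)]) hLt
    have hfin := sparse_zero (G := G) (w := fun x => C * (1 + x ^ 2) * ct L x) hGi hLi
      (fun x => mul_nonneg (by positivity) (hLn x)) (by
        filter_upwards [hcont] with x hx
        rw [hGd]
        exact hx.mul hLt.ct_cont.continuousAt)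
      (σ := min 1 (π * κ)) (δ := δ) (lt_min one_pos (by positivity)) (min_le_left _ _) hδ hgap
      hr hra har hns (fun k => by
        filter_upwards [hl k] with x hx hx2
        have h1 := hx hx2
        rw [hGd]
        have h2 := mul_le_mul_of_nonneg_right h1 (hLn x)
        calc -(Real.exp (-(δ * r k)) * (C * (1 + x ^ 2) * ct L x)) =
            -(C * (1 + x ^ 2) * Real.exp (-(δ * r k))) * ct L x := by ring
          _ ≤ H x * ct L x := h2)
    filter_upwards [hfin] with x hx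
    rw [← hLc]
    rw [hGd] at hx
    exact hx
  have h1 : ∀ᵐ x, ∀ n : ℕ, H x * ct K (1 / ((n : ℝ) + 1) * x) = 0 := by
    rw [ae_all_iff]
    intro n
    have hn : (0 : ℝ) < (n : ℝ) + 1 := by positivity
    refine key _ (by positivity) ?_
    rw [div_le_one hn]
    have : (0 : ℝ) ≤ n := Nat.cast_nonneg n
    linarith
  filter_upwards [h1] with x hx
  have h2 : Tendsto (fun n : ℕ => 1 / ((n : ℝ) + 1) * x) atTop (𝓝 (0 * x)) :=
    tendsto_one_div_add_atTop_nhds_zero_nat.mul_const x
  rw [zero_mul] at h2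
  have h3 : Tendsto (fun n : ℕ => ct K (1 / ((n : ℝ) + 1) * x)) atTop (𝓝 (ct K 0)) :=
    (hK.ct_cont.tendsto 0).comp h2
  obtain ⟨n, hn⟩ := (h3.eventually_const_lt hKp).exists
  exact (mul_eq_zero.1 (hx n)).resolve_right hn.ne'

/-- a long system of intervals -/
structure LS (a r : ℕ → ℝ) : Prop where
  pos : ∀ k, 0 < r k
  le : ∀ k, r k ≤ a k
  sep : ∀ k, a k + r k ≤ a (k + 1)
  long : ¬ Summable fun k => (r k / a k) ^ 2

lemma LS.unbdd {a r : ℕ → ℝ} (h : LS a r) (R : ℝ) : ∃ k, R ≤ r k := by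
  have hR : 0 < max R 1 := lt_max_of_lt_right one_pos
  obtain ⟨K, h1, h2⟩ := long_large h.pos h.le h.sep h.long hR 0
  have h3 : K.Nonempty := by
    by_contra hc
    rw [Finset.not_nonempty_iff_eq_empty] at hc
    rw [hc, Finset.sum_empty] at h2
    exact lt_irrefl _ h2
  obtain ⟨k, hk⟩ := h3
  exact ⟨k, (le_max_left _ _).trans (h1 k hk)⟩

variable {g : Ultrafilter ℝ} {A' : ℝ → ℝ} {C1 : ℝ}

/-- **rigidity of the limits without multiplicities** -/
theorem rigid_one (hg : (g : Filter ℝ) ≤ atTop) (h : Lm g A' C1) (hC1 : 0 ≤ C1) (h0 : A' 0 ≤ 1)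
    {s C δ : ℝ} (hs : s = 1 ∨ s = -1) (hC : 0 ≤ C) (hδ : 0 < δ) {a r : ℕ → ℝ} (hls : LS a r)
    (hyp : ∀ k, ∀ x ∈ Set.Icc (a k) (a k + r k), -(C * Real.exp (-(δ * r k))) ≤ s * Ed A' x) :
    ∀ x, A' x = AG x := by
  have hd := d0_pos
  obtain ⟨-, hgap⟩ := Lm_gap hg h h0
  obtain ⟨B, hB, hbd⟩ := Ed_bdd hC1
  have hE := hbd g hg A' h
  have hA'b : ∀ y, |A' y| ≤ 6 * C1 * (1 + y ^ 2) := by
    intro y
    have h2 := incr_bound hC1 h.mono h.neg h.incr y
    have h3 := mul_le_mul_of_nonneg_left (abs_le_sq y) (show 0 ≤ 3 * C1 by positivity)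
    linarith
  have hm : ∀ K, TK d0 K → ∀ b, 0 < b →
      ∫ y, A' y * (ct K (y + b) - ct K (y - b)) = ∫ y, AG y * (ct K (y + b) - ct K (y - b)) := by
    intro K hK b _
    have h1 := hgap (Kav K b) (Kav_TK hK b)
    simp_rw [dct_Kav hK] at h1
    exact h1
  have hs1 : |s| = 1 := by rcases hs with rfl | rfl <;> simp
  have hs0 : s ≠ 0 := by rcases hs with rfl | rfl <;> norm_num
  have hEm := dE_meas h.mono
  obtain ⟨H, hH⟩ : ∃ H : ℝ → ℝ, H = fun y => s * (y * dE A' y) := ⟨_, rfl⟩
  have hHm : Measurable H := by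
    rw [hH]
    exact measurable_const.mul (measurable_id.mul hEm)
  have hHe : ∀ y, H (-y) = H y := by
    intro y
    rw [hH]
    simp only
    rw [dE_odd]
    ring
  have hdEb : ∀ y, |dE A' y| ≤ 2 * B := by
    intro y
    have e : dE A' y = Ed A' y - Ed A' (-y) := rfl
    rw [e]
    refine (abs_sub _ _).trans ?_
    linarith [hE y, hE (-y)]
  have hHb : ∀ y, |H y| ≤ 2 * B * (1 + y ^ 2) := by
    intro y
    rw [hH]
    simp only
    rw [abs_mul, hs1, one_mul, abs_mul]
    have h1 : |y| ≤ 1 + y ^ 2 := by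
      rw [← sq_abs]
      nlinarith [sq_nonneg (|y| - 1), abs_nonneg y]
    calc |y| * |dE A' y| ≤ (1 + y ^ 2) * (2 * B) :=
          mul_le_mul h1 (hdEb y) (abs_nonneg _) (by positivity)
      _ = _ := by ring
  have hHc : ∀ᵐ x, ContinuousAt H x := by
    filter_upwards [dE_cont h.mono] with x hx
    rw [hH]
    exact continuousAt_const.mul (continuousAt_id.mul hx)
  have hz : ∀ K, TK d0 K → ∫ y, H y * ct K y = 0 := by
    intro K hK
    have h1 := ANC.annih3 hd hK h.mono hA'b hm
    have h2 : ∫ y, H y * ct K y = s * ∫ y, (y * dE A' y) * ct K y := by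
      rw [← integral_const_mul, hH]
      refine integral_congr_ae (Eventually.of_forall fun y => ?_)
      show s * (y * dE A' y) * ct K y = _
      ring
    rw [h2, h1, mul_zero]
  have ha : ∀ k, 0 < a k := fun k => (hls.pos k).trans_le (hls.le k)
  have hlow : ∀ k, ∀ᵐ x, x ∈ Set.Icc (a k) (a k + r k) →
      -(C * (1 + x ^ 2) * Real.exp (-(δ * r k))) ≤ H x := by
    intro k
    refine Eventually.of_forall fun x hx => ?_
    have hx0 : 0 < x := (ha k).trans_le hx.1
    have h1 := hyp k x hx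
    rw [hH]
    simp only
    rw [dE_pos h.neg hx0]
    have h2 := mul_le_mul_of_nonneg_left h1 hx0.le
    have h3 : x ≤ 1 + x ^ 2 := by nlinarith [sq_nonneg (x - 1)]
    have h4 : x * (C * Real.exp (-(δ * r k))) ≤ (1 + x ^ 2) * (C * Real.exp (-(δ * r k))) :=
      mul_le_mul_of_nonneg_right h3 (by positivity)
    have e1 : s * (x * (A' x - AG x)) = x * (s * Ed A' x) := by
      unfold Ed
      ring
    rw [e1]
    linarith
  have hfin := high_sparse_w hd hHm hHe hHb hHc hC hδ hls.pos hls.le hls.sep hls.long hlow hz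
  have hx0 : ∀ᵐ x : ℝ, x ≠ 0 := by
    rw [ae_iff]
    simp
  have hdE : ∀ᵐ x, dE A' x = 0 := by
    filter_upwards [hfin, hx0] with y hy hy0
    rw [hH] at hy
    exact (mul_eq_zero.1 ((mul_eq_zero.1 hy).resolve_left hs0)).resolve_left hy0
  exact ANC.limit_anchored h.mono h.neg hA'b h.one hdE

/-- the mean of the discrepancy forces the absence of multiplicities -/
lemma mean_zero (hg : (g : Filter ℝ) ≤ atTop) (h : Lm g A' C1) (hC1 : 0 ≤ C1) {C δ : ℝ}
    (hC : 0 ≤ C) (hδ : 0 < δ) {a r : ℕ → ℝ} (hls : LS a r)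
    (hyp : ∀ k, ∀ x ∈ Set.Icc (a k) (a k + r k),
      -(C * Real.exp (-(δ * r k))) ≤ Ed A' x - Ed A' 0) : A' 0 ≤ 1 := by
  obtain ⟨C2, hC2, hp⟩ := Ed_prim hC1
  have hP := hp g hg A' h
  have hEm := Ed_meas h
  obtain ⟨B, hB, hbd⟩ := Ed_bdd hC1
  have hE := hbd g hg A' h
  have ha : ∀ k, 0 < a k := fun k => (hls.pos k).trans_le (hls.le k)
  have hint : ∀ u v : ℝ, IntervalIntegrable (Ed A') volume u v := by
    intro u v
    refine (intervalIntegrable_const (c := B)).mono_fun hEm.aestronglyMeasurable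
      (Eventually.of_forall fun y => ?_)
    show ‖Ed A' y‖ ≤ ‖B‖
    rw [Real.norm_eq_abs, Real.norm_eq_abs, abs_of_nonneg hB]
    exact hE y
  have e0 : Ed A' 0 = A' 0 - 1 := by
    unfold Ed
    rw [AG_pos le_rfl, gp_zero]
    ring
  have key : ∀ k, Ed A' 0 * r k ≤ 2 * C2 + C * (Real.exp (-(δ * r k)) * r k) := by
    intro k
    have h1 : (Ed A' 0 - C * Real.exp (-(δ * r k))) * r k ≤
        ∫ y in (a k)..(a k + r k), Ed A' y := by
      have h2 := intervalIntegral.integral_mono_on (a := a k) (b := a k + r k)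
        (by linarith [hls.pos k]) (intervalIntegrable_const (μ := volume)
          (c := Ed A' 0 - C * Real.exp (-(δ * r k)))) (hint _ _) (fun x hx => by
          have := hyp k x hx
          linarith)
      rw [intervalIntegral.integral_const, smul_eq_mul] at h2
      have e : a k + r k - a k = r k := by ring
      rw [e] at h2
      linarith
    have h2 : ∫ y in (a k)..(a k + r k), Ed A' y =
        (∫ y in (0 : ℝ)..(a k + r k), Ed A' y) - ∫ y in (0 : ℝ)..(a k), Ed A' y := by
      rw [intervalIntegral.integral_interval_sub_left (hint _ _) (hint _ _)]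
    have h3 := abs_le.1 (hP (a k + r k) (by linarith [ha k, hls.pos k]))
    have h4 := abs_le.1 (hP (a k) (ha k).le)
    rw [h2] at h1
    linarith [h3.2, h4.1]
  by_contra hc
  push Not at hc
  have hE0 : 0 < Ed A' 0 := by rw [e0]; linarith
  obtain ⟨k, hk⟩ := hls.unbdd ((2 * C2 + C / δ + 1) / Ed A' 0)
  have h1 := key k
  rw [div_le_iff₀ hE0] at hk
  have h2 : Real.exp (-(δ * r k)) * r k ≤ 1 / δ := by
    rw [le_div_iff₀ hδ, Real.exp_neg, mul_assoc, ← div_eq_inv_mul, div_le_one (Real.exp_pos _)]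
    have := Real.add_one_le_exp (δ * r k)
    linarith
  have h3 := mul_le_mul_of_nonneg_left h2 hC
  have h4 : C * (1 / δ) = C / δ := by ring
  linarith

/-- **rigidity of the limits** -/
theorem rigid_lower (hg : (g : Filter ℝ) ≤ atTop) (h : Lm g A' C1) (hC1 : 0 ≤ C1) {C δ : ℝ}
    (hC : 0 ≤ C) (hδ : 0 < δ) {a r : ℕ → ℝ} (hls : LS a r)
    (hyp : ∀ k, ∀ x ∈ Set.Icc (a k) (a k + r k),
      -(C * Real.exp (-(δ * r k))) ≤ Ed A' x - Ed A' 0) : ∀ x, A' x = AG x := by
  have h0 := mean_zero hg h hC1 hC hδ hls hyp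
  have e0 : Ed A' 0 = A' 0 - 1 := by
    unfold Ed
    rw [AG_pos le_rfl, gp_zero]
    ring
  have h1 := h.one
  have e1 : Ed A' 0 = 0 := by rw [e0]; linarith
  refine rigid_one hg h hC1 h0 (Or.inl rfl) hC hδ hls fun k x hx => ?_
  have := hyp k x hx
  rw [e1, sub_zero] at this
  rw [one_mul]
  exact this

end Pool.Agent.H8.PCU
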