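import Pool.Agent.H8.PCU.K2

/-! # Smooth test functions -/

set_option autoImplicit false

open MeasureTheory Filter Topology Real
open scoped ContDiff

namespace Pool.Agent.H8.PCU

open Pool.Agent.Y744

lemma sinc_smooth : ContDiff ℝ ∞ Real.sinc := by
  have h1 : DifferentiableOn ℂ (dslope Complex.sin 0) Set.univ :=
    (Complex.differentiableOn_dslope (s := Set.univ) (c := 0) univ_mem).2
      Complex.differentiable_sin.differentiableOn
  have h2 : Differentiable ℂ (dslope Complex.sin 0) := differentiableOn_univ.1 h1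
  have h3 : ContDiff ℂ ∞ (dslope Complex.sin 0) := h2.contDiff
  have h4 : ContDiff ℝ ∞ (dslope Complex.sin 0) := h3.restrict_scalars ℝ
  have h5 : ContDiff ℝ ∞ (fun x : ℝ => (dslope Complex.sin 0 (x : ℂ)).re) :=
    Complex.reCLM.contDiff.comp (h4.comp Complex.ofRealCLM.contDiff)
  have e : Real.sinc = fun x : ℝ => (dslope Complex.sin 0 (x : ℂ)).re := by
    funext x
    rcases eq_or_ne x 0 with rfl | hx
    · rw [Real.sinc_zero, Complex.ofReal_zero, dslope_same, (Complex.hasDerivAt_sin 0).deriv,
        Complex.cos_zero, Complex.one_re]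
    · rw [Real.sinc_of_ne_zero hx, dslope_of_ne _ (by exact_mod_cast hx), slope_def_field,
        Complex.sin_zero, sub_zero, sub_zero, ← Complex.ofReal_sin, ← Complex.ofReal_div,
        Complex.ofReal_re]
  rw [e]
  exact h5

variable {κ : ℝ} {K : ℝ → ℝ}

lemma Kav_TK (h : TK κ K) (a : ℝ) : TK κ (Kav K a) where
  smooth := by
    unfold Kav
    exact h.smooth.mul (contDiff_const.mul (sinc_smooth.comp (by fun_prop)))
  even := Kav_even h
  supp := Kav_supp h

/-- the test functions with two bumps -/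
noncomputable def Lav (K : ℝ → ℝ) (A α : ℝ) : ℝ := K α * (A * Real.sinc (π * A * α)) ^ 2

lemma Lav_TK (h : TK κ K) (A : ℝ) : TK κ (Lav K A) where
  smooth := by
    unfold Lav
    exact h.smooth.mul ((contDiff_const.mul (sinc_smooth.comp (by fun_prop))).pow 2)
  even := fun x => by
    unfold Lav
    rw [h.even, mul_neg, Real.sinc_neg]
  supp := fun x hx => by
    unfold Lav
    rw [h.supp x hx, zero_mul]

/-- the sine transform -/
noncomputable def ST (K : ℝ → ℝ) (w : ℂ) : ℂ :=
  ∫ α : ℝ, (K α : ℂ) * Complex.sin (2 * π * w * α)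

lemma ST_hasDeriv (h : CK κ K) (w : ℂ) : HasDerivAt (ST K)
    (∫ α : ℝ, (K α : ℂ) * (Complex.cos (2 * π * w * α) * (2 * π * α))) w := by
  have hpi := Real.pi_pos
  have key := hasDerivAt_integral_of_dominated_loc_of_deriv_le (μ := volume) (𝕜 := ℂ)
    (F := fun w (α : ℝ) => (K α : ℂ) * Complex.sin (2 * π * w * α))
    (F' := fun w (α : ℝ) => (K α : ℂ) * (Complex.cos (2 * π * w * α) * (2 * π * α)))
    (bound := fun α => |K α| * (Real.exp (2 * π * (|w.im| + 1) * |κ|) * (2 * π * |κ|)))
    (x₀ := w) (s := Metric.ball w 1) (Metric.ball_mem_nhds _ one_pos)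
    (Eventually.of_forall fun v => (mul_int h (by fun_prop)).aestronglyMeasurable)
    (mul_int h (by fun_prop)) (mul_int h (by fun_prop)).aestronglyMeasurable
    (Eventually.of_forall fun α v hv => ?_) (h.integrable.abs.mul_const _)
    (Eventually.of_forall fun α v _ => ?_)
  · exact key.2
  · rw [norm_mul, Complex.norm_real, Real.norm_eq_abs]
    by_cases hα : κ < |α|
    · rw [h.supp α hα, abs_zero, zero_mul, zero_mul]
    · push Not at hα
      have hα2 : |α| ≤ |κ| := hα.trans (le_abs_self _)
      refine mul_le_mul_of_nonneg_left ?_ (abs_nonneg _)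
      rw [norm_mul, norm_mul, norm_mul, Complex.norm_real, Complex.norm_real,
        Complex.norm_ofNat, Real.norm_eq_abs, Real.norm_eq_abs, abs_of_pos hpi]
      refine mul_le_mul ((norm_cos_le _).trans (Real.exp_le_exp.2 ?_)) ?_ (by positivity)
        (Real.exp_pos _).le
      · rw [arg_im, abs_mul, abs_mul, abs_of_pos (by positivity : 0 < 2 * π)]
        have h1 : |v.im| ≤ |w.im| + 1 := by
          have h2 : |(v - w).im| ≤ ‖v - w‖ := Complex.abs_im_le_norm _
          rw [Metric.mem_ball, Complex.dist_eq] at hv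
          rw [Complex.sub_im] at h2
          have := abs_sub_abs_le_abs_sub v.im w.im
          linarith
        gcongr
      · gcongr
  · have h1 : HasDerivAt (fun v : ℂ => 2 * π * v * α) (2 * π * α) v := by
      have := ((hasDerivAt_id v).const_mul (2 * π : ℂ)).mul_const (α : ℂ)
      simpa using this
    exact (h1.csin).const_mul _

lemma CK_mul (h : CK κ K) {f : ℝ → ℝ} (hf : Continuous f) : CK κ (fun α => K α * f α) :=
  ⟨h.cont.mul hf, fun x hx => by rw [h.supp x hx, zero_mul]⟩

lemma deriv_CT (h : CK κ K) (w : ℂ) : deriv (CT K) w = -ST (fun α => K α * (2 * π * α)) w := by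
  rw [(CT_hasDeriv h w).deriv]
  unfold ST
  rw [← integral_neg]
  refine integral_congr_ae (Eventually.of_forall fun α => ?_)
  show (K α : ℂ) * (-Complex.sin (2 * π * w * α) * (2 * π * α)) =
    -(((K α * (2 * π * α) : ℝ) : ℂ) * Complex.sin (2 * π * w * α))
  push_cast
  ring

lemma deriv2_CT (h : CK κ K) (w : ℂ) :
    HasDerivAt (deriv (CT K)) (-CT (fun α => K α * (2 * π * α) ^ 2) w) w := by
  have e : deriv (CT K) = fun w => -ST (fun α => K α * (2 * π * α)) w := funext fun w => deriv_CT h w
  rw [e]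
  have h1 := (ST_hasDeriv (CK_mul h (f := fun α => 2 * π * α) (by fun_prop)) w).neg
  refine h1.congr_deriv ?_
  unfold CT
  congr 1
  refine integral_congr_ae (Eventually.of_forall fun α => ?_)
  show ((K α * (2 * π * α) : ℝ) : ℂ) * (Complex.cos (2 * π * w * α) * (2 * π * α)) =
    ((K α * (2 * π * α) ^ 2 : ℝ) : ℂ) * Complex.cos (2 * π * w * α)
  push_cast
  ring

/-- the second derivative of the two bump test functions -/
lemma Lav_deriv2 (h : TK κ K) (A : ℝ) (w : ℂ) :
    HasDerivAt (deriv (CT (Lav K A))) (CT K (w + A) + CT K (w - A) - 2 * CT K w) w := by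
  refine (deriv2_CT (TK_CK (Lav_TK h A)) w).congr_deriv ?_
  unfold CT
  have i1 : ∀ v : ℂ, Integrable fun α : ℝ => (K α : ℂ) * Complex.cos (2 * π * v * α) :=
    fun v => mul_int (TK_CK h) (by fun_prop)
  have i2 : Integrable fun α : ℝ => (K α : ℂ) * Complex.cos (2 * π * (w + A) * α) +
      (K α : ℂ) * Complex.cos (2 * π * (w - A) * α) := (i1 _).add (i1 _)
  rw [← integral_const_mul, ← integral_neg, ← integral_add (i1 _) (i1 _),
    ← integral_sub i2 ((i1 _).const_mul _)]
  refine integral_congr_ae (Eventually.of_forall fun α => ?_)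
  show -(((Lav K A α * (2 * π * α) ^ 2 : ℝ) : ℂ) * Complex.cos (2 * π * w * α)) =
    (K α : ℂ) * Complex.cos (2 * π * (w + A) * α) + (K α : ℂ) * Complex.cos (2 * π * (w - A) * α) -
      2 * ((K α : ℂ) * Complex.cos (2 * π * w * α))
  have e1 : (2 * π * (w + A) * α : ℂ) = 2 * π * w * α + 2 * (π * A * α) := by ring
  have e2 : (2 * π * (w - A) * α : ℂ) = 2 * π * w * α - 2 * (π * A * α) := by ring
  rw [e1, e2, Complex.cos_add, Complex.cos_sub]
  have e3 : Lav K A α * (2 * π * α) ^ 2 = K α * (4 * Real.sin (π * A * α) ^ 2) := by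
    unfold Lav
    rcases eq_or_ne α 0 with rfl | hα
    · simp
    · rcases eq_or_ne A 0 with rfl | hA
      · simp
      · have hpi := Real.pi_pos
        rw [Real.sinc_of_ne_zero (by positivity)]
        field_simp
        ring
  rw [e3]
  push_cast
  have e4 : Complex.cos (2 * (π * A * α)) = 1 - 2 * Complex.sin (π * A * α) ^ 2 := by
    rw [Complex.cos_two_mul, Complex.cos_sq']
    ring
  rw [e4]
  ring

end Pool.Agent.H8.PCU
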